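import Mathlib

set_option autoImplicit false

/-! Averages of nonnegative functions on a finite type, and Hölder's inequality for them. -/

namespace Pool.Agent.MP_a3e05c_co

open scoped NNReal
open Finset

variable {X : Type*} [Fintype X]

/-- The average of a nonnegative function on a finite type. -/
noncomputable def av (f : X → ℝ≥0) : ℝ≥0 := (Fintype.card X : ℝ≥0)⁻¹ * ∑ x, f x

lemma av_mul_left (c : ℝ≥0) (f : X → ℝ≥0) : av (fun x => c * f x) = c * av f := by
  unfold av
  rw [← Finset.mul_sum]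
  ring

lemma av_mul_right (c : ℝ≥0) (f : X → ℝ≥0) : av (fun x => f x * c) = av f * c := by
  unfold av
  rw [← Finset.sum_mul]
  ring

lemma av_mono {f g : X → ℝ≥0} (h : ∀ x, f x ≤ g x) : av f ≤ av g := by
  unfold av
  exact mul_le_mul_right (Finset.sum_le_sum fun x _ => h x) _

lemma av_congr {f g : X → ℝ≥0} (h : ∀ x, f x = g x) : av f = av g := by
  have : f = g := funext h
  rw [this]

lemma av_const [Nonempty X] (c : ℝ≥0) : av (fun _ : X => c) = c := by
  unfold av
  rw [Finset.sum_const, Finset.card_univ, nsmul_eq_mul, ← mul_assoc]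
  have : (Fintype.card X : ℝ≥0) ≠ 0 := by exact_mod_cast Fintype.card_ne_zero
  rw [inv_mul_cancel₀ this, one_mul]

lemma av_comm {Y : Type*} [Fintype Y] (f : X → Y → ℝ≥0) :
    av (fun x => av (fun y => f x y)) = av (fun y => av (fun x => f x y)) := by
  unfold av
  rw [← Finset.mul_sum, ← Finset.mul_sum, Finset.sum_comm]
  ring

/-- Hölder's inequality for finitely many functions. -/
lemma sum_prod_rpow_le {ι : Type*} (s : Finset ι) (p : ι → ℝ≥0) (hp : ∑ i ∈ s, p i = 1)
    (g : ι → X → ℝ≥0) :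
    ∑ x, ∏ i ∈ s, g i x ^ (p i : ℝ) ≤ ∏ i ∈ s, (∑ x, g i x) ^ (p i : ℝ) := by
  classical
  by_cases h0 : ∃ i ∈ s, p i ≠ 0 ∧ ∑ x, g i x = 0
  · obtain ⟨i, hi, hpi, hgi⟩ := h0
    have hz : ∀ x, g i x = 0 := by
      intro x
      exact (Finset.sum_eq_zero_iff.mp hgi) x (Finset.mem_univ x)
    have : ∑ x, ∏ i ∈ s, g i x ^ (p i : ℝ) = 0 := by
      apply Finset.sum_eq_zero
      intro x _
      apply Finset.prod_eq_zero hi
      rw [hz x, NNReal.zero_rpow]
      exact_mod_cast hpi
    rw [this]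
    exact zero_le
  · push Not at h0
    have key : ∀ x, ∏ i ∈ s, g i x ^ (p i : ℝ) ≤
        (∏ i ∈ s, (∑ x, g i x) ^ (p i : ℝ)) * ∑ i ∈ s, p i * (g i x / ∑ x, g i x) := by
      intro x
      have h1 := NNReal.geom_mean_le_arith_mean_weighted s p (fun i => g i x / ∑ x, g i x) hp
      have h2 : ∏ i ∈ s, g i x ^ (p i : ℝ) =
          (∏ i ∈ s, (∑ x, g i x) ^ (p i : ℝ)) * ∏ i ∈ s, (g i x / ∑ x, g i x) ^ (p i : ℝ) := by
        rw [← Finset.prod_mul_distrib]
        apply Finset.prod_congr rfl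
        intro i hi
        by_cases hpi : p i = 0
        · rw [hpi]; simp
        · have hG := h0 i hi hpi
          rw [← NNReal.mul_rpow, mul_div_cancel₀ _ hG]
      rw [h2]
      exact mul_le_mul_right h1 _
    calc ∑ x, ∏ i ∈ s, g i x ^ (p i : ℝ)
        ≤ ∑ x, (∏ i ∈ s, (∑ x, g i x) ^ (p i : ℝ)) * ∑ i ∈ s, p i * (g i x / ∑ x, g i x) :=
          Finset.sum_le_sum fun x _ => key x
      _ = (∏ i ∈ s, (∑ x, g i x) ^ (p i : ℝ)) *
            ∑ i ∈ s, p i * ∑ x, (g i x / ∑ x, g i x) := by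
          rw [← Finset.mul_sum, Finset.sum_comm]
          congr 1
          apply Finset.sum_congr rfl
          intro i _
          rw [Finset.mul_sum]
      _ ≤ (∏ i ∈ s, (∑ x, g i x) ^ (p i : ℝ)) * 1 := by
          apply mul_le_mul_right
          rw [← hp]
          apply Finset.sum_le_sum
          intro i _
          rw [← Finset.sum_div]
          calc p i * ((∑ x, g i x) / ∑ x, g i x) ≤ p i * 1 := by
                apply mul_le_mul_right
                exact div_self_le_one _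
            _ = p i := mul_one _
      _ = _ := mul_one _

lemma prod_rpow_const {ι : Type*} {c : ℝ≥0} (hc : c ≠ 0) (s : Finset ι) (p : ι → ℝ) :
    ∏ i ∈ s, c ^ p i = c ^ (∑ i ∈ s, p i) := by
  classical
  induction s using Finset.induction_on with
  | empty => simp
  | insert i s hi ih => rw [Finset.prod_insert hi, Finset.sum_insert hi, ih, NNReal.rpow_add hc]

lemma holder {ι : Type*} (s : Finset ι) (p : ι → ℝ≥0) (hp : ∑ i ∈ s, p i = 1)
    (g : ι → X → ℝ≥0) :
    av (fun x => ∏ i ∈ s, g i x ^ (p i : ℝ)) ≤ ∏ i ∈ s, av (g i) ^ (p i : ℝ) := by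
  unfold av
  calc (Fintype.card X : ℝ≥0)⁻¹ * ∑ x, ∏ i ∈ s, g i x ^ (p i : ℝ)
      ≤ (Fintype.card X : ℝ≥0)⁻¹ * ∏ i ∈ s, (∑ x, g i x) ^ (p i : ℝ) :=
        mul_le_mul_right (sum_prod_rpow_le s p hp g) _
    _ ≤ ∏ i ∈ s, ((Fintype.card X : ℝ≥0)⁻¹ * ∑ x, g i x) ^ (p i : ℝ) := by
        apply le_of_eq
        simp_rw [NNReal.mul_rpow]
        rw [Finset.prod_mul_distrib]
        congr 1
        by_cases hc : Fintype.card X = 0
        · rw [hc]
          simp only [Nat.cast_zero, inv_zero]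
          by_cases hall : ∀ i ∈ s, p i = 0
          · rw [Finset.sum_eq_zero hall] at hp
            exact absurd hp (by norm_num)
          · push Not at hall
            obtain ⟨i, hi, hpi⟩ := hall
            symm
            apply Finset.prod_eq_zero hi
            rw [NNReal.zero_rpow]
            exact_mod_cast hpi
        · have hc' : ((Fintype.card X : ℝ≥0)⁻¹) ≠ 0 := by
            apply inv_ne_zero
            exact_mod_cast hc
          have h3 : ∏ i ∈ s, (Fintype.card X : ℝ≥0)⁻¹ ^ (p i : ℝ) =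
              (Fintype.card X : ℝ≥0)⁻¹ ^ (∑ i ∈ s, (p i : ℝ)) := by
            exact prod_rpow_const hc' s fun i => (p i : ℝ)
          rw [h3]
          have h4 : ∑ i ∈ s, (p i : ℝ) = 1 := by
            rw [← NNReal.coe_sum, hp, NNReal.coe_one]
          rw [h4, NNReal.rpow_one]

/-- Hölder's inequality for two functions, with real exponents adding up to one. -/
lemma holder2 {p q : ℝ} (hp : 0 ≤ p) (hq : 0 ≤ q) (hpq : p + q = 1) (f g : X → ℝ≥0) :
    av (fun x => f x ^ p * g x ^ q) ≤ av f ^ p * av g ^ q := by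
  have h := holder (X := X) (Finset.univ : Finset (Fin 2)) ![⟨p, hp⟩, ⟨q, hq⟩]
    (by
      rw [Fin.sum_univ_two]
      apply NNReal.eq
      exact hpq) ![f, g]
  simp only [Fin.prod_univ_two, Matrix.cons_val_zero, Matrix.cons_val_one] at h
  exact h

/-- Hölder's inequality with a weight. -/
lemma holder2w {p q : ℝ} (hp : 0 ≤ p) (hq : 0 ≤ q) (hpq : p + q = 1) (w f g : X → ℝ≥0) :
    av (fun x => w x * (f x ^ p * g x ^ q)) ≤
      av (fun x => w x * f x) ^ p * av (fun x => w x * g x) ^ q := by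
  have h := holder2 hp hq hpq (fun x => w x * f x) (fun x => w x * g x)
  refine le_trans (le_of_eq ?_) h
  apply av_congr
  intro x
  rw [NNReal.mul_rpow, NNReal.mul_rpow]
  have : w x ^ p * w x ^ q = w x := by
    rw [← NNReal.rpow_add_of_nonneg _ hp hq, hpq, NNReal.rpow_one]
  calc w x * (f x ^ p * g x ^ q) = (w x ^ p * w x ^ q) * (f x ^ p * g x ^ q) := by rw [this]
    _ = _ := by ring

/-- A weighted Cauchy-Schwarz inequality. -/
lemma av_cs (w b p q : X → ℝ≥0) (h : ∀ x, b x ^ 2 ≤ p x * q x) :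
    av (fun x => w x * b x) ^ 2 ≤ av (fun x => w x * p x) * av (fun x => w x * q x) := by
  have h1 : av (fun x => w x * b x) ≤
      av (fun x => w x * p x) ^ (1 / 2 : ℝ) * av (fun x => w x * q x) ^ (1 / 2 : ℝ) := by
    refine le_trans (av_mono ?_) (holder2w (by norm_num) (by norm_num) (by norm_num) w p q)
    intro x
    apply mul_le_mul_right
    rw [← NNReal.mul_rpow]
    calc b x = (b x ^ 2) ^ (1 / 2 : ℝ) := by
          rw [← NNReal.rpow_natCast, ← NNReal.rpow_mul]
          norm_num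
      _ ≤ _ := NNReal.rpow_le_rpow (h x) (by norm_num)
  calc av (fun x => w x * b x) ^ 2
      ≤ (av (fun x => w x * p x) ^ (1 / 2 : ℝ) * av (fun x => w x * q x) ^ (1 / 2 : ℝ)) ^ 2 :=
        pow_le_pow_left' h1 2
    _ = av (fun x => w x * p x) * av (fun x => w x * q x) := by
        rw [← NNReal.mul_rpow, ← NNReal.rpow_natCast, ← NNReal.rpow_mul]
        norm_num

/-- Hölder's inequality with a weight, for a product over a nonempty finite set. -/
lemma holder_prod {ι : Type*} (s : Finset ι) (hs : s.Nonempty) (w : X → ℝ≥0) (u : ι → X → ℝ≥0) :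
    av (fun x => w x * ∏ i ∈ s, u i x) ≤
      ∏ i ∈ s, av (fun x => w x * u i x ^ (s.card : ℝ)) ^ (1 / (s.card : ℝ)) := by
  have hc : (s.card : ℝ≥0) ≠ 0 := by exact_mod_cast hs.card_pos.ne'
  have hc' : (s.card : ℝ) ≠ 0 := by exact_mod_cast hs.card_pos.ne'
  have h := holder (X := X) s (fun _ => 1 / (s.card : ℝ≥0))
    (by rw [Finset.sum_const, nsmul_eq_mul, mul_one_div_cancel hc])
    (fun i x => w x * u i x ^ (s.card : ℝ))
  have e : ((1 / (s.card : ℝ≥0) : ℝ≥0) : ℝ) = 1 / (s.card : ℝ) := by push_cast; rfl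
  simp only [e] at h
  refine le_trans (le_of_eq ?_) h
  apply av_congr
  intro x
  have h1 : ∀ i ∈ s, (w x * u i x ^ (s.card : ℝ)) ^ (1 / (s.card : ℝ)) =
      w x ^ (1 / (s.card : ℝ)) * u i x := by
    intro i _
    rw [NNReal.mul_rpow, ← NNReal.rpow_mul, mul_one_div_cancel hc', NNReal.rpow_one]
  rw [Finset.prod_congr rfl h1, Finset.prod_mul_distrib, Finset.prod_const]
  congr 1
  rw [← NNReal.rpow_natCast, ← NNReal.rpow_mul, one_div_mul_cancel hc', NNReal.rpow_one]

end Pool.Agent.MP_a3e05c_co
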