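import Pool.Agent.Lib.MP_a3e05c_co.Euler

set_option autoImplicit false

/-! Eulerian orientations are bounded by the clique functionals of the majorant kernel. -/

namespace Pool.Agent.MP_a3e05c_co

open scoped NNReal
open Finset

variable {m : ℕ} [NeZero m]
variable {V : Type*} [Fintype V] [DecidableEq V] [LinearOrder V]
variable (G : SimpleGraph V) [DecidableRel G.Adj]

lemma ham_univ (x : V → ZMod m) :
    ham G (WQ : ZMod m → ZMod m → ℝ≥0) Finset.univ x = ∏ p ∈ Edg G, WQ (x p.1) (x p.2) := by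
  unfold ham Edg
  rw [Finset.prod_filter, ← Finset.univ_product_univ, Finset.prod_product]

lemma degIn_univ (v : V) : degIn G Finset.univ v = G.degree v := by
  unfold degIn
  rw [← SimpleGraph.card_neighborFinset_eq_degree]
  congr 1
  ext u
  simp

lemma sum_degree_eq : ∑ v, G.degree v = 2 * (Edg G).card := by
  have h1 : ∀ v, G.degree v = ∑ u, if G.Adj v u then 1 else 0 := by
    intro v
    rw [← SimpleGraph.card_neighborFinset_eq_degree, Finset.sum_ite, Finset.sum_const_zero,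
      add_zero, Finset.sum_const, smul_eq_mul, mul_one]
    congr 1
    ext u
    simp
  have h2 : ∀ v u : V, (if G.Adj v u then 1 else 0 : ℕ) =
      (if v < u ∧ G.Adj v u then 1 else 0) + (if u < v ∧ G.Adj u v then 1 else 0) := by
    intro v u
    by_cases h : G.Adj v u
    · have h' := h.symm
      have hne : v ≠ u := h.ne
      rcases lt_or_gt_of_ne hne with hlt | hlt
      · rw [if_pos h, if_pos ⟨hlt, h⟩, if_neg (fun h => lt_asymm hlt h.1)]
      · rw [if_pos h, if_neg (fun h => lt_asymm hlt h.1), if_pos ⟨hlt, h'⟩]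
    · have h' : ¬ G.Adj u v := fun h' => h h'.symm
      rw [if_neg h, if_neg (fun h' => h h'.2), if_neg (fun h => h' h.2)]
  have h3 : (Edg G).card = ∑ v, ∑ u, if v < u ∧ G.Adj v u then 1 else 0 := by
    unfold Edg
    rw [Finset.card_filter, ← Finset.univ_product_univ, Finset.sum_product]
  simp_rw [h1, h2, Finset.sum_add_distrib]
  rw [Finset.sum_comm (f := fun v u => if u < v ∧ G.Adj u v then 1 else 0), ← h3]
  ring

lemma abs_avR_le {X : Type*} [Fintype X] (f : X → ℝ) : |avR f| ≤ avR fun x => |f x| := by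
  unfold avR
  rw [abs_mul, abs_of_nonneg (by positivity : (0:ℝ) ≤ (Fintype.card X : ℝ)⁻¹)]
  exact mul_le_mul_of_nonneg_left (Finset.abs_sum_le_sum_abs _ _) (by positivity)

/-- The clique functional of the majorant kernel. -/
noncomputable def NQ (m : ℕ) [NeZero m] (n : ℕ) : ℝ≥0 :=
  N (WQ : ZMod m → ZMod m → ℝ≥0) n (fun _ => 1)

theorem EO_le_NQ (hm : ∀ v, G.degree v < m) :
    (EO V G : ℝ) ≤ ∏ v, ((2 : ℝ) ^ ((G.degree v : ℝ) * ((G.degree v : ℝ) + 1) / 2) *
      (NQ m (G.degree v + 1) : ℝ)) ^ ((1 : ℝ) / ((G.degree v : ℝ) + 1)) := by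
  have h1 := avR_prod_kc G hm
  have h2 : (EO V G : ℝ) / 2 ^ (Edg G).card ≤
      (hom G (WQ : ZMod m → ZMod m → ℝ≥0) Finset.univ (fun _ _ => 1) : ℝ≥0) := by
    rw [← h1]
    refine le_trans (le_abs_self _) (le_trans (abs_avR_le _) ?_)
    unfold hom
    rw [av_coe]
    apply avR_mono
    intro x
    rw [ham_univ, Finset.prod_const_one, one_mul, Finset.abs_prod]
    push_cast
    exact Finset.prod_le_prod (fun _ _ => abs_nonneg _) (fun p _ => abs_kc_le_WQ _ _)
  have h3 := clique_theorem G (isPos_WQ (m := m)) _ Finset.univ rfl (fun _ _ => 1)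
  have h4 : ((2 : ℝ) ^ (Edg G).card) =
      ∏ v, ((2 : ℝ) ^ ((G.degree v : ℝ) * ((G.degree v : ℝ) + 1) / 2)) ^
        ((1 : ℝ) / ((G.degree v : ℝ) + 1)) := by
    have e1 : ∀ v, ((2 : ℝ) ^ ((G.degree v : ℝ) * ((G.degree v : ℝ) + 1) / 2)) ^
        ((1 : ℝ) / ((G.degree v : ℝ) + 1)) = (2 : ℝ) ^ ((G.degree v : ℝ) / 2) := by
      intro v
      rw [← Real.rpow_mul (by norm_num)]
      congr 1
      have : ((G.degree v : ℝ) + 1) ≠ 0 := by positivity
      field_simp
    simp_rw [e1]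
    rw [← Real.rpow_sum_of_pos (by norm_num : (0:ℝ) < 2), ← Finset.sum_div]
    have h5 := sum_degree_eq G
    have h6 : (∑ v, (G.degree v : ℝ)) = 2 * ((Edg G).card : ℝ) := by exact_mod_cast h5
    rw [h6, mul_div_cancel_left₀ _ (by norm_num : (2:ℝ) ≠ 0), Real.rpow_natCast]
  have h7 : (EO V G : ℝ) ≤ 2 ^ (Edg G).card *
      (∏ v : V, N (WQ : ZMod m → ZMod m → ℝ≥0) (degIn G Finset.univ v + 1) (fun _ => 1) ^
        (1 / ((degIn G Finset.univ v : ℝ) + 1)) : ℝ≥0) := by
    rw [div_le_iff₀ (by positivity), mul_comm] at h2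
    exact le_trans h2 (mul_le_mul_of_nonneg_left (by exact_mod_cast h3) (by positivity))
  refine le_trans h7 (le_of_eq ?_)
  rw [h4]
  push_cast
  rw [← Finset.prod_mul_distrib]
  apply Finset.prod_congr rfl
  intro v _
  rw [degIn_univ, Real.mul_rpow (by positivity) (by positivity)]
  rfl

lemma card_Edg_top (n : ℕ) : (Edg (⊤ : SimpleGraph (Fin n))).card * 2 = n * (n - 1) := by
  have h := sum_degree_eq (⊤ : SimpleGraph (Fin n))
  simp only [SimpleGraph.complete_graph_degree, Fintype.card_fin, Finset.sum_const,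
    Finset.card_univ, smul_eq_mul] at h
  omega

/-- The average of the product of cosines over all pairs. -/
noncomputable def PK (m : ℕ) [NeZero m] (n : ℕ) : ℝ :=
  avR (fun x : Fin n → ZMod m => ∏ p ∈ Edg (⊤ : SimpleGraph (Fin n)), kc (x p.1) (x p.2))

lemma PK_eq {n : ℕ} (hn : n < m) :
    PK m (n + 1) * (2 : ℝ) ^ ((n : ℝ) * ((n : ℝ) + 1) / 2) = EO (Fin (n + 1)) ⊤ := by
  unfold PK
  rw [avR_prod_kc]
  · have h := card_Edg_top (n + 1)
    have h2 : ((n : ℝ) * ((n : ℝ) + 1) / 2) = ((Edg (⊤ : SimpleGraph (Fin (n + 1)))).card : ℝ) := by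
      rw [div_eq_iff (by norm_num)]
      rw [Nat.add_sub_cancel] at h
      have h3 : (((Edg (⊤ : SimpleGraph (Fin (n + 1)))).card * 2 : ℕ) : ℝ) =
        (((n + 1) * n : ℕ) : ℝ) := by rw [h]
      push_cast at h3
      rw [h3]
      ring
    rw [h2, Real.rpow_natCast, div_mul_cancel₀]
    positivity
  · intro v
    simpa using hn

lemma NQ_eq (n : ℕ) : (NQ m n : ℝ) =
    avR (fun x : Fin n → ZMod m => ∏ p ∈ Edg (⊤ : SimpleGraph (Fin n)),
      (WQ (x p.1) (x p.2) : ℝ)) := by
  have h := hom_top (isPos_WQ (m := m)) (Finset.univ : Finset (Fin n)) (fun _ => 1)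
  rw [Finset.card_univ, Fintype.card_fin] at h
  unfold NQ
  rw [← h]
  unfold hom
  rw [av_coe]
  apply avR_congr
  intro x
  rw [ham_univ, Finset.prod_const_one, one_mul]
  push_cast
  rfl

end Pool.Agent.MP_a3e05c_co
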