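import Pool.Agent.Lib.MP_a3e05c_co.Average

set_option autoImplicit false

/-! The clique functionals of a nonnegative positive semidefinite kernel and the local inequality
behind the clique theorem of Sah, Sawhney, Stoner and Zhao. -/

namespace Pool.Agent.MP_a3e05c_co

open scoped NNReal
open Finset

variable {X : Type*} [Fintype X]

/-- The clique functional: `N W n f` is the average over `x₁, …, xₙ` of
`∏ f (xᵢ) * ∏_{i<j} W (xᵢ, xⱼ)`. -/
noncomputable def N (W : X → X → ℝ≥0) : ℕ → (X → ℝ≥0) → ℝ≥0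
  | 0, _ => 1
  | n + 1, f => av (fun x => f x * N W n (fun y => f y * W x y))

/-- Two distinguished vertices carrying `F`, `G` and `m` further vertices carrying `g`. -/
noncomputable def B (W : X → X → ℝ≥0) (m : ℕ) (F G g : X → ℝ≥0) : ℝ≥0 :=
  av fun x => av fun y => F x * G y * W x y * N W m (fun z => g z * W x z * W y z)

/-- A symmetric kernel whose quadratic form satisfies the Cauchy-Schwarz inequality on
nonnegative functions. -/
structure IsPos (W : X → X → ℝ≥0) : Prop where
  symm : ∀ x y, W x y = W y x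
  cs : ∀ F G : X → ℝ≥0, (av fun x => av fun y => F x * G y * W x y) ^ 2 ≤
    (av fun x => av fun y => F x * F y * W x y) * (av fun x => av fun y => G x * G y * W x y)

variable {W : X → X → ℝ≥0}

lemma N_zero (f : X → ℝ≥0) : N W 0 f = 1 := rfl

lemma N_succ (n : ℕ) (f : X → ℝ≥0) :
    N W (n + 1) f = av (fun x => f x * N W n (fun y => f y * W x y)) := rfl

lemma N_one (f : X → ℝ≥0) : N W 1 f = av f := by
  rw [N_succ]
  apply av_congr
  intro x
  rw [N_zero, mul_one]

lemma B_succ (m : ℕ) (F G g : X → ℝ≥0) :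
    B W (m + 1) F G g = av fun z => g z * B W m (fun x => F x * W x z) (fun y => G y * W y z)
      (fun u => g u * W z u) := by
  unfold B
  have h1 : ∀ x y, F x * G y * W x y * N W (m + 1) (fun z => g z * W x z * W y z) =
      av fun z => g z * (F x * W x z * (G y * W y z) * W x y *
        N W m (fun u => g u * W z u * W x u * W y u)) := by
    intro x y
    rw [N_succ, ← av_mul_left]
    apply av_congr
    intro z
    have h2 : (fun y_1 => g y_1 * W x y_1 * W y y_1 * W z y_1) =
        (fun u => g u * W z u * W x u * W y u) := by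
      funext u
      ring
    rw [h2]
    ring
  simp_rw [h1]
  rw [av_congr fun x => av_comm _]
  rw [av_comm]
  apply av_congr
  intro z
  rw [← av_mul_left]
  apply av_congr
  intro x
  rw [← av_mul_left]

lemma B_zero (F G g : X → ℝ≥0) :
    B W 0 F G g = av fun x => av fun y => F x * G y * W x y := by
  unfold B
  simp only [N_zero, mul_one]

lemma B_cs (hW : IsPos W) (m : ℕ) : ∀ F G g : X → ℝ≥0,
    B W m F G g ^ 2 ≤ B W m F F g * B W m G G g := by
  induction m with
  | zero =>
    intro F G g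
    rw [B_zero, B_zero, B_zero]
    exact hW.cs F G
  | succ m ih =>
    intro F G g
    rw [B_succ, B_succ, B_succ]
    apply av_cs
    intro z
    exact ih _ _ _

lemma B_right (m : ℕ) (F g : X → ℝ≥0) :
    B W m F g g = av fun x => F x * N W (m + 1) (fun y => g y * W x y) := by
  unfold B
  apply av_congr
  intro x
  rw [N_succ, ← av_mul_left]
  apply av_congr
  intro y
  ring

lemma B_self (m : ℕ) (g : X → ℝ≥0) : B W m g g g = N W (m + 2) g := by
  rw [B_right, N_succ]

/-- From `X² ≤ K * X^s` with `s < 2` conclude `X^(2-s) ≤ K`. -/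
lemma self_bound {x K : ℝ≥0} {s : ℝ} (hs : s < 2) (h : x ^ 2 ≤ K * x ^ s) :
    x ^ (2 - s) ≤ K := by
  by_cases hx : x = 0
  · rw [hx, NNReal.zero_rpow (by linarith)]
    exact zero_le
  · rw [NNReal.rpow_sub hx, NNReal.rpow_ofNat]
    rw [div_le_iff₀ (NNReal.rpow_pos (pos_iff_ne_zero.mpr hx))]
    exact h

/-- The local inequality for `b = 1`. -/
lemma local_one (hW : IsPos W) (g : X → ℝ≥0) (a : ℕ) : ∀ f : X → ℝ≥0,
    av (fun x => f x * N W 1 (fun y => g y * W x y) ^ (a : ℝ)) ≤
      N W (a + 1) f ^ (1 / ((a : ℝ) + 1)) * N W 2 g ^ ((a : ℝ) / 2) := by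
  induction a with
  | zero =>
    intro f
    simp only [Nat.cast_zero, NNReal.rpow_zero, mul_one, zero_add, zero_div, div_one,
      NNReal.rpow_one]
    rw [N_one]
  | succ a ih =>
    intro f
    set c : X → ℝ≥0 := fun x => N W 1 (fun y => g y * W x y) with hc
    have hk : ((a + 1 : ℕ) : ℝ) = (a : ℝ) + 1 := by push_cast; ring
    rw [hk]
    have ha0 : (0 : ℝ) ≤ a := Nat.cast_nonneg a
    have hk0 : (0 : ℝ) < (a : ℝ) + 1 := by linarith
    set x₀ := av (fun x => f x * c x ^ ((a : ℝ) + 1)) with hx₀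
    set F : X → ℝ≥0 := fun x => f x * c x ^ (a : ℝ) with hF
    have h1 : x₀ = B W 0 F g g := by
      rw [B_right]
      apply av_congr
      intro x
      simp only [hF, zero_add]
      rw [NNReal.rpow_add_of_nonneg _ ha0 zero_le_one, NNReal.rpow_one]
      ring
    have h2 : x₀ ^ 2 ≤ B W 0 F F g * N W 2 g := by
      rw [h1, ← B_self]
      exact B_cs hW 0 F g g
    have h3 : B W 0 F F g ≤
        N W 2 g ^ ((a : ℝ) / 2) * (x₀ ^ ((a : ℝ) / ((a : ℝ) + 1)) *
          N W (a + 1 + 1) f ^ (1 / ((a : ℝ) + 1))) := by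
      rw [B_zero]
      have h4 : ∀ x, av (fun y => F x * F y * W x y) ≤
          N W 2 g ^ ((a : ℝ) / 2) * (f x * ((c x ^ ((a : ℝ) + 1)) ^ ((a : ℝ) / ((a : ℝ) + 1)) *
            (N W (a + 1) (fun y => f y * W x y)) ^ (1 / ((a : ℝ) + 1)))) := by
        intro x
        have h5 := ih (fun y => f y * W x y)
        have h6 : av (fun y => F x * F y * W x y) =
            F x * av (fun y => f y * W x y * c y ^ (a : ℝ)) := by
          rw [← av_mul_left]
          apply av_congr
          intro y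
          simp only [hF]
          ring
        rw [h6, ← NNReal.rpow_mul, mul_div_cancel₀ _ hk0.ne']
        calc F x * av (fun y => f y * W x y * c y ^ (a : ℝ))
            ≤ F x * (N W (a + 1) (fun y => f y * W x y) ^ (1 / ((a : ℝ) + 1)) *
                N W 2 g ^ ((a : ℝ) / 2)) := mul_le_mul_right h5 _
          _ = _ := by simp only [hF]; ring
      refine le_trans (av_mono h4) ?_
      rw [av_mul_left]
      apply mul_le_mul_right
      refine le_trans (holder2w (by positivity) (by positivity) (by field_simp) _ _ _) ?_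
      rw [N_succ (a + 1)]
    have h7 : x₀ ^ 2 ≤ (N W 2 g ^ (((a : ℝ) + 2) / 2) *
        N W (a + 1 + 1) f ^ (1 / ((a : ℝ) + 1))) * x₀ ^ ((a : ℝ) / ((a : ℝ) + 1)) := by
      refine le_trans h2 (le_trans (mul_le_mul_left h3 _) (le_of_eq ?_))
      have h8 : N W 2 g ^ (((a : ℝ) + 2) / 2) = N W 2 g ^ ((a : ℝ) / 2) * N W 2 g := by
        rw [show ((a : ℝ) + 2) / 2 = (a : ℝ) / 2 + 1 by ring,
          NNReal.rpow_add_of_nonneg _ (by positivity) zero_le_one, NNReal.rpow_one]
      rw [h8]
      ring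
    have h9 := self_bound (by
      rw [div_lt_iff₀ hk0]; linarith) h7
    have h10 : (2 : ℝ) - (a : ℝ) / ((a : ℝ) + 1) = ((a : ℝ) + 2) / ((a : ℝ) + 1) := by
      field_simp
      ring
    rw [h10] at h9
    have h11 := NNReal.rpow_le_rpow h9 (show (0 : ℝ) ≤ ((a : ℝ) + 1) / ((a : ℝ) + 2) by positivity)
    rw [← NNReal.rpow_mul, NNReal.mul_rpow, ← NNReal.rpow_mul, ← NNReal.rpow_mul] at h11
    have e1 : ((a : ℝ) + 2) / ((a : ℝ) + 1) * (((a : ℝ) + 1) / ((a : ℝ) + 2)) = 1 := by
      field_simp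
    have e2 : ((a : ℝ) + 2) / 2 * (((a : ℝ) + 1) / ((a : ℝ) + 2)) = ((a : ℝ) + 1) / 2 := by
      field_simp
    have e3 : 1 / ((a : ℝ) + 1) * (((a : ℝ) + 1) / ((a : ℝ) + 2)) = 1 / ((a : ℝ) + 1 + 1) := by
      field_simp
      ring
    rw [e1, e2, e3, NNReal.rpow_one] at h11
    rw [mul_comm]
    exact h11

/-- From `y ≤ K * y^(1/2)` conclude `y ≤ K^2`. -/
lemma self_bound_half {y K : ℝ≥0} (h : y ≤ K * y ^ (1 / 2 : ℝ)) : y ≤ K ^ (2 : ℝ) := by
  by_cases hy : y = 0
  · rw [hy]; exact zero_le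
  · have hpos : 0 < y ^ (1 / 2 : ℝ) := NNReal.rpow_pos (pos_iff_ne_zero.mpr hy)
    have e : y = y ^ (1 / 2 : ℝ) * y ^ (1 / 2 : ℝ) := by
      rw [← NNReal.rpow_add hy]
      norm_num
    have h1 : y ^ (1 / 2 : ℝ) ≤ K := by
      have h2 : y ^ (1 / 2 : ℝ) * y ^ (1 / 2 : ℝ) ≤ K * y ^ (1 / 2 : ℝ) := by rw [← e]; exact h
      exact le_of_mul_le_mul_right h2 hpos
    calc y = (y ^ (1 / 2 : ℝ)) ^ (2 : ℝ) := by
          rw [← NNReal.rpow_mul]; norm_num
      _ ≤ K ^ (2 : ℝ) := NNReal.rpow_le_rpow h1 (by norm_num)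

/-- The local inequality. -/
theorem local_ineq (hW : IsPos W) (b : ℕ) : ∀ a : ℕ, 1 ≤ b → b ≤ a → ∀ f g : X → ℝ≥0,
    av (fun x => f x * N W b (fun y => g y * W x y) ^ ((a : ℝ) / (b : ℝ))) ≤
      N W (a + 1) f ^ (1 / ((a : ℝ) + 1)) * N W (b + 1) g ^ ((a : ℝ) / ((b : ℝ) + 1)) := by
  induction b with
  | zero => intro a h; omega
  | succ b ih =>
    intro a' _ hba f g
    by_cases hb : b = 0
    · subst hb
      have h := local_one hW g a' f
      simp only [zero_add, Nat.cast_one, div_one] at h ⊢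
      rw [show (1 : ℝ) + 1 = 2 by norm_num]
      exact h
    · obtain ⟨a, rfl⟩ : ∃ a, a' = a + 1 := ⟨a' - 1, by omega⟩
      have hb1 : 1 ≤ b := by omega
      have hab : b ≤ a := by omega
      have hbR : (1 : ℝ) ≤ b := by exact_mod_cast hb1
      have habR : (b : ℝ) ≤ a := by exact_mod_cast hab
      have ha0 : (0 : ℝ) < a := by linarith
      have hb0 : (0 : ℝ) < b := by linarith
      push_cast
      set U : X → ℝ≥0 := fun x => N W (b + 1) (fun y => g y * W x y) with hU
      set x₀ := av (fun x => f x * U x ^ (((a : ℝ) + 1) / ((b : ℝ) + 1))) with hx₀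
      set Nf := N W (a + 1 + 1) f with hNf
      -- step 1
      set F : X → ℝ≥0 := fun x => f x * U x ^ (((a : ℝ) - b) / ((b : ℝ) + 1)) with hF
      have h1 : x₀ = B W b F g g := by
        rw [B_right]
        apply av_congr
        intro x
        simp only [hF]
        rw [show ((a : ℝ) + 1) / ((b : ℝ) + 1) = ((a : ℝ) - b) / ((b : ℝ) + 1) + 1 by
          field_simp; ring,
          NNReal.rpow_add_of_nonneg _ (div_nonneg (by linarith) (by linarith)) zero_le_one,
          NNReal.rpow_one]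
        ring
      have h2 : x₀ ^ 2 ≤ B W b F F g * N W (b + 1 + 1) g := by
        rw [h1, ← B_self]
        exact B_cs hW b F g g
      -- step 2
      set h : X → ℝ≥0 := fun x => f x * U x ^ ((a : ℝ) / ((b : ℝ) + 1)) with hh
      set Φ := av fun x => av fun y => f x * f y * W x y *
        N W b (fun z => g z * W x z * W y z) ^ ((a : ℝ) / (b : ℝ)) with hΦ
      have hp : (0 : ℝ) ≤ ((a : ℝ) - b) / a := div_nonneg (by linarith) ha0.le
      have hr : (0 : ℝ) ≤ (b : ℝ) / a := div_nonneg hb0.le ha0.le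
      have hpr : ((a : ℝ) - b) / a + (b : ℝ) / a = 1 := by field_simp; ring
      have h3 : B W b F F g ≤ N W 2 h ^ (((a : ℝ) - b) / a) * Φ ^ ((b : ℝ) / a) := by
        have e0 : N W 2 h = av fun x => av fun y => f x * f y * W x y *
            (U x * U y) ^ ((a : ℝ) / ((b : ℝ) + 1)) := by
          rw [← B_self 0 h, B_zero]
          apply av_congr
          intro x
          apply av_congr
          intro y
          simp only [hh]
          rw [NNReal.mul_rpow]
          ring
        have e1 : ∀ x y, F x * F y * W x y * N W b (fun z => g z * W x z * W y z) =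
            f x * f y * W x y * (((U x * U y) ^ ((a : ℝ) / ((b : ℝ) + 1))) ^ (((a : ℝ) - b) / a) *
              (N W b (fun z => g z * W x z * W y z) ^ ((a : ℝ) / (b : ℝ))) ^ ((b : ℝ) / a)) := by
          intro x y
          rw [← NNReal.rpow_mul, ← NNReal.rpow_mul,
            show (a : ℝ) / (b : ℝ) * ((b : ℝ) / a) = 1 by field_simp, NNReal.rpow_one,
            show (a : ℝ) / ((b : ℝ) + 1) * (((a : ℝ) - b) / a) = ((a : ℝ) - b) / ((b : ℝ) + 1) by
              field_simp, NNReal.mul_rpow]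
          simp only [hF]
          ring
        unfold B
        simp_rw [e1]
        rw [e0]
        refine le_trans (av_mono fun x => holder2w hp hr hpr _ _ _) ?_
        exact holder2 hp hr hpr _ _
      -- step 3
      have h4 : N W 2 h ≤ (x₀ ^ ((a : ℝ) / ((a : ℝ) + 1)) *
          Nf ^ (1 / (((a : ℝ) + 1) * ((a : ℝ) + 1 + 1)))) ^ (2 : ℝ) := by
        apply self_bound_half
        have h5 : N W 2 h = av fun x => f x *
            ((U x ^ (((a : ℝ) + 1) / ((b : ℝ) + 1))) ^ ((a : ℝ) / ((a : ℝ) + 1)) *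
              (N W 1 (fun y => h y * W x y) ^ (((a + 1 : ℕ) : ℝ))) ^ (1 / ((a : ℝ) + 1))) := by
          rw [N_succ]
          apply av_congr
          intro x
          have ea : (((a + 1 : ℕ) : ℝ)) = (a : ℝ) + 1 := by push_cast; ring
          rw [ea, ← NNReal.rpow_mul, ← NNReal.rpow_mul,
            show ((a : ℝ) + 1) / ((b : ℝ) + 1) * ((a : ℝ) / ((a : ℝ) + 1)) =
              (a : ℝ) / ((b : ℝ) + 1) by field_simp,
            show ((a : ℝ) + 1) * (1 / ((a : ℝ) + 1)) = 1 by field_simp, NNReal.rpow_one]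
          simp only [hh]
          ring
        have h6 := local_one hW h (a + 1) f
        calc N W 2 h = _ := h5
          _ ≤ _ := holder2w (by positivity) (by positivity) (by field_simp) _ _ _
          _ ≤ x₀ ^ ((a : ℝ) / ((a : ℝ) + 1)) *
                (Nf ^ (1 / (((a + 1 : ℕ) : ℝ) + 1)) * N W 2 h ^ (((a + 1 : ℕ) : ℝ) / 2)) ^
                  (1 / ((a : ℝ) + 1)) := by
              apply mul_le_mul_right
              exact NNReal.rpow_le_rpow h6 (by positivity)
          _ = _ := by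
              have ea : (((a + 1 : ℕ) : ℝ)) = (a : ℝ) + 1 := by push_cast; ring
              rw [ea, NNReal.mul_rpow, ← NNReal.rpow_mul, ← NNReal.rpow_mul,
                show 1 / ((a : ℝ) + 1 + 1) * (1 / ((a : ℝ) + 1)) =
                  1 / (((a : ℝ) + 1) * ((a : ℝ) + 1 + 1)) by field_simp,
                show ((a : ℝ) + 1) / 2 * (1 / ((a : ℝ) + 1)) = 1 / 2 by field_simp]
              ring
      -- step 4
      have h7 : Φ ≤ Nf ^ (1 / ((a : ℝ) + 1)) * x₀ ^ ((a : ℝ) / ((a : ℝ) + 1)) := by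
        have h8 : ∀ x, av (fun y => f x * f y * W x y *
            N W b (fun z => g z * W x z * W y z) ^ ((a : ℝ) / (b : ℝ))) ≤
            f x * ((N W (a + 1) (fun y => f y * W x y)) ^ (1 / ((a : ℝ) + 1)) *
              (U x ^ (((a : ℝ) + 1) / ((b : ℝ) + 1))) ^ ((a : ℝ) / ((a : ℝ) + 1))) := by
          intro x
          have h9 := ih a hb1 hab (fun y => f y * W x y) (fun z => g z * W x z)
          rw [← NNReal.rpow_mul, show ((a : ℝ) + 1) / ((b : ℝ) + 1) * ((a : ℝ) / ((a : ℝ) + 1)) =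
              (a : ℝ) / ((b : ℝ) + 1) by field_simp]
          refine le_trans (le_of_eq ?_) (mul_le_mul_right h9 (f x))
          rw [← av_mul_left]
          apply av_congr
          intro y
          ring
        refine le_trans (av_mono h8) (le_trans (holder2w (by positivity) (by positivity)
          (by field_simp; ring) _ _ _) ?_)
        rw [hNf, N_succ (a + 1)]
      -- combination
      have h10 : x₀ ^ 2 ≤ (N W (b + 1 + 1) g * Nf ^ (((b : ℝ) + 2) /
          (((a : ℝ) + 1) * ((a : ℝ) + 2)))) * x₀ ^ ((2 * (a : ℝ) - b) / ((a : ℝ) + 1)) := by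
        have h11 : N W 2 h ^ (((a : ℝ) - b) / a) * Φ ^ ((b : ℝ) / a) ≤
            ((x₀ ^ ((a : ℝ) / ((a : ℝ) + 1)) *
              Nf ^ (1 / (((a : ℝ) + 1) * ((a : ℝ) + 1 + 1)))) ^ (2 : ℝ)) ^ (((a : ℝ) - b) / a) *
            (Nf ^ (1 / ((a : ℝ) + 1)) * x₀ ^ ((a : ℝ) / ((a : ℝ) + 1))) ^ ((b : ℝ) / a) :=
          mul_le_mul' (NNReal.rpow_le_rpow h4 hp) (NNReal.rpow_le_rpow h7 hr)
        refine le_trans h2 (le_trans (mul_le_mul_left (le_trans h3 h11) _) (le_of_eq ?_))
        rw [NNReal.mul_rpow, NNReal.mul_rpow, NNReal.mul_rpow]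
        simp only [← NNReal.rpow_mul]
        have hx : x₀ ^ ((2 * (a : ℝ) - b) / ((a : ℝ) + 1)) =
            x₀ ^ ((a : ℝ) / ((a : ℝ) + 1) * 2 * (((a : ℝ) - b) / a)) *
              x₀ ^ ((a : ℝ) / ((a : ℝ) + 1) * ((b : ℝ) / a)) := by
          rw [← NNReal.rpow_add_of_nonneg _ (by positivity) (by positivity)]
          congr 1
          field_simp
          ring
        have hn : Nf ^ (((b : ℝ) + 2) / (((a : ℝ) + 1) * ((a : ℝ) + 2))) =
            Nf ^ (1 / (((a : ℝ) + 1) * ((a : ℝ) + 1 + 1)) * 2 * (((a : ℝ) - b) / a)) *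
              Nf ^ (1 / ((a : ℝ) + 1) * ((b : ℝ) / a)) := by
          rw [← NNReal.rpow_add_of_nonneg _ (by positivity) (by positivity)]
          congr 1
          field_simp
          ring
        rw [hx, hn]
        ring
      have h12 := self_bound (by
        rw [div_lt_iff₀ (by linarith)]; linarith) h10
      have h13 := NNReal.rpow_le_rpow h12
        (show (0 : ℝ) ≤ ((a : ℝ) + 1) / ((b : ℝ) + 2) by positivity)
      rw [← NNReal.rpow_mul, NNReal.mul_rpow, ← NNReal.rpow_mul] at h13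
      have e1 : (2 - (2 * (a : ℝ) - b) / ((a : ℝ) + 1)) * (((a : ℝ) + 1) / ((b : ℝ) + 2)) = 1 := by
        field_simp
        ring
      have e2 : ((b : ℝ) + 2) / (((a : ℝ) + 1) * ((a : ℝ) + 2)) * (((a : ℝ) + 1) / ((b : ℝ) + 2)) =
          1 / ((a : ℝ) + 1 + 1) := by
        field_simp
        ring
      rw [e1, e2, NNReal.rpow_one] at h13
      rw [show (b : ℝ) + 1 + 1 = (b : ℝ) + 2 by ring, mul_comm]
      exact h13

end Pool.Agent.MP_a3e05c_co
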