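import Pool.Agent.Lib.MP_a3e05c_co.Pointwise

set_option autoImplicit false

/-! The clique functional of the majorant is bounded by a constant times the normalised number
of regular tournaments. -/

namespace Pool.Agent.MP_a3e05c_co

open scoped NNReal Real
open Finset

variable {m : ℕ} [NeZero m] {n : ℕ}

lemma NQ_le (m : ℕ) [NeZero m] (n : ℕ) :
    (NQ m n : ℝ) ≤ avR (fun x : Fin n → ZMod m => wt x) := by
  rw [NQ_eq]
  apply avR_mono
  intro x
  rw [← prod_exp_eq]
  exact Finset.prod_le_prod (fun _ _ => (WQ _ _).coe_nonneg) (fun p _ => WQ_le_exp _ _)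

lemma Dev_moment (hD : Dbl m n) :
    avR (fun x : Fin n → ZMod m => wt x * Dev x) ≤
      n * 384 * avR (fun x : Fin n → ZMod m => wt x) := by
  unfold Dev
  simp_rw [Finset.mul_sum]
  rw [avR_sum]
  refine (Finset.sum_le_sum (g := fun _ => 384 * avR (fun x : Fin n → ZMod m => wt x))
    (fun i _ => moment hD i)).trans (le_of_eq ?_)
  rw [Finset.sum_const, Finset.card_univ, Fintype.card_fin, nsmul_eq_mul]
  ring

lemma avR_sub {X : Type*} [Fintype X] (f g : X → ℝ) :
    avR (fun x => f x - g x) = avR f - avR g := by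
  unfold avR
  rw [Finset.sum_sub_distrib]
  ring

lemma PK_ge (hn : Odd n) (hD : Dbl m n) :
    avR (fun x : Fin n → ZMod m => wt x) *
      (Real.exp (-1536) - 786432 / n - 2 * (Real.exp (-(3 * (n:ℝ) ^ 2 / 64)) * (n * 27 ^ n))) ≤
      PK m n := by
  have hn0 : (0:ℝ) < n := by exact_mod_cast hn.pos
  set J := avR (fun x : Fin n → ZMod m => wt x) with hJ
  have h1 : avR (fun x : Fin n → ZMod m =>
      (Real.exp (-1536) * (1 + 1536)) * wt x -
        ((Real.exp (-1536) * (4 / n) + 2048 / n ^ 2) * (wt x * Dev x) +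
      (2 * Real.exp (-(3 * (n:ℝ) ^ 2 / 64))) * Real.exp (-(Tq x / 4)))) ≤ PK m n := by
    apply avR_mono
    intro x
    refine le_trans (le_of_eq ?_) (pointwise hn 1536 (by norm_num) x)
    ring
  rw [avR_sub, avR_add, avR_mul_left, avR_mul_left, avR_mul_left, ← hJ] at h1
  have h2 := Dev_moment (m := m) (n := n) hD
  have h3 := free_energy (m := m) (n := n) hD hn.pos
  rw [← hJ] at h2 h3
  have hE := Real.exp_pos (-1536)
  have h4 : (Real.exp (-1536) * (4 / n) + 2048 / (n:ℝ) ^ 2) *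
      avR (fun x : Fin n → ZMod m => wt x * Dev x) ≤
      (Real.exp (-1536) * (4 / n) + 2048 / (n:ℝ) ^ 2) * (n * 384 * J) :=
    mul_le_mul_of_nonneg_left h2 (by positivity)
  have h5 : (2 * Real.exp (-(3 * (n:ℝ) ^ 2 / 64))) *
      avR (fun x : Fin n → ZMod m => Real.exp (-(Tq x / 4))) ≤
      (2 * Real.exp (-(3 * (n:ℝ) ^ 2 / 64))) * (n * 27 ^ n * J) :=
    mul_le_mul_of_nonneg_left h3 (by positivity)
  have h6 : (Real.exp (-1536) * (4 / n) + 2048 / (n:ℝ) ^ 2) * (n * 384 * J) =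
      (1536 * Real.exp (-1536) + 786432 / n) * J := by
    field_simp
    ring
  rw [h6] at h4
  refine le_trans (le_of_eq ?_) (le_trans (sub_le_sub_left (add_le_add h4 h5) _) h1)
  ring

lemma tail_bound {n : ℕ} (hn : 128 ≤ n) :
    Real.exp (-(3 * (n:ℝ) ^ 2 / 64)) * (n * 27 ^ n) ≤ 1 / n := by
  have hnR : (128:ℝ) ≤ n := by exact_mod_cast hn
  have hn0 : (0:ℝ) < n := by linarith
  have h1 : (n:ℝ) ≤ Real.exp n := by linarith [Real.add_one_le_exp (n:ℝ)]
  have h2 : (27:ℝ) ≤ Real.exp 4 := by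
    have h := Real.exp_one_gt_d9
    have h3 : Real.exp 4 = Real.exp 1 ^ 4 := by
      rw [← Real.exp_nat_mul]; norm_num
    rw [h3]
    have h4 : (2.7182818283:ℝ) ^ 4 ≤ Real.exp 1 ^ 4 := pow_le_pow_left₀ (by norm_num) h.le 4
    refine le_trans ?_ h4
    norm_num
  have h3 : (27:ℝ) ^ n ≤ Real.exp (4 * n) := by
    have := pow_le_pow_left₀ (by norm_num) h2 n
    rwa [← Real.exp_nat_mul, mul_comm] at this
  have h4 : Real.exp (-(3 * (n:ℝ) ^ 2 / 64)) * (n * 27 ^ n) ≤
      Real.exp (-(3 * (n:ℝ) ^ 2 / 64)) * (Real.exp n * Real.exp (4 * n)) := by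
    apply mul_le_mul_of_nonneg_left _ (Real.exp_pos _).le
    exact mul_le_mul h1 h3 (by positivity) (Real.exp_pos _).le
  refine h4.trans ?_
  rw [← Real.exp_add, ← Real.exp_add]
  have h5 : Real.exp (-(3 * (n:ℝ) ^ 2 / 64) + (n + 4 * n)) ≤ Real.exp (-n) := by
    apply Real.exp_le_exp.mpr
    nlinarith
  refine h5.trans ?_
  rw [Real.exp_neg, one_div]
  exact inv_anti₀ hn0 h1

/-- For large `n` the comparison holds with an absolute constant. -/
lemma large_case : ∃ n₀ : ℕ, ∀ n : ℕ, n₀ ≤ n → Odd n → ∀ m : ℕ, ∀ [NeZero m], Dbl m n →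
    (NQ m n : ℝ) ≤ 2 * Real.exp 1536 * PK m n := by
  obtain ⟨N, hN⟩ := exists_nat_ge (2 * 786434 * Real.exp 1536)
  refine ⟨max 128 N, fun n hn hodd m _ hD => ?_⟩
  have h128 : 128 ≤ n := le_trans (le_max_left _ _) hn
  have hNn : (N:ℝ) ≤ n := by exact_mod_cast le_trans (le_max_right _ _) hn
  have hn0 : (0:ℝ) < n := by
    have : (128:ℝ) ≤ n := by exact_mod_cast h128
    linarith
  have h1 := PK_ge hodd hD
  have h2 := tail_bound h128
  have h3 := NQ_le m n
  set J := avR (fun x : Fin n → ZMod m => wt x) with hJ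
  have hJ0 : 0 ≤ J := avR_nonneg (fun x => (wt_pos x).le)
  have hE : Real.exp (-1536) * Real.exp 1536 = 1 := by
    rw [← Real.exp_add]; norm_num
  have hE0 := Real.exp_pos (-1536)
  have hE1 := Real.exp_pos 1536
  have h4 : 786434 / (n:ℝ) ≤ Real.exp (-1536) / 2 := by
    rw [div_le_iff₀ hn0]
    have h5 : 2 * 786434 * Real.exp 1536 ≤ n := hN.trans hNn
    have h6 := mul_le_mul_of_nonneg_left h5 hE0.le
    have h7 : Real.exp (-1536) * (2 * 786434 * Real.exp 1536) = 2 * 786434 := by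
      rw [mul_left_comm, hE]; ring
    rw [h7] at h6
    linarith
  have h5 : Real.exp (-1536) / 2 ≤ Real.exp (-1536) - 786432 / n -
      2 * (Real.exp (-(3 * (n:ℝ) ^ 2 / 64)) * (n * 27 ^ n)) := by
    have e : 786434 / (n:ℝ) = 786432 / n + 2 * (1 / n) := by ring
    rw [e] at h4
    linarith
  have h6 : J * (Real.exp (-1536) / 2) ≤ PK m n :=
    (mul_le_mul_of_nonneg_left h5 hJ0).trans h1
  have h7 : J ≤ 2 * Real.exp 1536 * PK m n := by
    have h8 := mul_le_mul_of_nonneg_left h6 (by positivity : 0 ≤ 2 * Real.exp 1536)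
    have h9 : 2 * Real.exp 1536 * (J * (Real.exp (-1536) / 2)) = J * (Real.exp (-1536) * Real.exp 1536) := by
      ring
    rw [h9, hE, mul_one] at h8
    exact h8
  exact h3.trans h7

lemma EO_pos {V : Type*} [Fintype V] [DecidableEq V] (G : SimpleGraph V) [DecidableRel G.Adj]
    (o : V → V → Bool) (h1 : ∀ u w : V, o u w = true → G.Adj u w)
    (h2 : ∀ u w : V, G.Adj u w → (o u w = true ↔ o w u = false))
    (h3 : ∀ x : V, (Finset.univ.filter (fun w => o x w = true)).card =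
                    (Finset.univ.filter (fun w => o w x = true)).card) : 0 < EO V G := by
  unfold EO
  rw [Finset.card_pos]
  exact ⟨o, Finset.mem_filter.mpr ⟨Finset.mem_univ _, h1, h2, h3⟩⟩

/-- Regular tournaments exist. -/
lemma EO_top_pos (k : ℕ) : 0 < EO (Fin (2 * k + 1)) ⊤ := by
  apply EO_pos _ (fun u w => decide (0 < (w - u).val ∧ (w - u).val ≤ k))
  · intro u w h
    rw [decide_eq_true_iff] at h
    rw [SimpleGraph.top_adj]
    rintro rfl
    rw [sub_self] at h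
    exact absurd h.1 (by simp)
  · intro u w h
    rw [SimpleGraph.top_adj] at h
    rw [decide_eq_true_iff, decide_eq_false_iff_not]
    have h1 : u - w = -(w - u) := by abel
    have h2 : w - u ≠ 0 := sub_ne_zero.mpr (Ne.symm h)
    rw [h1]
    generalize w - u = a at h2
    have h3 : (-a).val = (2 * k + 1) - a.val := by
      rw [Fin.val_neg, if_neg h2]
    have h4 : a.val ≠ 0 := by
      intro h5
      exact h2 (Fin.ext h5)
    have h5 := a.isLt
    rw [h3]
    omega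
  · intro x
    apply Finset.card_equiv (Equiv.subLeft (x + x))
    intro w
    simp only [Finset.mem_filter, Finset.mem_univ, true_and, Equiv.subLeft_apply]
    have : x - (x + x - w) = w - x := by abel
    rw [this]

lemma wt_le_one (x : Fin n → ZMod m) : wt x ≤ 1 := by
  unfold wt
  rw [Real.exp_le_one_iff]
  have : 0 ≤ Tq x := Finset.sum_nonneg fun _ _ => sq_nonneg _
  linarith

lemma avR_const {X : Type*} [Fintype X] [Nonempty X] (c : ℝ) : avR (fun _ : X => c) = c := by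
  unfold avR
  rw [Finset.sum_const, Finset.card_univ, nsmul_eq_mul, ← mul_assoc]
  have : (Fintype.card X : ℝ) ≠ 0 := by exact_mod_cast Fintype.card_ne_zero
  rw [inv_mul_cancel₀ this, one_mul]

lemma small_case (n₀ k : ℕ) (hn : 2 * k + 1 ≤ n₀) (m : ℕ) [NeZero m] (hm : 2 * k < m) :
    (NQ m (2 * k + 1) : ℝ) ≤ (2:ℝ) ^ ((n₀:ℝ) ^ 2) * PK m (2 * k + 1) := by
  have h1 : (NQ m (2 * k + 1) : ℝ) ≤ 1 := by
    refine (NQ_le m (2 * k + 1)).trans ?_
    refine (avR_mono (g := fun _ => 1) (fun x => wt_le_one x)).trans ?_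
    rw [avR_const]
  have h2 := PK_eq (m := m) hm
  have h3 : (1:ℝ) ≤ EO (Fin (2 * k + 1)) ⊤ := by exact_mod_cast EO_top_pos k
  rw [← h2] at h3
  have h4 : 0 ≤ PK m (2 * k + 1) := by
    by_contra hneg
    push Not at hneg
    have : PK m (2 * k + 1) * (2:ℝ) ^ (((2 * k : ℕ):ℝ) * (((2 * k : ℕ):ℝ) + 1) / 2) ≤ 0 :=
      mul_nonpos_of_nonpos_of_nonneg hneg.le (by positivity)
    linarith
  have h5 : (2:ℝ) ^ (((2 * k : ℕ):ℝ) * (((2 * k : ℕ):ℝ) + 1) / 2) ≤ (2:ℝ) ^ ((n₀:ℝ) ^ 2) := by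
    apply Real.rpow_le_rpow_of_exponent_le (by norm_num)
    have h6 : ((2 * k : ℕ):ℝ) + 1 ≤ n₀ := by exact_mod_cast hn
    have h7 : (0:ℝ) ≤ ((2 * k : ℕ):ℝ) := by positivity
    nlinarith
  refine h1.trans (h3.trans ?_)
  rw [mul_comm]
  exact mul_le_mul_of_nonneg_right h5 h4

/-- The comparison of the clique functional with the number of regular tournaments. -/
theorem compare : ∃ C : ℝ, 0 < C ∧ ∀ k : ℕ, ∃ M : ℕ, ∀ m : ℕ, M ≤ m → ∀ [NeZero m],
    (NQ m (2 * k + 1) : ℝ) ≤ C * PK m (2 * k + 1) := by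
  obtain ⟨n₀, hn₀⟩ := large_case
  refine ⟨max (2 * Real.exp 1536) ((2:ℝ) ^ ((n₀:ℝ) ^ 2)), ?_, fun k => ?_⟩
  · exact lt_of_lt_of_le (by positivity) (le_max_left _ _)
  obtain ⟨M, hM⟩ := doublingQ (2 * ((2 * k + 1 : ℕ) : ℝ)) (by positivity)
  refine ⟨max M (2 * k + 1), fun m hm _ => ?_⟩
  have hm1 : M ≤ m := le_trans (le_max_left _ _) hm
  have hm2 : 2 * k < m := by
    have := le_trans (le_max_right _ _) hm
    omega
  have hPK : 0 ≤ PK m (2 * k + 1) := by
    have h2 := PK_eq (m := m) hm2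
    have h3 : (1:ℝ) ≤ EO (Fin (2 * k + 1)) ⊤ := by exact_mod_cast EO_top_pos k
    rw [← h2] at h3
    by_contra hneg
    push Not at hneg
    have : PK m (2 * k + 1) * (2:ℝ) ^ (((2 * k : ℕ):ℝ) * (((2 * k : ℕ):ℝ) + 1) / 2) ≤ 0 :=
      mul_nonpos_of_nonpos_of_nonneg hneg.le (by positivity)
    linarith
  by_cases hcase : n₀ ≤ 2 * k + 1
  · have h := hn₀ (2 * k + 1) hcase ⟨k, rfl⟩ m (fun u hu => hM m hm1 u hu)
    exact h.trans (mul_le_mul_of_nonneg_right (le_max_left _ _) hPK)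
  · push Not at hcase
    exact (small_case n₀ k hcase.le m hm2).trans
      (mul_le_mul_of_nonneg_right (le_max_right _ _) hPK)

end Pool.Agent.MP_a3e05c_co
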