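import Pool.Agent.Lib.MP_a3e05c_co.Kernel

set_option autoImplicit false

/-! The doubling estimate for discrete von Mises weights. -/

namespace Pool.Agent.MP_a3e05c_co

open MeasureTheory intervalIntegral Finset
open scoped Real

/-- Riemann sums of Lipschitz functions. -/
lemma riemann {H : ℝ → ℝ} {L : ℝ} (hL0 : 0 ≤ L) (hL : ∀ x y, |H x - H y| ≤ L * |x - y|) {m : ℕ}
    (hm : 0 < m) :
    |(m:ℝ)⁻¹ * ∑ j ∈ Finset.range m, H ((j:ℝ) / m) - ∫ y in (0:ℝ)..1, H y| ≤ L / m := by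
  have hc : Continuous H := by
    have : LipschitzWith ⟨L, hL0⟩ H := LipschitzWith.of_dist_le_mul (fun x y => by
      rw [Real.dist_eq, Real.dist_eq]; exact hL x y)
    exact this.continuous
  have hmR : (0:ℝ) < m := by exact_mod_cast hm
  have h1 : ∫ y in (0:ℝ)..1, H y =
      ∑ j ∈ Finset.range m, ∫ y in ((j:ℝ)/m)..(((j+1:ℕ):ℝ)/m), H y := by
    rw [intervalIntegral.sum_integral_adjacent_intervals (a := fun k : ℕ => (k:ℝ)/m)
      (fun k _ => hc.intervalIntegrable _ _)]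
    simp [hmR.ne']
  have h2 : ∀ j ∈ Finset.range m,
      |(m:ℝ)⁻¹ * H ((j:ℝ)/m) - ∫ y in ((j:ℝ)/m)..(((j+1:ℕ):ℝ)/m), H y| ≤ L / m * (m:ℝ)⁻¹ := by
    intro j _
    have hdiff : ((j+1:ℕ):ℝ)/m - (j:ℝ)/m = (m:ℝ)⁻¹ := by
      push_cast; field_simp; ring
    have hle : (j:ℝ)/m ≤ ((j+1:ℕ):ℝ)/m := by
      have := inv_pos.mpr hmR
      linarith
    have e : (m:ℝ)⁻¹ * H ((j:ℝ)/m) = ∫ _y in ((j:ℝ)/m)..(((j+1:ℕ):ℝ)/m), H ((j:ℝ)/m) := by
      rw [intervalIntegral.integral_const, hdiff, smul_eq_mul]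
    rw [e, ← intervalIntegral.integral_sub (intervalIntegrable_const) (hc.intervalIntegrable _ _)]
    have h3 : ∀ y ∈ Set.uIoc ((j:ℝ)/m) (((j+1:ℕ):ℝ)/m), ‖H ((j:ℝ)/m) - H y‖ ≤ L / m := by
      intro y hy
      rw [Set.uIoc_of_le hle] at hy
      rw [Real.norm_eq_abs]
      refine (hL _ _).trans ?_
      rw [div_eq_mul_inv L]
      apply mul_le_mul_of_nonneg_left _ hL0
      rw [abs_le]
      constructor
      · linarith [hy.1, hy.2]
      · linarith [hy.1, hy.2, inv_pos.mpr hmR]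
    have h4 := intervalIntegral.norm_integral_le_of_norm_le_const h3
    rw [hdiff, abs_of_pos (inv_pos.mpr hmR)] at h4
    exact h4
  rw [h1, Finset.mul_sum, ← Finset.sum_sub_distrib]
  refine (Finset.abs_sum_le_sum_abs _ _).trans ((Finset.sum_le_sum h2).trans (le_of_eq ?_))
  rw [Finset.sum_const, Finset.card_range, nsmul_eq_mul]
  field_simp

/-- The von Mises weight. -/
noncomputable def Ex (l φ : ℝ) : ℝ := Real.exp (-(l * (1 - Real.cos φ)))

lemma Ex_periodic (l : ℝ) : Function.Periodic (Ex l) (2 * π) := by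
  intro φ
  unfold Ex
  rw [Real.cos_add_two_pi]

lemma Ex_continuous (l : ℝ) : Continuous (Ex l) := by
  unfold Ex
  fun_prop

lemma Ex_nonneg (l φ : ℝ) : 0 ≤ Ex l φ := (Real.exp_pos _).le

lemma doubling_integral {l : ℝ} (hl : 0 ≤ l) :
    ∫ φ in (-π)..π, Ex l φ ≤ 2 * ∫ φ in (-π)..π, Ex (2 * l) φ := by
  have h1 : ∫ φ in (-π)..π, Ex l φ ≤ ∫ φ in (-π)..π, Ex (2 * l) (φ / 2) := by
    apply intervalIntegral.integral_mono_on (by linarith [Real.pi_pos])
    · exact (Ex_continuous l).intervalIntegrable _ _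
    · apply Continuous.intervalIntegrable
      have := Ex_continuous (2 * l)
      fun_prop
    · intro φ hφ
      unfold Ex
      apply Real.exp_le_exp.mpr
      have hc : 0 ≤ Real.cos (φ / 2) := by
        apply Real.cos_nonneg_of_neg_pi_div_two_le_of_le
        · linarith [hφ.1]
        · linarith [hφ.2]
      have h2 : Real.cos φ = 2 * Real.cos (φ / 2) ^ 2 - 1 := by
        rw [← Real.cos_two_mul]
        congr 1
        ring
      rw [h2]
      have h3 := Real.cos_le_one (φ / 2)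
      nlinarith [mul_nonneg hl (mul_nonneg hc (sub_nonneg.mpr h3))]
  rw [intervalIntegral.integral_comp_div _ (two_ne_zero), smul_eq_mul] at h1
  refine h1.trans ?_
  apply mul_le_mul_of_nonneg_left _ (by norm_num)
  apply intervalIntegral.integral_mono_interval
  · linarith [Real.pi_pos]
  · linarith [Real.pi_pos]
  · linarith [Real.pi_pos]
  · exact Filter.Eventually.of_forall (fun φ => Ex_nonneg _ φ)
  · exact (Ex_continuous _).intervalIntegrable _ _

lemma abs_exp_sub_exp_le {a b : ℝ} (ha : 0 ≤ a) (hb : 0 ≤ b) :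
    |Real.exp (-a) - Real.exp (-b)| ≤ |a - b| := by
  wlog hab : a ≤ b generalizing a b with H
  · rw [abs_sub_comm, abs_sub_comm a b]
    exact H hb ha (le_of_not_ge hab)
  · have h1 : Real.exp (-b) ≤ Real.exp (-a) := Real.exp_le_exp.mpr (by linarith)
    rw [abs_of_nonneg (by linarith), abs_of_nonpos (by linarith)]
    have h2 : Real.exp (-b) = Real.exp (-a) * Real.exp (a - b) := by
      rw [← Real.exp_add]; congr 1; ring
    have h3 := Real.add_one_le_exp (a - b)
    have h4 : Real.exp (-a) ≤ 1 := by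
      rw [Real.exp_le_one_iff]; linarith
    have h5 := Real.exp_pos (-a)
    rw [h2]
    nlinarith

lemma Ex_lipschitz {l : ℝ} (hl : 0 ≤ l) (x y : ℝ) : |Ex l x - Ex l y| ≤ l * |x - y| := by
  unfold Ex
  have h1 : 0 ≤ l * (1 - Real.cos x) := mul_nonneg hl (by linarith [Real.cos_le_one x])
  have h2 : 0 ≤ l * (1 - Real.cos y) := mul_nonneg hl (by linarith [Real.cos_le_one y])
  refine (abs_exp_sub_exp_le h1 h2).trans ?_
  have h3 : l * (1 - Real.cos x) - l * (1 - Real.cos y) = l * (Real.cos y - Real.cos x) := by ring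
  rw [h3, abs_mul, abs_of_nonneg hl, abs_sub_comm]
  exact mul_le_mul_of_nonneg_left (Real.abs_cos_sub_cos_le x y) hl

/-- The mean of the von Mises weight over `m` equally spaced points (covering the circle
twice). -/
noncomputable def rs (m : ℕ) (l ψ : ℝ) : ℝ :=
  (m:ℝ)⁻¹ * ∑ j ∈ Finset.range m, Ex l (4 * π * ((j:ℝ) / m) - ψ)

lemma rs_close {l : ℝ} (hl : 0 ≤ l) (ψ : ℝ) {m : ℕ} (hm : 0 < m) :
    |rs m l ψ - (2 * π)⁻¹ * ∫ φ in (-π)..π, Ex l φ| ≤ 4 * π * l / m := by
  have h1 := riemann (H := fun y => Ex l (4 * π * y - ψ)) (L := 4 * π * l)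
    (by positivity) (fun x y => by
      refine (Ex_lipschitz hl _ _).trans (le_of_eq ?_)
      have : 4 * π * x - ψ - (4 * π * y - ψ) = 4 * π * (x - y) := by ring
      rw [this, abs_mul, abs_of_pos (by positivity : (0:ℝ) < 4 * π)]
      ring) hm
  have h2 : ∫ y in (0:ℝ)..1, Ex l (4 * π * y - ψ) = (2 * π)⁻¹ * ∫ φ in (-π)..π, Ex l φ := by
    rw [intervalIntegral.integral_comp_mul_sub (fun y => Ex l y)
      (by positivity : (4 * π : ℝ) ≠ 0), smul_eq_mul]
    have h3 := Function.Periodic.intervalIntegral_add_zsmul_eq (Ex_periodic l) 2 (-ψ)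
      (fun _ _ => (Ex_continuous l).intervalIntegrable _ _)
    have h4 := Function.Periodic.intervalIntegral_add_eq (Ex_periodic l) (-ψ) (-π)
    have e1 : 4 * π * 0 - ψ = -ψ := by ring
    have e2 : 4 * π * 1 - ψ = -ψ + (2 : ℤ) • (2 * π) := by
      rw [zsmul_eq_mul]; push_cast; ring
    have e3 : -π + 2 * π = π := by ring
    rw [e1, e2, h3, h4, e3, zsmul_eq_mul]
    push_cast
    have := Real.pi_ne_zero
    field_simp
    ring
  rw [h2] at h1
  exact h1

lemma integral_Ex_ge {l : ℝ} (hl : 0 ≤ l) :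
    Real.exp (-(2 * l)) ≤ (2 * π)⁻¹ * ∫ φ in (-π)..π, Ex l φ := by
  have h1 : ∫ _φ in (-π)..π, Real.exp (-(2 * l)) ≤ ∫ φ in (-π)..π, Ex l φ := by
    apply intervalIntegral.integral_mono_on (by linarith [Real.pi_pos])
    · exact intervalIntegrable_const
    · exact (Ex_continuous l).intervalIntegrable _ _
    · intro φ _
      unfold Ex
      apply Real.exp_le_exp.mpr
      nlinarith [Real.neg_one_le_cos φ]
  rw [intervalIntegral.integral_const, smul_eq_mul] at h1
  have h2 := Real.pi_pos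
  have h3 : Real.exp (-(2 * l)) = (2 * π)⁻¹ * ((π - -π) * Real.exp (-(2 * l))) := by
    field_simp
    ring
  rw [h3]
  exact mul_le_mul_of_nonneg_left h1 (by positivity)

/-- The doubling estimate for Riemann sums. -/
lemma rs_doubling (R : ℝ) (hR : 0 ≤ R) : ∃ M : ℕ, ∀ m : ℕ, M ≤ m → 0 < m → ∀ l : ℝ, 0 ≤ l → l ≤ R →
    ∀ ψ : ℝ, rs m l ψ ≤ 3 * rs m (2 * l) ψ := by
  obtain ⟨M, hM⟩ := exists_nat_ge (28 * π * R * Real.exp (4 * R))
  refine ⟨M, fun m hm hm0 l hl hlR ψ => ?_⟩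
  have hmR : (0:ℝ) < m := by exact_mod_cast hm0
  have h1 := rs_close hl ψ hm0
  have h2 := rs_close (by positivity : 0 ≤ 2 * l) ψ hm0
  have h3 := doubling_integral hl
  have h4 := integral_Ex_ge (by positivity : 0 ≤ 2 * l)
  rw [abs_le] at h1 h2
  have h5 : (28 * π * l) / m ≤ Real.exp (-(2 * (2 * l))) := by
    rw [div_le_iff₀ hmR]
    have h6 : (M : ℝ) ≤ m := by exact_mod_cast hm
    have h7 : 28 * π * l ≤ Real.exp (-(2 * (2 * l))) * (28 * π * R * Real.exp (4 * R)) := by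
      have h8 : 1 ≤ Real.exp (-(2 * (2 * l))) * Real.exp (4 * R) := by
        rw [← Real.exp_add]
        apply Real.one_le_exp
        linarith
      have h9 : 28 * π * l ≤ 28 * π * R := by
        apply mul_le_mul_of_nonneg_left hlR (by positivity)
      have h10 : 0 ≤ 28 * π * R := by positivity
      nlinarith
    exact h7.trans (mul_le_mul_of_nonneg_left (hM.trans h6) (Real.exp_pos _).le)
  set I1 := ∫ φ in (-π)..π, Ex l φ with hI1
  set I2 := ∫ φ in (-π)..π, Ex (2 * l) φ with hI2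
  have h6 : (2 * π)⁻¹ * I1 ≤ 2 * ((2 * π)⁻¹ * I2) := by
    have : (2 * π)⁻¹ * I1 ≤ (2 * π)⁻¹ * (2 * I2) :=
      mul_le_mul_of_nonneg_left h3 (by positivity)
    linarith
  have e1 : 4 * π * (2 * l) / m = 2 * (4 * π * l / m) := by ring
  have e2 : 28 * π * l / m = 7 * (4 * π * l / m) := by ring
  rw [e1] at h2
  rw [e2] at h5
  linarith [h1.2, h2.1]

end Pool.Agent.MP_a3e05c_co
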