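import Pool.Agent.Lib.MP_a3e05c_co.Field

set_option autoImplicit false

/-! The free energy comparison. -/

namespace Pool.Agent.MP_a3e05c_co

open scoped NNReal Real
open Finset

variable {m : ℕ} [NeZero m] {n : ℕ}

/-- The doubling hypothesis. -/
def Dbl (m : ℕ) [NeZero m] (n : ℕ) : Prop :=
  ∀ u : ℂ, ‖u‖ ≤ 2 * n → avR (fun t : ZMod m => Real.exp (-(Q u t / 8))) ≤
      3 * avR (fun t : ZMod m => Real.exp (-(Q u t / 4)))

lemma Q_ks {c : ℝ} (hc : 0 ≤ c) (a t : ZMod m) :
    Q (((2 * c : ℝ) : ℂ) * sq a) t = 4 * c * ks a t ^ 2 := by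
  unfold Q
  rw [norm_mul, norm_sqc, Complex.norm_real, Real.norm_of_nonneg (by positivity), map_mul,
    Complex.conj_ofReal, mul_left_comm, Complex.re_ofReal_mul, re_sq_mul, ks_sq_comm]
  ring

lemma doubling_coord (hD : Dbl m n) {c : ℝ} (hc0 : 0 ≤ c) (hc : c ≤ n) (a : ZMod m) :
    avR (fun t : ZMod m => Real.exp (-(c / 2 * ks a t ^ 2))) ≤
      3 * avR (fun t : ZMod m => Real.exp (-(c * ks a t ^ 2))) := by
  have h := hD (((2 * c : ℝ) : ℂ) * sq a) (by
    rw [norm_mul, norm_sqc, Complex.norm_real, Real.norm_of_nonneg (by positivity)]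
    linarith)
  simp_rw [Q_ks hc0] at h
  have e1 : ∀ t : ZMod m, Real.exp (-(4 * c * ks a t ^ 2 / 8)) =
      Real.exp (-(c / 2 * ks a t ^ 2)) := by
    intro t; congr 1; ring
  have e2 : ∀ t : ZMod m, Real.exp (-(4 * c * ks a t ^ 2 / 4)) =
      Real.exp (-(c * ks a t ^ 2)) := by
    intro t; congr 1; ring
  simp_rw [e1, e2] at h
  exact h

/-- The energy of the star at `i`. -/
noncomputable def Ri (i : Fin n) (x : Fin n → ZMod m) : ℝ := ∑ j, ks (x i) (x j) ^ 2

lemma avR_nonneg {X : Type*} [Fintype X] {f : X → ℝ} (h : ∀ x, 0 ≤ f x) : 0 ≤ avR f := by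
  unfold avR
  exact mul_nonneg (by positivity) (Finset.sum_nonneg fun x _ => h x)

/-- Interpolating weights. -/
noncomputable def Ph (c : ℝ) (i : Fin n) (A : Finset (Fin n)) (x : Fin n → ZMod m) : ℝ :=
  Real.exp (-(∑ j, (if j ∈ A then c / 2 else c) * ks (x i) (x j) ^ 2))

lemma Ph_step (hD : Dbl m n) {c : ℝ} (hc0 : 0 ≤ c) (hc : c ≤ n) (i : Fin n)
    {A : Finset (Fin n)} {j : Fin n} (hj : j ∉ A) :
    avR (Ph (m := m) c i (insert j A)) ≤ 3 * avR (Ph (m := m) c i A) := by
  by_cases hij : j = i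
  · have h1 : Ph (m := m) c i (insert j A) = Ph c i A := by
      funext x
      unfold Ph
      congr 2
      apply Finset.sum_congr rfl
      intro k _
      by_cases hk : k = j
      · rw [hk, hij, ks_self]
        ring
      · have : (k ∈ insert j A) ↔ k ∈ A := by
          rw [Finset.mem_insert]
          exact ⟨fun h => h.resolve_left hk, Or.inr⟩
        simp only [this]
    rw [h1]
    have := avR_nonneg (f := Ph (m := m) c i A) (fun x => (Real.exp_pos _).le)
    linarith
  · rw [← avR_mul_left]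
    apply cond_le j
    intro x
    set C := Real.exp (-(∑ k ∈ Finset.univ.erase j,
      (if k ∈ A then c / 2 else c) * ks (x i) (x k) ^ 2)) with hC
    have hC0 : 0 < C := Real.exp_pos _
    have hij' : i ≠ j := fun h => hij h.symm
    have h1 : ∀ t : ZMod m, Ph c i (insert j A) (Function.update x j t) =
        C * Real.exp (-(c / 2 * ks (x i) t ^ 2)) := by
      intro t
      unfold Ph
      rw [hC, ← Real.exp_add, ← Finset.add_sum_erase Finset.univ _ (Finset.mem_univ j)]
      congr 1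
      rw [if_pos (Finset.mem_insert_self j A), Function.update_of_ne hij', Function.update_self]
      have : ∑ k ∈ Finset.univ.erase j, (if k ∈ insert j A then c / 2 else c) *
          ks (x i) (Function.update x j t k) ^ 2 =
          ∑ k ∈ Finset.univ.erase j, (if k ∈ A then c / 2 else c) * ks (x i) (x k) ^ 2 := by
        apply Finset.sum_congr rfl
        intro k hk
        have hkj := Finset.ne_of_mem_erase hk
        rw [Function.update_of_ne hkj]
        have : (k ∈ insert j A) ↔ k ∈ A := by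
          rw [Finset.mem_insert]
          exact ⟨fun h => h.resolve_left hkj, Or.inr⟩
        simp only [this]
      rw [this]
      ring
    have h2 : ∀ t : ZMod m, 3 * Ph c i A (Function.update x j t) =
        (3 * C) * Real.exp (-(c * ks (x i) t ^ 2)) := by
      intro t
      unfold Ph
      rw [mul_assoc, hC, ← Real.exp_add, ← Finset.add_sum_erase Finset.univ _ (Finset.mem_univ j)]
      congr 2
      rw [if_neg hj, Function.update_of_ne hij', Function.update_self]
      have : ∑ k ∈ Finset.univ.erase j, (if k ∈ A then c / 2 else c) *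
          ks (x i) (Function.update x j t k) ^ 2 =
          ∑ k ∈ Finset.univ.erase j, (if k ∈ A then c / 2 else c) * ks (x i) (x k) ^ 2 := by
        apply Finset.sum_congr rfl
        intro k hk
        rw [Function.update_of_ne (Finset.ne_of_mem_erase hk)]
      rw [this]
      ring
    simp_rw [h1, h2]
    rw [avR_mul_left, avR_mul_left]
    have h3 := doubling_coord hD hc0 hc (x i)
    nlinarith

lemma Ph_le (hD : Dbl m n) {c : ℝ} (hc0 : 0 ≤ c) (hc : c ≤ n) (i : Fin n)
    (A : Finset (Fin n)) :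
    avR (Ph (m := m) c i A) ≤ 3 ^ A.card * avR (Ph (m := m) c i ∅) := by
  induction A using Finset.induction_on with
  | empty => simp
  | insert j A hj ih =>
    rw [Finset.card_insert_of_notMem hj, pow_succ]
    have := Ph_step hD hc0 hc i hj
    linarith

lemma star_doubling (hD : Dbl m n) {c : ℝ} (hc0 : 0 ≤ c) (hc : c ≤ n) (i : Fin n) :
    avR (fun x : Fin n → ZMod m => Real.exp (-(c / 2 * Ri i x))) ≤
      3 ^ n * avR (fun x : Fin n → ZMod m => Real.exp (-(c * Ri i x))) := by
  have h := Ph_le hD hc0 hc i Finset.univ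
  rw [Finset.card_univ, Fintype.card_fin] at h
  have e1 : Ph (m := m) c i Finset.univ = fun x => Real.exp (-(c / 2 * Ri i x)) := by
    funext x
    unfold Ph Ri
    simp only [Finset.mem_univ, if_true, Finset.mul_sum]
  have e2 : Ph (m := m) c i ∅ = fun x => Real.exp (-(c * Ri i x)) := by
    funext x
    unfold Ph Ri
    simp only [Finset.notMem_empty, if_false, Finset.mul_sum]
  rw [e1, e2] at h
  exact h

lemma ks_tri (a b c : ZMod m) : ks a c ^ 2 ≤ 2 * (ks b a ^ 2 + ks b c ^ 2) := by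
  have h1 : ks a c = ks a b * kc b c + kc a b * ks b c := by
    unfold ks kc
    have : a - c = (a - b) + (b - c) := by ring
    rw [this, ch_add, Complex.mul_im]
    ring
  have h2 := kc_sq_add_ks_sq b c
  have h3 := kc_sq_add_ks_sq a b
  rw [h1, ks_sq_comm b a]
  have h4 : (ks a b * kc b c) ^ 2 ≤ ks a b ^ 2 := by
    rw [mul_pow]
    nlinarith [sq_nonneg (ks a b), sq_nonneg (ks b c)]
  have h5 : (kc a b * ks b c) ^ 2 ≤ ks b c ^ 2 := by
    rw [mul_pow]
    nlinarith [sq_nonneg (ks a b), sq_nonneg (ks b c)]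
  nlinarith [sq_nonneg (ks a b * kc b c - kc a b * ks b c)]

lemma Tq_le (i : Fin n) (x : Fin n → ZMod m) : Tq x ≤ 2 * n * Ri i x := by
  have h1 := two_Tq x
  have h2 : ∑ j, ∑ k, ks (x j) (x k) ^ 2 ≤
      ∑ j, ∑ k, 2 * (ks (x i) (x j) ^ 2 + ks (x i) (x k) ^ 2) :=
    Finset.sum_le_sum fun j _ => Finset.sum_le_sum fun k _ => ks_tri _ _ _
  have h3 : ∑ j, ∑ k, 2 * (ks (x i) (x j) ^ 2 + ks (x i) (x k) ^ 2) = 4 * n * Ri i x := by
    simp_rw [← Finset.mul_sum, Finset.sum_add_distrib, Finset.sum_const, Finset.card_univ,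
      Fintype.card_fin, nsmul_eq_mul, ← Finset.mul_sum]
    unfold Ri
    ring
  rw [h3, h1] at h2
  linarith

lemma Ri_nonneg (i : Fin n) (x : Fin n → ZMod m) : 0 ≤ Ri i x :=
  Finset.sum_nonneg fun _ _ => sq_nonneg _

lemma exists_small_star (hn : 0 < n) (x : Fin n → ZMod m) : ∃ i, n * Ri i x ≤ 2 * Tq x := by
  haveI : Nonempty (Fin n) := ⟨⟨0, hn⟩⟩
  obtain ⟨i, -, hi⟩ := Finset.exists_min_image (Finset.univ : Finset (Fin n))
    (fun i => Ri i x) Finset.univ_nonempty
  refine ⟨i, ?_⟩
  rw [← two_Tq]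
  have : ∑ _j : Fin n, Ri i x ≤ ∑ j, Ri j x := Finset.sum_le_sum fun j hj => hi j hj
  rw [Finset.sum_const, Finset.card_univ, Fintype.card_fin, nsmul_eq_mul] at this
  exact this

lemma avR_sum {X ι : Type*} [Fintype X] (s : Finset ι) (f : ι → X → ℝ) :
    avR (fun x => ∑ i ∈ s, f i x) = ∑ i ∈ s, avR (f i) := by
  unfold avR
  rw [Finset.sum_comm, Finset.mul_sum]

/-- The free energy comparison. -/
theorem free_energy (hD : Dbl m n) (hn : 0 < n) :
    avR (fun x : Fin n → ZMod m => Real.exp (-(Tq x / 4))) ≤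
      n * 27 ^ n * avR (fun x : Fin n → ZMod m => wt x) := by
  have h1 : ∀ x : Fin n → ZMod m, Real.exp (-(Tq x / 4)) ≤
      ∑ i : Fin n, Real.exp (-((n:ℝ) / 2 / 2 / 2 * Ri i x)) := by
    intro x
    obtain ⟨i, hi⟩ := exists_small_star hn x
    refine le_trans ?_ (Finset.single_le_sum (f := fun i : Fin n =>
      Real.exp (-((n:ℝ) / 2 / 2 / 2 * Ri i x))) (fun j _ => (Real.exp_pos _).le)
      (Finset.mem_univ i))
    apply Real.exp_le_exp.mpr
    linarith
  have h2 : ∀ i : Fin n, avR (fun x : Fin n → ZMod m =>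
      Real.exp (-((n:ℝ) / 2 / 2 / 2 * Ri i x))) ≤ 27 ^ n * avR (fun x : Fin n → ZMod m => wt x) := by
    intro i
    have hn0 : (0:ℝ) ≤ n := by positivity
    have a1 := star_doubling hD (c := (n:ℝ) / 2 / 2) (by positivity) (by linarith) i
    have a2 := star_doubling hD (c := (n:ℝ) / 2) (by positivity) (by linarith) i
    have a3 := star_doubling hD (c := (n:ℝ)) (by positivity) le_rfl i
    have a4 : avR (fun x : Fin n → ZMod m => Real.exp (-((n:ℝ) * Ri i x))) ≤
        avR (fun x : Fin n → ZMod m => wt x) := by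
      apply avR_mono
      intro x
      unfold wt
      apply Real.exp_le_exp.mpr
      have := Tq_le i x
      linarith
    have h3 : (0:ℝ) < 3 ^ n := by positivity
    have e : (27:ℝ) ^ n = 3 ^ n * (3 ^ n * 3 ^ n) := by
      rw [← mul_pow, ← mul_pow]; norm_num
    rw [e]
    calc avR (fun x : Fin n → ZMod m => Real.exp (-((n:ℝ) / 2 / 2 / 2 * Ri i x))) ≤ _ := a1
      _ ≤ 3 ^ n * (3 ^ n * (3 ^ n * avR (fun x : Fin n → ZMod m => wt x))) := by
        apply mul_le_mul_of_nonneg_left _ h3.le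
        refine a2.trans ?_
        apply mul_le_mul_of_nonneg_left _ h3.le
        refine a3.trans ?_
        exact mul_le_mul_of_nonneg_left a4 h3.le
      _ = _ := by ring
  refine (avR_mono h1).trans ?_
  rw [avR_sum]
  refine (Finset.sum_le_sum fun i _ => h2 i).trans (le_of_eq ?_)
  rw [Finset.sum_const, Finset.card_univ, Fintype.card_fin, nsmul_eq_mul]
  ring

end Pool.Agent.MP_a3e05c_co
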