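import Pool.Agent.Lib.MP_a3e05c_co.Expand

set_option autoImplicit false

/-! The average of the product of the cosine kernel over the edges counts Eulerian
orientations. -/

namespace Pool.Agent.MP_a3e05c_co

open scoped NNReal
open Finset

variable {m : ℕ} [NeZero m]

lemma sum_ch_mul (k : ZMod m) : ∑ t : ZMod m, ch (t * k) = if k = 0 then (m : ℂ) else 0 := by
  have h := AddChar.sum_mulShift k (ZMod.isPrimitive_stdAddChar m)
  rw [ZMod.card] at h
  unfold ch
  rw [h]
  split_ifs <;> simp

lemma ch_nsmul (n : ℕ) (a : ZMod m) : ch (a * (n : ZMod m)) = ch a ^ n := by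
  unfold ch
  rw [mul_comm, ← nsmul_eq_mul, AddChar.map_nsmul_eq_pow]

lemma two_kc (a b : ZMod m) : ((2 * kc a b : ℝ) : ℂ) = ch (a - b) + ch (b - a) := by
  have h : b - a = -(a - b) := by ring
  rw [h, ch_neg, Complex.add_conj]
  rfl

variable {V : Type*} [Fintype V] [DecidableEq V]

/-- The out-degree of an orientation. -/
def outd (o : V → V → Bool) (u : V) : ℕ := (Finset.univ.filter (fun w => o u w = true)).card

/-- The in-degree of an orientation. -/
def ind (o : V → V → Bool) (u : V) : ℕ := (Finset.univ.filter (fun w => o w u = true)).card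

lemma prod_ch (o : V → V → Bool) (x : V → ZMod m) :
    ∏ u, ∏ v, (if o u v = true then ch (x u - x v) else (1 : ℂ)) =
      ∏ u, ch (x u * ((outd o u : ZMod m) - (ind o u : ZMod m))) := by
  have h1 : ∀ u v, (if o u v = true then ch (x u - x v) else (1:ℂ)) =
      (if o u v = true then ch (x u) else 1) * (if o u v = true then ch (- x v) else 1) := by
    intro u v
    split_ifs
    · rw [sub_eq_add_neg, ch_add]
    · rw [mul_one]
  simp_rw [h1, Finset.prod_mul_distrib]
  rw [Finset.prod_comm (f := fun u v => if o u v = true then ch (- x v) else 1)]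
  rw [← Finset.prod_mul_distrib]
  apply Finset.prod_congr rfl
  intro u _
  rw [← Finset.prod_filter, ← Finset.prod_filter, Finset.prod_const, Finset.prod_const,
    ← ch_nsmul, ← ch_nsmul, ← ch_add]
  congr 1
  unfold outd ind
  ring

lemma sum_prod_ch (k : V → ZMod m) :
    ∑ x : V → ZMod m, ∏ u, ch (x u * k u) =
      if ∀ u, k u = 0 then (m : ℂ) ^ Fintype.card V else 0 := by
  have h1 := Finset.prod_univ_sum (fun _ : V => (Finset.univ : Finset (ZMod m)))
    (fun u t => ch (t * k u))
  rw [Fintype.piFinset_univ] at h1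
  rw [← h1]
  simp_rw [sum_ch_mul]
  split_ifs with h
  · simp only [h, if_true, Finset.prod_const, Finset.card_univ]
  · push Not at h
    obtain ⟨u, hu⟩ := h
    apply Finset.prod_eq_zero (Finset.mem_univ u)
    rw [if_neg hu]

lemma outd_le {G : SimpleGraph V} [DecidableRel G.Adj] {o : V → V → Bool} (ho : o ∈ Ors G)
    (u : V) : outd o u ≤ G.degree u := by
  unfold Ors at ho
  rw [Finset.mem_filter] at ho
  unfold outd
  rw [← SimpleGraph.card_neighborFinset_eq_degree]
  apply Finset.card_le_card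
  intro w hw
  rw [SimpleGraph.mem_neighborFinset]
  exact ho.2.1 u w (Finset.mem_filter.mp hw).2

lemma ind_le {G : SimpleGraph V} [DecidableRel G.Adj] {o : V → V → Bool} (ho : o ∈ Ors G)
    (u : V) : ind o u ≤ G.degree u := by
  unfold Ors at ho
  rw [Finset.mem_filter] at ho
  unfold ind
  rw [← SimpleGraph.card_neighborFinset_eq_degree]
  apply Finset.card_le_card
  intro w hw
  rw [SimpleGraph.mem_neighborFinset]
  exact (ho.2.1 w u (Finset.mem_filter.mp hw).2).symm

lemma cast_sub_eq_zero_iff {a b : ℕ} (ha : a < m) (hb : b < m) :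
    ((a : ZMod m) - (b : ZMod m) = 0) ↔ a = b := by
  rw [sub_eq_zero, ZMod.natCast_eq_natCast_iff', Nat.mod_eq_of_lt ha, Nat.mod_eq_of_lt hb]

variable [LinearOrder V] (G : SimpleGraph V) [DecidableRel G.Adj]

lemma sum_prod_two_kc (hm : ∀ v, G.degree v < m) :
    ∑ x : V → ZMod m, ∏ p ∈ Edg G, ((2 * kc (x p.1) (x p.2) : ℝ) : ℂ) =
      (m : ℂ) ^ Fintype.card V * (EO V G : ℂ) := by
  have h1 : ∀ x : V → ZMod m, ∏ p ∈ Edg G, ((2 * kc (x p.1) (x p.2) : ℝ) : ℂ) =
      ∑ o ∈ Ors G, ∏ u, ch (x u * ((outd o u : ZMod m) - (ind o u : ZMod m))) := by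
    intro x
    simp_rw [two_kc]
    rw [expand (fun u v => ch (x u - x v))]
    apply Finset.sum_congr rfl
    intro o _
    exact prod_ch o x
  simp_rw [h1]
  rw [Finset.sum_comm]
  have h2 : ∀ o ∈ Ors G, ∑ x : V → ZMod m, ∏ u, ch (x u * ((outd o u : ZMod m) - (ind o u : ZMod m)))
      = if ∀ u, outd o u = ind o u then (m : ℂ) ^ Fintype.card V else 0 := by
    intro o ho
    rw [sum_prod_ch (fun u => (outd o u : ZMod m) - (ind o u : ZMod m))]
    have : (∀ u, (outd o u : ZMod m) - (ind o u : ZMod m) = 0) ↔ ∀ u, outd o u = ind o u := by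
      apply forall_congr'
      intro u
      exact cast_sub_eq_zero_iff (lt_of_le_of_lt (outd_le ho u) (hm u))
        (lt_of_le_of_lt (ind_le ho u) (hm u))
    simp only [this]
  rw [Finset.sum_congr rfl h2, ← Finset.sum_filter, Finset.sum_const, nsmul_eq_mul, mul_comm,
    EO_eq]
  rfl

/-- The average of the product of cosines is the normalised number of Eulerian
orientations. -/
theorem avR_prod_kc (hm : ∀ v, G.degree v < m) :
    avR (fun x : V → ZMod m => ∏ p ∈ Edg G, kc (x p.1) (x p.2)) =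
      (EO V G : ℝ) / 2 ^ (Edg G).card := by
  have h := sum_prod_two_kc G hm
  have h2 : ∑ x : V → ZMod m, ∏ p ∈ Edg G, (2 * kc (x p.1) (x p.2)) =
      (m : ℝ) ^ Fintype.card V * (EO V G : ℝ) := by
    exact_mod_cast h
  simp_rw [Finset.prod_mul_distrib, Finset.prod_const] at h2
  rw [← Finset.mul_sum] at h2
  unfold avR
  rw [Fintype.card_fun, ZMod.card]
  push_cast
  have hm0 : (m : ℝ) ≠ 0 := by exact_mod_cast NeZero.ne m
  have h3 : ((m : ℝ) ^ Fintype.card V) ≠ 0 := pow_ne_zero _ hm0
  have h4 : ((2 : ℝ) ^ (Edg G).card) ≠ 0 := pow_ne_zero _ two_ne_zero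
  field_simp
  rw [← h2]
  ring

end Pool.Agent.MP_a3e05c_co
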