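import Pool.Agent.Lib.MP_a3e05c_co.Kernel

set_option autoImplicit false

/-! Eulerian orientations as averages of products of cosines. -/

namespace Pool.Agent.MP_a3e05c_co

open scoped NNReal
open Finset

/-- The number of Eulerian orientations of `G`. -/
def EO (V : Type*) [Fintype V] [DecidableEq V] (G : SimpleGraph V) [DecidableRel G.Adj] : ℕ :=
  ((Finset.univ : Finset (V → V → Bool)).filter (fun o =>
          (∀ u w : V, o u w = true → G.Adj u w) ∧
          (∀ u w : V, G.Adj u w → (o u w = true ↔ o w u = false)) ∧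
          (∀ x : V, (Finset.univ.filter (fun w => o x w = true)).card =
                    (Finset.univ.filter (fun w => o w x = true)).card))).card

variable {V : Type*} [Fintype V] [DecidableEq V]

/-- The orientations of `G`. -/
def Ors (G : SimpleGraph V) [DecidableRel G.Adj] : Finset (V → V → Bool) :=
  (Finset.univ : Finset (V → V → Bool)).filter (fun o =>
          (∀ u w : V, o u w = true → G.Adj u w) ∧
          (∀ u w : V, G.Adj u w → (o u w = true ↔ o w u = false)))

lemma EO_eq (G : SimpleGraph V) [DecidableRel G.Adj] :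
    EO V G = ((Ors G).filter (fun o =>
      ∀ x : V, (Finset.univ.filter (fun w => o x w = true)).card =
                    (Finset.univ.filter (fun w => o w x = true)).card)).card := by
  unfold EO Ors
  rw [Finset.filter_filter]
  congr 1
  apply Finset.filter_congr
  intro o _
  rw [and_assoc]

variable [LinearOrder V]

/-- The edges of `G`, as ordered pairs. -/
def Edg (G : SimpleGraph V) [DecidableRel G.Adj] : Finset (V × V) :=
  Finset.univ.filter (fun p : V × V => p.1 < p.2 ∧ G.Adj p.1 p.2)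

variable {G : SimpleGraph V} [DecidableRel G.Adj]

lemma mem_Edg {p : V × V} : p ∈ Edg G ↔ p.1 < p.2 ∧ G.Adj p.1 p.2 := by
  unfold Edg
  simp

/-- The orientation given by a set of edges. -/
def orOf (G : SimpleGraph V) [DecidableRel G.Adj] (t : Finset (V × V)) (u v : V) : Bool :=
  decide ((u, v) ∈ t ∨ ((v, u) ∈ Edg G ∧ (v, u) ∉ t))

lemma orOf_true {t : Finset (V × V)} {u v : V} :
    orOf G t u v = true ↔ ((u, v) ∈ t ∨ ((v, u) ∈ Edg G ∧ (v, u) ∉ t)) := by
  unfold orOf
  simp

lemma orOf_mem {t : Finset (V × V)} (ht : t ⊆ Edg G) : orOf G t ∈ Ors G := by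
  unfold Ors
  rw [Finset.mem_filter]
  refine ⟨Finset.mem_univ _, ?_, ?_⟩
  · intro u w h
    rcases orOf_true.mp h with h | h
    · exact (mem_Edg.mp (ht h)).2
    · exact (mem_Edg.mp h.1).2.symm
  · intro u w h
    rw [← Bool.not_eq_true, orOf_true, orOf_true]
    have hne : u ≠ w := h.ne
    rcases lt_or_gt_of_ne hne with hlt | hlt
    · have h1 : (u, w) ∈ Edg G := mem_Edg.mpr ⟨hlt, h⟩
      have h2 : (w, u) ∉ Edg G := fun h' => lt_asymm hlt (mem_Edg.mp h').1
      have h3 : (w, u) ∉ t := fun h' => h2 (ht h')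
      tauto
    · have h1 : (w, u) ∈ Edg G := mem_Edg.mpr ⟨hlt, h.symm⟩
      have h2 : (u, w) ∉ Edg G := fun h' => lt_asymm hlt (mem_Edg.mp h').1
      have h3 : (u, w) ∉ t := fun h' => h2 (ht h')
      tauto

lemma filter_orOf {t : Finset (V × V)} (ht : t ⊆ Edg G) :
    (Edg G).filter (fun p => orOf G t p.1 p.2 = true) = t := by
  ext ⟨u, v⟩
  rw [Finset.mem_filter, orOf_true]
  constructor
  · rintro ⟨h1, h2 | h2⟩
    · exact h2
    · exact absurd (mem_Edg.mp h1).1 (lt_asymm (mem_Edg.mp h2.1).1)
  · intro h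
    exact ⟨ht h, Or.inl h⟩

lemma orOf_filter {o : V → V → Bool} (ho : o ∈ Ors G) :
    orOf G ((Edg G).filter (fun p => o p.1 p.2 = true)) = o := by
  unfold Ors at ho
  rw [Finset.mem_filter] at ho
  obtain ⟨-, h1, h2⟩ := ho
  funext u v
  rw [Bool.eq_iff_iff, orOf_true]
  simp only [Finset.mem_filter, mem_Edg]
  by_cases hadj : G.Adj u v
  · have hv := h2 u v hadj
    have hadj' := hadj.symm
    have hne : u ≠ v := hadj.ne
    rw [← Bool.not_eq_true] at hv
    rcases lt_or_gt_of_ne hne with hlt | hlt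
    · have := lt_asymm hlt
      tauto
    · have := lt_asymm hlt
      tauto
  · have hadj' : ¬ G.Adj v u := fun h => hadj h.symm
    have := h1 u v
    tauto

variable {m : ℕ} [NeZero m]

lemma prod_orOf {t : Finset (V × V)} (ht : t ⊆ Edg G) (F : V → V → ℂ) :
    (∏ p ∈ t, F p.1 p.2) * ∏ p ∈ Edg G \ t, F p.2 p.1 =
      ∏ u, ∏ v, if orOf G t u v = true then F u v else 1 := by
  have h1 : ∏ u, ∏ v, (if orOf G t u v = true then F u v else 1) =
      ∏ p ∈ (Finset.univ : Finset (V × V)).filter (fun p => orOf G t p.1 p.2 = true),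
        F p.1 p.2 := by
    rw [Finset.prod_filter, ← Finset.univ_product_univ, Finset.prod_product]
  have h2 : (Finset.univ : Finset (V × V)).filter (fun p => orOf G t p.1 p.2 = true) =
      t ∪ (Edg G \ t).image Prod.swap := by
    ext ⟨u, v⟩
    simp only [Finset.mem_filter, Finset.mem_univ, true_and, orOf_true, Finset.mem_union,
      Finset.mem_image, Finset.mem_sdiff, Prod.exists, Prod.swap_prod_mk, Prod.mk.injEq]
    constructor
    · rintro (h | h)
      · exact Or.inl h
      · exact Or.inr ⟨v, u, h, rfl, rfl⟩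
    · rintro (h | ⟨a, b, h, rfl, rfl⟩)
      · exact Or.inl h
      · exact Or.inr h
  have h3 : Disjoint t ((Edg G \ t).image Prod.swap) := by
    rw [Finset.disjoint_left]
    rintro ⟨u, v⟩ h h'
    simp only [Finset.mem_image, Finset.mem_sdiff, Prod.exists, Prod.swap_prod_mk,
      Prod.mk.injEq] at h'
    obtain ⟨a, b, ⟨h4, -⟩, rfl, rfl⟩ := h'
    exact lt_asymm (mem_Edg.mp h4).1 (mem_Edg.mp (ht h)).1
  rw [h1, h2, Finset.prod_union h3, Finset.prod_image (fun a _ b _ hab => Prod.swap_injective hab)]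
  rfl

lemma expand (F : V → V → ℂ) :
    ∏ p ∈ Edg G, (F p.1 p.2 + F p.2 p.1) =
      ∑ o ∈ Ors G, ∏ u, ∏ v, if o u v = true then F u v else 1 := by
  rw [Finset.prod_add]
  refine Finset.sum_bij' (fun t _ => orOf G t)
    (fun o _ => (Edg G).filter (fun p => o p.1 p.2 = true)) ?_ ?_ ?_ ?_ ?_
  · intro t ht
    exact orOf_mem (Finset.mem_powerset.mp ht)
  · intro o _
    exact Finset.mem_powerset.mpr (Finset.filter_subset _ _)
  · intro t ht
    exact filter_orOf (Finset.mem_powerset.mp ht)
  · intro o ho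
    exact orOf_filter ho
  · intro t ht
    exact prod_orOf (Finset.mem_powerset.mp ht) F

end Pool.Agent.MP_a3e05c_co
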