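import Pool.Agent.Lib.MP_a3e05c_co.Bound
import Pool.Agent.Lib.MP_a3e05c_co.Doubling

set_option autoImplicit false

/-! The mean field representation and conditional moments. -/

namespace Pool.Agent.MP_a3e05c_co

open scoped NNReal Real
open Finset

variable {m : ℕ} [NeZero m]

/-- The squared character. -/
noncomputable def sq (t : ZMod m) : ℂ := ch t ^ 2

lemma norm_ch (t : ZMod m) : ‖ch t‖ = 1 := by
  unfold ch
  rw [ZMod.stdAddChar_apply]
  exact Circle.norm_coe _

lemma norm_sqc (t : ZMod m) : ‖sq t‖ = 1 := by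
  unfold sq
  rw [norm_pow, norm_ch, one_pow]

/-- The exponent of the discrete von Mises weight. -/
noncomputable def Q (u : ℂ) (t : ZMod m) : ℝ := ‖u‖ - (sq t * (starRingEnd ℂ) u).re

lemma Q_nonneg (u : ℂ) (t : ZMod m) : 0 ≤ Q u t := by
  unfold Q
  have h := Complex.re_le_norm (sq t * (starRingEnd ℂ) u)
  rw [norm_mul, norm_sqc, one_mul, Complex.norm_conj] at h
  linarith

lemma Q_eq (u : ℂ) (t : ZMod m) :
    Q u t = ‖u‖ * (1 - Real.cos (4 * π * ((t.val:ℝ)/m) - u.arg)) := by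
  have h1 : sq t = Complex.exp ((4 * π * ((t.val:ℝ)/m) : ℝ) * Complex.I) := by
    unfold sq ch
    rw [ZMod.stdAddChar_apply, ZMod.toCircle_apply, ← Complex.exp_nat_mul]
    congr 1
    push_cast
    ring
  have h2 : (starRingEnd ℂ) u = ‖u‖ * Complex.exp ((-u.arg : ℝ) * Complex.I) := by
    conv_lhs => rw [← Complex.norm_mul_exp_arg_mul_I u]
    rw [map_mul, Complex.conj_ofReal, ← Complex.exp_conj, map_mul, Complex.conj_ofReal,
      Complex.conj_I]
    congr 2
    push_cast
    ring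
  have h3 : sq t * (starRingEnd ℂ) u =
      ‖u‖ * Complex.exp ((4 * π * ((t.val:ℝ)/m) - u.arg : ℝ) * Complex.I) := by
    rw [h1, h2, mul_left_comm, ← Complex.exp_add]
    congr 2
    push_cast
    ring
  unfold Q
  rw [h3, Complex.re_ofReal_mul, Complex.exp_ofReal_mul_I_re]
  ring

lemma avR_val (F : ℕ → ℝ) :
    avR (fun t : ZMod m => F t.val) = (m:ℝ)⁻¹ * ∑ j ∈ Finset.range m, F j := by
  unfold avR
  rw [ZMod.card]
  congr 1
  obtain ⟨k, rfl⟩ : ∃ k, m = k + 1 := ⟨m - 1, by have := NeZero.pos m; omega⟩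
  exact Fin.sum_univ_eq_sum_range F (k + 1)

lemma avR_exp_Q (c : ℝ) (u : ℂ) :
    avR (fun t : ZMod m => Real.exp (-(c * Q u t))) = rs m (c * ‖u‖) u.arg := by
  unfold rs
  rw [← avR_val (fun j => Ex (c * ‖u‖) (4 * π * ((j:ℝ) / m) - u.arg))]
  apply avR_congr
  intro t
  unfold Ex
  rw [Q_eq]
  congr 2
  ring

/-- The doubling estimate. -/
theorem doublingQ (R : ℝ) (hR : 0 ≤ R) : ∃ M : ℕ, ∀ m : ℕ, M ≤ m → ∀ [NeZero m], ∀ u : ℂ, ‖u‖ ≤ R →
    avR (fun t : ZMod m => Real.exp (-(Q u t / 8))) ≤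
      3 * avR (fun t : ZMod m => Real.exp (-(Q u t / 4))) := by
  obtain ⟨M, hM⟩ := rs_doubling (R / 8) (by positivity)
  refine ⟨M, fun m hm _ u hu => ?_⟩
  have h := hM m hm (NeZero.pos m) (‖u‖ / 8) (by positivity) (by linarith) u.arg
  have e1 : avR (fun t : ZMod m => Real.exp (-(Q u t / 8))) = rs m (‖u‖ / 8) u.arg := by
    rw [show ‖u‖ / 8 = (1 / 8 : ℝ) * ‖u‖ by ring, ← avR_exp_Q]
    apply avR_congr
    intro t
    congr 2
    ring
  have e2 : avR (fun t : ZMod m => Real.exp (-(Q u t / 4))) = rs m (2 * (‖u‖ / 8)) u.arg := by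
    rw [show 2 * (‖u‖ / 8) = (1 / 4 : ℝ) * ‖u‖ by ring, ← avR_exp_Q]
    apply avR_congr
    intro t
    congr 2
    ring
  rw [e1, e2]
  exact h

lemma avR_update {X V : Type*} [Fintype X] [Nonempty X] [Fintype V] [DecidableEq V] (w : V)
    (Φ : (V → X) → ℝ) :
    avR Φ = avR fun x : V → X => avR fun t : X => Φ (Function.update x w t) := by
  classical
  have hinv : Function.Involutive (fun p : (V → X) × X => (Function.update p.1 w p.2, p.1 w)) := by
    intro p
    simp
  have h1 : ∑ p : (V → X) × X, Φ (Function.update p.1 w p.2) = ∑ p : (V → X) × X, Φ p.1 := by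
    have := Equiv.sum_comp hinv.toPerm (fun p : (V → X) × X => Φ p.1)
    simpa using this
  rw [Fintype.sum_prod_type, Fintype.sum_prod_type_right] at h1
  simp only [Finset.sum_const, Finset.card_univ, nsmul_eq_mul] at h1
  have hX : (Fintype.card X : ℝ) ≠ 0 := by exact_mod_cast Fintype.card_ne_zero
  unfold avR
  rw [← Finset.mul_sum, h1]
  field_simp

lemma cond_le {X V : Type*} [Fintype X] [Nonempty X] [Fintype V] [DecidableEq V] (w : V)
    {f g : (V → X) → ℝ}
    (h : ∀ x, avR (fun t : X => f (Function.update x w t)) ≤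
      avR (fun t : X => g (Function.update x w t))) : avR f ≤ avR g := by
  rw [avR_update w f, avR_update w g]
  exact avR_mono h

variable {n : ℕ}

/-- The total field. -/
noncomputable def Sg (x : Fin n → ZMod m) : ℂ := ∑ i, sq (x i)

/-- The field at `i` of the other coordinates. -/
noncomputable def Ug (i : Fin n) (x : Fin n → ZMod m) : ℂ := ∑ j ∈ Finset.univ.erase i, sq (x j)

/-- The quadratic energy. -/
noncomputable def Tq (x : Fin n → ZMod m) : ℝ :=
  ∑ p ∈ Edg (⊤ : SimpleGraph (Fin n)), ks (x p.1) (x p.2) ^ 2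

/-- Splitting a double product over the unordered pairs. -/
lemma prod_pairs {M : Type*} [CommMonoid M] (F : Fin n → Fin n → M) :
    ∏ i, ∏ j, (if i = j then 1 else F i j) =
      ∏ p ∈ Edg (⊤ : SimpleGraph (Fin n)), (F p.1 p.2 * F p.2 p.1) := by
  have h1 : ∀ i j : Fin n, (if i = j then 1 else F i j) =
      (if i < j then F i j else 1) * (if j < i then F i j else 1) := by
    intro i j
    rcases lt_trichotomy i j with h | h | h
    · rw [if_neg h.ne, if_pos h, if_neg (lt_asymm h), mul_one]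
    · rw [if_pos h, if_neg (by rw [h]; exact lt_irrefl _), if_neg (by rw [h]; exact lt_irrefl _),
        mul_one]
    · rw [if_neg h.ne', if_neg (lt_asymm h), if_pos h, one_mul]
  have h2 : ∀ g : Fin n → Fin n → M, ∏ p ∈ Edg (⊤ : SimpleGraph (Fin n)), g p.1 p.2 =
      ∏ i, ∏ j, if i < j then g i j else 1 := by
    intro g
    unfold Edg
    rw [Finset.prod_filter, ← Finset.univ_product_univ, Finset.prod_product]
    apply Finset.prod_congr rfl
    intro i _
    apply Finset.prod_congr rfl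
    intro j _
    have : (i < j ∧ (⊤ : SimpleGraph (Fin n)).Adj i j) ↔ i < j := by
      rw [SimpleGraph.top_adj]
      exact ⟨fun h => h.1, fun h => ⟨h, h.ne⟩⟩
    simp only [this]
  simp_rw [h1, Finset.prod_mul_distrib]
  rw [h2, h2 (fun i j => F j i), Finset.prod_comm (f := fun i j => if j < i then F i j else 1)]

/-- Splitting a double sum over the unordered pairs. -/
lemma sum_pairs (F : Fin n → Fin n → ℝ) :
    ∑ i, ∑ j, (if i = j then 0 else F i j) =
      ∑ p ∈ Edg (⊤ : SimpleGraph (Fin n)), (F p.1 p.2 + F p.2 p.1) := by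
  have h1 : ∀ i j : Fin n, (if i = j then 0 else F i j) =
      (if i < j then F i j else 0) + (if j < i then F i j else 0) := by
    intro i j
    rcases lt_trichotomy i j with h | h | h
    · rw [if_neg h.ne, if_pos h, if_neg (lt_asymm h), add_zero]
    · rw [if_pos h, if_neg (by rw [h]; exact lt_irrefl _), if_neg (by rw [h]; exact lt_irrefl _),
        add_zero]
    · rw [if_neg h.ne', if_neg (lt_asymm h), if_pos h, zero_add]
  have h2 : ∀ g : Fin n → Fin n → ℝ, ∑ p ∈ Edg (⊤ : SimpleGraph (Fin n)), g p.1 p.2 =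
      ∑ i, ∑ j, if i < j then g i j else 0 := by
    intro g
    unfold Edg
    rw [Finset.sum_filter, ← Finset.univ_product_univ, Finset.sum_product]
    apply Finset.sum_congr rfl
    intro i _
    apply Finset.sum_congr rfl
    intro j _
    have : (i < j ∧ (⊤ : SimpleGraph (Fin n)).Adj i j) ↔ i < j := by
      rw [SimpleGraph.top_adj]
      exact ⟨fun h => h.1, fun h => ⟨h, h.ne⟩⟩
    simp only [this]
  simp_rw [h1, Finset.sum_add_distrib]
  rw [h2, h2 (fun i j => F j i), Finset.sum_comm (f := fun i j => if j < i then F i j else 0)]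

lemma ks_self (a : ZMod m) : ks a a = 0 := by
  rw [ks_eq]; ring

lemma ks_sq_comm (a b : ZMod m) : ks a b ^ 2 = ks b a ^ 2 := by
  rw [ks_eq, ks_eq]; ring

lemma re_sq_mul (a b : ZMod m) : (sq a * (starRingEnd ℂ) (sq b)).re = 1 - 2 * ks a b ^ 2 := by
  have h1 : sq a * (starRingEnd ℂ) (sq b) = ch (a - b) ^ 2 := by
    unfold sq
    rw [map_pow, ← mul_pow, ch_sub]
  have h2 := kc_sq_add_ks_sq a b
  rw [h1]
  have h3 : (ch (a - b) ^ 2).re = (ch (a - b)).re ^ 2 - (ch (a - b)).im ^ 2 := by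
    rw [pow_two, Complex.mul_re]; ring
  rw [h3]
  unfold kc at h2
  unfold ks at h2 ⊢
  linarith

lemma two_Tq (x : Fin n → ZMod m) : ∑ i, ∑ j, ks (x i) (x j) ^ 2 = 2 * Tq x := by
  have h1 : ∑ i, ∑ j, ks (x i) (x j) ^ 2 =
      ∑ i, ∑ j, (if i = j then 0 else ks (x i) (x j) ^ 2) := by
    apply Finset.sum_congr rfl
    intro i _
    apply Finset.sum_congr rfl
    intro j _
    split_ifs with h
    · rw [h, ks_self]; ring
    · rfl
  rw [h1, sum_pairs]
  unfold Tq
  rw [Finset.mul_sum]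
  apply Finset.sum_congr rfl
  intro p _
  rw [ks_sq_comm (x p.2) (x p.1)]
  ring

lemma norm_sq_eq_re (z : ℂ) : ‖z‖ ^ 2 = (z * (starRingEnd ℂ) z).re := by
  rw [Complex.mul_conj, Complex.ofReal_re, Complex.normSq_eq_norm_sq]

lemma four_Tq (x : Fin n → ZMod m) : 4 * Tq x = (n : ℝ) ^ 2 - ‖Sg x‖ ^ 2 := by
  have h1 : ‖Sg x‖ ^ 2 = ∑ i, ∑ j, (1 - 2 * ks (x i) (x j) ^ 2) := by
    rw [norm_sq_eq_re]
    unfold Sg
    rw [map_sum, Finset.sum_mul_sum, Complex.re_sum]
    apply Finset.sum_congr rfl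
    intro i _
    rw [Complex.re_sum]
    apply Finset.sum_congr rfl
    intro j _
    exact re_sq_mul _ _
  rw [h1]
  simp_rw [Finset.sum_sub_distrib, ← Finset.mul_sum]
  rw [two_Tq]
  simp only [Finset.sum_const, Finset.card_univ, Fintype.card_fin, nsmul_eq_mul]
  ring

/-- The Gaussian type weight. -/
noncomputable def wt (x : Fin n → ZMod m) : ℝ := Real.exp (-(Tq x / 2))

lemma wt_pos (x : Fin n → ZMod m) : 0 < wt x := Real.exp_pos _

lemma Sg_eq (i : Fin n) (x : Fin n → ZMod m) : Sg x = sq (x i) + Ug i x := by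
  unfold Sg Ug
  rw [Finset.add_sum_erase Finset.univ (fun j => sq (x j)) (Finset.mem_univ i)]

lemma norm_Sg_sq (i : Fin n) (x : Fin n → ZMod m) :
    ‖Sg x‖ ^ 2 = 1 + ‖Ug i x‖ ^ 2 + 2 * (sq (x i) * (starRingEnd ℂ) (Ug i x)).re := by
  rw [Sg_eq i, norm_sq_eq_re, norm_sq_eq_re (Ug i x)]
  have h := norm_sq_eq_re (sq (x i))
  rw [norm_sqc, one_pow] at h
  rw [map_add, mul_add, add_mul, add_mul, Complex.add_re, Complex.add_re, Complex.add_re, ← h]
  have h2 : (Ug i x * (starRingEnd ℂ) (sq (x i))).re =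
      (sq (x i) * (starRingEnd ℂ) (Ug i x)).re := by
    rw [← Complex.conj_re (Ug i x * (starRingEnd ℂ) (sq (x i))), map_mul, Complex.conj_conj,
      mul_comm]
  rw [h2]
  ring

lemma Ug_update (i : Fin n) (x : Fin n → ZMod m) (t : ZMod m) :
    Ug i (Function.update x i t) = Ug i x := by
  unfold Ug
  apply Finset.sum_congr rfl
  intro j hj
  rw [Function.update_of_ne (Finset.ne_of_mem_erase hj)]

lemma wt_eq (i : Fin n) (x : Fin n → ZMod m) :
    wt x = Real.exp (-((n:ℝ) ^ 2 - ‖Ug i x‖ ^ 2 - 1) / 8 + ‖Ug i x‖ / 4) *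
      Real.exp (-(Q (Ug i x) (x i) / 4)) := by
  unfold wt Q
  rw [← Real.exp_add]
  congr 1
  have h1 := four_Tq x
  rw [norm_Sg_sq i] at h1
  linarith

lemma norm_Ug_le (i : Fin n) (x : Fin n → ZMod m) : ‖Ug i x‖ ≤ n := by
  unfold Ug
  refine (norm_sum_le _ _).trans ?_
  simp_rw [norm_sqc]
  rw [Finset.sum_const, nsmul_eq_mul, mul_one]
  have : (Finset.univ.erase i).card ≤ n := by
    refine (Finset.card_le_card (Finset.erase_subset _ _)).trans ?_
    rw [Finset.card_univ, Fintype.card_fin]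
  exact_mod_cast this

/-- The conditional second moment. -/
lemma moment (hD : ∀ u : ℂ, ‖u‖ ≤ 2 * n → avR (fun t : ZMod m => Real.exp (-(Q u t / 8))) ≤
      3 * avR (fun t : ZMod m => Real.exp (-(Q u t / 4)))) (i : Fin n) :
    avR (fun x : Fin n → ZMod m => wt x * Q (Ug i x) (x i) ^ 2) ≤
      384 * avR (fun x : Fin n → ZMod m => wt x) := by
  rw [← avR_mul_left]
  apply cond_le i
  intro x
  set u := Ug i x with hu
  set c := Real.exp (-((n:ℝ) ^ 2 - ‖u‖ ^ 2 - 1) / 8 + ‖u‖ / 4) with hc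
  have hc0 : 0 < c := Real.exp_pos _
  have hw : ∀ t : ZMod m, wt (Function.update x i t) = c * Real.exp (-(Q u t / 4)) := by
    intro t
    rw [wt_eq i, Ug_update, Function.update_self]
  have hq : ∀ t : ZMod m, Q (Ug i (Function.update x i t)) (Function.update x i t i) = Q u t := by
    intro t
    rw [Ug_update, Function.update_self]
  simp_rw [hw, hq]
  have h1 : ∀ t : ZMod m, c * Real.exp (-(Q u t / 4)) * Q u t ^ 2 ≤
      (c * 128) * Real.exp (-(Q u t / 8)) := by
    intro t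
    have hQ := Q_nonneg u t
    have h2 := Real.quadratic_le_exp_of_nonneg (by positivity : 0 ≤ Q u t / 8)
    have h3 : Real.exp (-(Q u t / 8)) = Real.exp (-(Q u t / 4)) * Real.exp (Q u t / 8) := by
      rw [← Real.exp_add]; congr 1; ring
    rw [h3]
    have h4 : Q u t ^ 2 ≤ 128 * Real.exp (Q u t / 8) := by nlinarith
    have h5 : 0 < Real.exp (-(Q u t / 4)) := Real.exp_pos _
    calc c * Real.exp (-(Q u t / 4)) * Q u t ^ 2
        ≤ c * Real.exp (-(Q u t / 4)) * (128 * Real.exp (Q u t / 8)) :=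
          mul_le_mul_of_nonneg_left h4 (by positivity)
      _ = _ := by ring
  refine (avR_mono h1).trans ?_
  rw [avR_mul_left]
  have h6 : ∀ t : ZMod m, 384 * (c * Real.exp (-(Q u t / 4))) =
      (c * 128 * 3) * Real.exp (-(Q u t / 4)) := by intro t; ring
  simp_rw [h6]
  rw [avR_mul_left]
  have hun : ‖u‖ ≤ 2 * n := by
    have := norm_Ug_le i x
    have hn : (0:ℝ) ≤ n := by positivity
    rw [← hu] at this
    linarith
  have h7 := hD u hun
  have h8 : 0 < c * 128 := by positivity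
  nlinarith

end Pool.Agent.MP_a3e05c_co
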