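import Mathlib
set_option autoImplicit false
open Finset

namespace Pool.Agent.MPa3e05cA

variable {V : Type*} [DecidableEq V]

/-- `e_a - e_b`. -/
def dl (a b : V) : V → ℤ := Pi.single a 1 - Pi.single b 1

/-- adding one edge. -/
def opn (e : Sym2 V) (f : (V → ℤ) → ℕ) : (V → ℤ) → ℕ :=
  Sym2.lift ⟨fun a b => fun x => f (x + dl a b) + f (x + dl b a), by
    intro a b; funext x; exact add_comm _ _⟩ e

lemma opn_mk (a b : V) (f : (V → ℤ) → ℕ) (x : V → ℤ) :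
    opn s(a, b) f x = f (x + dl a b) + f (x + dl b a) := rfl

instance : LeftCommutative (opn (V := V)) := ⟨by
  intro e₁ e₂ f
  induction e₁ with | _ a b =>
  induction e₂ with | _ c d =>
  funext x
  simp only [opn_mk]
  have h1 : x + dl a b + dl c d = x + dl c d + dl a b := by abel
  have h2 : x + dl a b + dl d c = x + dl d c + dl a b := by abel
  have h3 : x + dl b a + dl c d = x + dl c d + dl b a := by abel
  have h4 : x + dl b a + dl d c = x + dl d c + dl b a := by abel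
  rw [h1, h2, h3, h4]; omega⟩

/-- number of orientations of the multigraph with divergence `-x`. -/
noncomputable def coef (L : Multiset (Sym2 V)) : (V → ℤ) → ℕ :=
  Multiset.foldr opn (fun x => by classical exact if x = 0 then 1 else 0) L

lemma coef_zero (x : V → ℤ) : coef (0 : Multiset (Sym2 V)) x = by classical exact if x = 0 then 1 else 0 := by
  simp [coef]

lemma coef_cons (a b : V) (L : Multiset (Sym2 V)) (x : V → ℤ) :
    coef (s(a, b) ::ₘ L) x = coef L (x + dl a b) + coef L (x + dl b a) := by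
  simp only [coef, Multiset.foldr_cons, opn_mk]

/-- number of Eulerian orientations of a multigraph given by the multiset of its edges. -/
noncomputable def eo (L : Multiset (Sym2 V)) : ℕ := coef L 0

/-- incidence number -/
def inc (v : V) (e : Sym2 V) : ℕ :=
  Sym2.lift ⟨fun a b => (if v = a then 1 else 0) + (if v = b then 1 else 0), by
    intro a b; exact add_comm _ _⟩ e

lemma inc_mk (v a b : V) : inc v s(a, b) = (if v = a then 1 else 0) + (if v = b then 1 else 0) := rfl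

def deg (v : V) (L : Multiset (Sym2 V)) : ℕ := (L.map (inc v)).sum

lemma deg_zero (v : V) : deg v (0 : Multiset (Sym2 V)) = 0 := by simp [deg]

lemma deg_cons (v a b : V) (L : Multiset (Sym2 V)) :
    deg v (s(a, b) ::ₘ L) = (if v = a then 1 else 0) + (if v = b then 1 else 0) + deg v L := by
  simp [deg, inc_mk]

lemma coef_eq_zero {v : V} {L : Multiset (Sym2 V)} (hL : deg v L = 0) (x : V → ℤ) (hx : x v ≠ 0) :
    coef L x = 0 := by
  induction L using Multiset.induction_on generalizing x with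
  | empty =>
    rw [coef_zero, if_neg]
    rintro rfl; exact hx rfl
  | cons e L ih =>
    induction e with | _ a b =>
    rw [deg_cons] at hL
    have ha : v ≠ a := by
      rintro rfl; simp at hL
    have hb : v ≠ b := by
      rintro rfl; simp at hL
    have hL' : deg v L = 0 := by omega
    rw [coef_cons, ih hL', ih hL']
    · simp [dl, ha, hb, hx]
    · simp [dl, ha, hb, hx]

/-- loop -/
lemma eo_loop (v : V) (L : Multiset (Sym2 V)) : eo (s(v, v) ::ₘ L) = 2 * eo L := by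
  unfold eo
  rw [coef_cons]
  have : dl v v = 0 := by simp [dl]
  rw [this]; simp; omega

lemma eo_two {v a b : V} {R : Multiset (Sym2 V)} (hR : deg v R = 0) (ha : a ≠ v) (hb : b ≠ v) :
    eo (s(v, a) ::ₘ s(v, b) ::ₘ R) = eo (s(a, b) ::ₘ R) := by
  unfold eo
  simp only [coef_cons]
  have h1 : coef R (0 + dl v a + dl v b) = 0 := coef_eq_zero hR _ (by simp [dl, ha.symm, hb.symm])
  have h2 : coef R (0 + dl a v + dl b v) = 0 := coef_eq_zero hR _ (by simp [dl, ha.symm, hb.symm])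
  have h3 : 0 + dl v a + dl b v = 0 + dl b a := by unfold dl; abel
  have h4 : 0 + dl a v + dl v b = 0 + dl a b := by unfold dl; abel
  rw [h1, h2, h3, h4]; omega


lemma eo_four {v a b c d : V} {R : Multiset (Sym2 V)} (hR : deg v R = 0)
    (ha : a ≠ v) (hb : b ≠ v) (hc : c ≠ v) (hd : d ≠ v) :
    2 * eo (s(v, a) ::ₘ s(v, b) ::ₘ s(v, c) ::ₘ s(v, d) ::ₘ R) =
      eo (s(a, b) ::ₘ s(c, d) ::ₘ R) + eo (s(a, c) ::ₘ s(b, d) ::ₘ R) +
        eo (s(a, d) ::ₘ s(b, c) ::ₘ R) := by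
  unfold eo
  simp only [coef_cons]
  have h1 : coef R (0 + dl v a + dl v b + dl v c + dl v d) = 0 := coef_eq_zero hR _ (by simp [dl, ha.symm, hb.symm, hc.symm, hd.symm])
  have h2 : coef R (0 + dl v a + dl v b + dl v c + dl d v) = 0 := coef_eq_zero hR _ (by simp [dl, ha.symm, hb.symm, hc.symm, hd.symm])
  have h3 : coef R (0 + dl v a + dl v b + dl c v + dl v d) = 0 := coef_eq_zero hR _ (by simp [dl, ha.symm, hb.symm, hc.symm, hd.symm])
  have h4 : 0 + dl v a + dl v b + dl c v + dl d v = 0 + dl c a + dl d b := by unfold dl; abel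
  have h5 : coef R (0 + dl v a + dl b v + dl v c + dl v d) = 0 := coef_eq_zero hR _ (by simp [dl, ha.symm, hb.symm, hc.symm, hd.symm])
  have h6 : 0 + dl v a + dl b v + dl v c + dl d v = 0 + dl b a + dl d c := by unfold dl; abel
  have h7 : 0 + dl v a + dl b v + dl c v + dl v d = 0 + dl b a + dl c d := by unfold dl; abel
  have h8 : coef R (0 + dl v a + dl b v + dl c v + dl d v) = 0 := coef_eq_zero hR _ (by simp [dl, ha.symm, hb.symm, hc.symm, hd.symm])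
  have h9 : coef R (0 + dl a v + dl v b + dl v c + dl v d) = 0 := coef_eq_zero hR _ (by simp [dl, ha.symm, hb.symm, hc.symm, hd.symm])
  have h10 : 0 + dl a v + dl v b + dl v c + dl d v = 0 + dl a b + dl d c := by unfold dl; abel
  have h11 : 0 + dl a v + dl v b + dl c v + dl v d = 0 + dl a b + dl c d := by unfold dl; abel
  have h12 : coef R (0 + dl a v + dl v b + dl c v + dl d v) = 0 := coef_eq_zero hR _ (by simp [dl, ha.symm, hb.symm, hc.symm, hd.symm])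
  have h13 : 0 + dl a v + dl b v + dl v c + dl v d = 0 + dl a c + dl b d := by unfold dl; abel
  have h14 : coef R (0 + dl a v + dl b v + dl v c + dl d v) = 0 := coef_eq_zero hR _ (by simp [dl, ha.symm, hb.symm, hc.symm, hd.symm])
  have h15 : coef R (0 + dl a v + dl b v + dl c v + dl v d) = 0 := coef_eq_zero hR _ (by simp [dl, ha.symm, hb.symm, hc.symm, hd.symm])
  have h16 : coef R (0 + dl a v + dl b v + dl c v + dl d v) = 0 := coef_eq_zero hR _ (by simp [dl, ha.symm, hb.symm, hc.symm, hd.symm])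
  have h22 : 0 + dl a c + dl d b = 0 + dl a b + dl d c := by unfold dl; abel
  have h23 : 0 + dl c a + dl b d = 0 + dl b a + dl c d := by unfold dl; abel
  have h25 : 0 + dl a d + dl b c = 0 + dl a c + dl b d := by unfold dl; abel
  have h26 : 0 + dl a d + dl c b = 0 + dl a b + dl c d := by unfold dl; abel
  have h27 : 0 + dl d a + dl b c = 0 + dl b a + dl d c := by unfold dl; abel
  have h28 : 0 + dl d a + dl c b = 0 + dl c a + dl d b := by unfold dl; abel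
  simp only [h1, h2, h3, h4, h5, h6, h7, h8, h9, h10, h11, h12, h13, h14, h15, h16, h22, h23, h25, h26, h27, h28]
  omega


lemma eo_double {u v b c d e : V} {R : Multiset (Sym2 V)}
    (huv : u ≠ v) (hb : b ≠ u) (hc : c ≠ u) (hd : d ≠ u) (he : e ≠ u)
    (hb' : b ≠ v) (hc' : c ≠ v) (hd' : d ≠ v) (he' : e ≠ v)
    (hu : deg u R = 0) (hv : deg v R = 0) :
    eo (s(u, v) ::ₘ s(u, v) ::ₘ s(u, b) ::ₘ s(u, c) ::ₘ s(v, d) ::ₘ s(v, e) ::ₘ R) =
      eo (s(v, b) ::ₘ s(v, c) ::ₘ s(v, d) ::ₘ s(v, e) ::ₘ R) +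
        eo (s(b, c) ::ₘ s(d, e) ::ₘ R) := by
  have hR : deg u (s(v, d) ::ₘ s(v, e) ::ₘ R) = 0 := by
    simp [deg_cons, huv, hd.symm, he.symm, hu]
  have h := eo_four (a := v) (b := v) (c := b) (d := c) hR huv.symm huv.symm hb hc
  rw [eo_loop] at h
  have h2 : s(b, c) ::ₘ s(v, d) ::ₘ s(v, e) ::ₘ R = s(v, d) ::ₘ s(v, e) ::ₘ s(b, c) ::ₘ R := by
    simp only [← Multiset.singleton_add]; abel
  have h3 : deg v (s(b, c) ::ₘ R) = 0 := by simp [deg_cons, hb'.symm, hc'.symm, hv]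
  rw [h2, eo_two h3 hd' he'] at h
  have h4 : s(v, c) ::ₘ s(v, b) ::ₘ s(v, d) ::ₘ s(v, e) ::ₘ R =
      s(v, b) ::ₘ s(v, c) ::ₘ s(v, d) ::ₘ s(v, e) ::ₘ R := by
    simp only [← Multiset.singleton_add]; abel
  have h5 : s(d, e) ::ₘ s(b, c) ::ₘ R = s(b, c) ::ₘ s(d, e) ::ₘ R := by
    simp only [← Multiset.singleton_add]; abel
  rw [h4, h5] at h
  omega

lemma eo_triple {u v a b : V} {R : Multiset (Sym2 V)}
    (huv : u ≠ v) (ha : a ≠ u) (hb : b ≠ u) (ha' : a ≠ v) (hb' : b ≠ v)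
    (hu : deg u R = 0) (hv : deg v R = 0) :
    eo (s(u, v) ::ₘ s(u, v) ::ₘ s(u, v) ::ₘ s(u, a) ::ₘ s(v, b) ::ₘ R) =
      3 * eo (s(a, b) ::ₘ R) := by
  have hR : deg u (s(v, b) ::ₘ R) = 0 := by
    simp [deg_cons, huv, hb.symm, hu]
  have h := eo_four (a := v) (b := v) (c := v) (d := a) hR huv.symm huv.symm huv.symm ha
  rw [eo_loop] at h
  have h4 : s(v, a) ::ₘ s(v, v) ::ₘ s(v, b) ::ₘ R =
      s(v, v) ::ₘ s(v, a) ::ₘ s(v, b) ::ₘ R := by
    simp only [← Multiset.singleton_add]; abel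
  rw [h4, eo_loop, eo_two hv ha' hb'] at h
  omega

lemma eo_quad {u v : V} {R : Multiset (Sym2 V)}
    (huv : u ≠ v) (hu : deg u R = 0) :
    eo (s(u, v) ::ₘ s(u, v) ::ₘ s(u, v) ::ₘ s(u, v) ::ₘ R) = 6 * eo R := by
  have h := eo_four (a := v) (b := v) (c := v) (d := v) hu huv.symm huv.symm huv.symm huv.symm
  rw [eo_loop, eo_loop] at h
  omega

/-- sum over the three pairings -/
noncomputable def T3 (a b c d : V) (R : Multiset (Sym2 V)) : ℕ :=
  eo (s(a, b) ::ₘ s(c, d) ::ₘ R) + eo (s(a, c) ::ₘ s(b, d) ::ₘ R) +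
        eo (s(a, d) ::ₘ s(b, c) ::ₘ R)

lemma eo_star {v a b c d : V} {R : Multiset (Sym2 V)} (hR : deg v R = 0)
    (ha : a ≠ v) (hb : b ≠ v) (hc : c ≠ v) (hd : d ≠ v) :
    2 * eo (s(v, a) ::ₘ s(v, b) ::ₘ s(v, c) ::ₘ s(v, d) ::ₘ R) = T3 a b c d R :=
  eo_four hR ha hb hc hd

/-- one of the three terms in the elimination of a `K₄` -/
lemma eo_K4_aux {p q r a b c d : V} {R : Multiset (Sym2 V)}
    (hpq : p ≠ q) (hpr : p ≠ r) (hqr : q ≠ r)
    (hap : a ≠ p) (haq : a ≠ q) (har : a ≠ r) (hbp : b ≠ p) (hbq : b ≠ q) (hbr : b ≠ r)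
    (hcp : c ≠ p) (hcq : c ≠ q) (hcr : c ≠ r) (hdp : d ≠ p) (hdq : d ≠ q) (hdr : d ≠ r)
    (hp : deg p R = 0) (hq : deg q R = 0) (hr : deg r R = 0) :
    eo (s(p, q) ::ₘ s(r, a) ::ₘ s(p, q) ::ₘ s(p, r) ::ₘ s(q, r) ::ₘ s(p, b) ::ₘ s(q, c) ::ₘ
      s(r, d) ::ₘ R) = T3 a b c d R + eo (s(a, d) ::ₘ s(b, c) ::ₘ R) := by
  have e1 : s(p, q) ::ₘ s(r, a) ::ₘ s(p, q) ::ₘ s(p, r) ::ₘ s(q, r) ::ₘ s(p, b) ::ₘ s(q, c) ::ₘ
      s(r, d) ::ₘ R = s(p, q) ::ₘ s(p, q) ::ₘ s(p, r) ::ₘ s(p, b) ::ₘ s(q, r) ::ₘ s(q, c) ::ₘ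
      (s(r, a) ::ₘ s(r, d) ::ₘ R) := by
    simp only [← Multiset.singleton_add]; abel
  have hp' : deg p (s(r, a) ::ₘ s(r, d) ::ₘ R) = 0 := by
    simp [deg_cons, hpr, hap.symm, hdp.symm, hp]
  have hq' : deg q (s(r, a) ::ₘ s(r, d) ::ₘ R) = 0 := by
    simp [deg_cons, hqr, haq.symm, hdq.symm, hq]
  rw [e1, eo_double hpq hpr.symm hbp hpr.symm hcp hqr.symm hbq hqr.symm hcq hp' hq']
  -- first term
  have e2 : s(q, r) ::ₘ s(q, b) ::ₘ s(q, r) ::ₘ s(q, c) ::ₘ (s(r, a) ::ₘ s(r, d) ::ₘ R) =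
      s(q, r) ::ₘ s(q, r) ::ₘ s(q, b) ::ₘ s(q, c) ::ₘ s(r, a) ::ₘ s(r, d) ::ₘ R := by
    simp only [← Multiset.singleton_add]; abel
  rw [e2, eo_double hqr hbq hcq haq hdq hbr hcr har hdr hq hr]
  have e3 : s(r, b) ::ₘ s(r, c) ::ₘ s(r, a) ::ₘ s(r, d) ::ₘ R =
      s(r, a) ::ₘ s(r, b) ::ₘ s(r, c) ::ₘ s(r, d) ::ₘ R := by
    simp only [← Multiset.singleton_add]; abel
  have e4 : s(b, c) ::ₘ s(a, d) ::ₘ R = s(a, d) ::ₘ s(b, c) ::ₘ R := by
    simp only [← Multiset.singleton_add]; abel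
  have e5 : s(r, b) ::ₘ s(r, c) ::ₘ (s(r, a) ::ₘ s(r, d) ::ₘ R) =
      s(r, a) ::ₘ s(r, b) ::ₘ s(r, c) ::ₘ s(r, d) ::ₘ R := by
    simp only [← Multiset.singleton_add]; abel
  have h := eo_star hr har hbr hcr hdr
  rw [e4, e5]
  omega

lemma T3_perm1 (a b c d : V) (R : Multiset (Sym2 V)) : T3 a b d c R = T3 a b c d R := by
  unfold T3
  rw [Sym2.eq_swap (a := d) (b := c)]
  omega

lemma T3_perm2 (a b c d : V) (R : Multiset (Sym2 V)) : T3 a c d b R = T3 a b c d R := by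
  unfold T3
  rw [Sym2.eq_swap (a := d) (b := b), Sym2.eq_swap (a := c) (b := b)]
  omega

lemma eo_K4 {p q r s a b c d : V} {R : Multiset (Sym2 V)}
    (hpq : p ≠ q) (hpr : p ≠ r) (hps : p ≠ s) (hqr : q ≠ r) (hqs : q ≠ s) (hrs : r ≠ s)
    (hap : a ≠ p) (haq : a ≠ q) (har : a ≠ r) (has : a ≠ s)
    (hbp : b ≠ p) (hbq : b ≠ q) (hbr : b ≠ r) (hbs : b ≠ s)
    (hcp : c ≠ p) (hcq : c ≠ q) (hcr : c ≠ r) (hcs : c ≠ s)
    (hdp : d ≠ p) (hdq : d ≠ q) (hdr : d ≠ r) (hds : d ≠ s)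
    (hp : deg p R = 0) (hq : deg q R = 0) (hr : deg r R = 0) (hs : deg s R = 0) :
    eo (s(p, q) ::ₘ s(p, r) ::ₘ s(p, s) ::ₘ s(p, a) ::ₘ s(q, r) ::ₘ s(q, s) ::ₘ s(r, s) ::ₘ
      s(q, b) ::ₘ s(r, c) ::ₘ s(s, d) ::ₘ R) = 2 * T3 a b c d R := by
  have hR : deg p (s(q, r) ::ₘ s(q, s) ::ₘ s(r, s) ::ₘ
      s(q, b) ::ₘ s(r, c) ::ₘ s(s, d) ::ₘ R) = 0 := by
    simp [deg_cons, hpq, hpr, hps, hbp.symm, hcp.symm, hdp.symm, hp]
  have h := eo_four (a := q) (b := r) (c := s) (d := a) hR hpq.symm hpr.symm hps.symm hap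
  rw [eo_K4_aux hqr hqs hrs haq har has hbq hbr hbs hcq hcr hcs hdq hdr hds hq hr hs] at h
  have e2 : s(q, s) ::ₘ s(r, a) ::ₘ s(q, r) ::ₘ s(q, s) ::ₘ s(r, s) ::ₘ
      s(q, b) ::ₘ s(r, c) ::ₘ s(s, d) ::ₘ R =
      s(q, s) ::ₘ s(r, a) ::ₘ s(q, s) ::ₘ s(q, r) ::ₘ s(s, r) ::ₘ
      s(q, b) ::ₘ s(s, d) ::ₘ s(r, c) ::ₘ R := by
    rw [Sym2.eq_swap (a := s) (b := r)]
    simp only [← Multiset.singleton_add]; abel
  have e3 : s(q, a) ::ₘ s(r, s) ::ₘ s(q, r) ::ₘ s(q, s) ::ₘ s(r, s) ::ₘ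
      s(q, b) ::ₘ s(r, c) ::ₘ s(s, d) ::ₘ R =
      s(r, s) ::ₘ s(q, a) ::ₘ s(r, s) ::ₘ s(r, q) ::ₘ s(s, q) ::ₘ
      s(r, c) ::ₘ s(s, d) ::ₘ s(q, b) ::ₘ R := by
    rw [Sym2.eq_swap (a := s) (b := q), Sym2.eq_swap (a := r) (b := q)]
    simp only [← Multiset.singleton_add]; abel
  rw [e2, eo_K4_aux hqs hqr hrs.symm haq has har hbq hbs hbr hdq hds hdr hcq hcs hcr hq hs hr,
    e3, eo_K4_aux hrs hqr.symm hqs.symm har has haq hcr hcs hcq hdr hds hdq hbr hbs hbq hr hs hq,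
    T3_perm1 a b c d R, T3_perm2 a b c d R] at h
  have h6 : T3 a b c d R = eo (s(a, b) ::ₘ s(c, d) ::ₘ R) + eo (s(a, c) ::ₘ s(b, d) ::ₘ R) +
        eo (s(a, d) ::ₘ s(b, c) ::ₘ R) := rfl
  omega

end Pool.Agent.MPa3e05cA
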