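import Pool.Agent.Lib.MP_a3e05c_co.FourA
set_option autoImplicit false
set_option linter.unusedSectionVars false
open Finset

namespace Pool.Agent.MPa3e05cA

variable {V : Type*} [DecidableEq V]

/-! ### Potentials -/

section potentials

variable [Fintype V]

/-- weight of a pair of vertices (or loop) with multiplicity `k` -/
noncomputable def wt (p : ℕ → ℝ) (l : ℝ) (e : Sym2 V) (k : ℕ) : ℝ := if e.IsDiag then l ^ k else p k

noncomputable def Pr (p : ℕ → ℝ) (l : ℝ) (L : Multiset (Sym2 V)) : ℝ :=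
  ∏ e : Sym2 V, wt p l e (L.count e)

noncomputable def Gm (γ : ℕ → ℝ) (L : Multiset (Sym2 V)) : ℝ := ∏ v : V, γ (deg v L)

lemma wt_pos {p : ℕ → ℝ} {l : ℝ} (hp : ∀ k, 0 < p k) (hl : 0 < l) (e : Sym2 V) (k : ℕ) :
    0 < wt p l e k := by
  unfold wt; split_ifs
  · positivity
  · exact hp k

lemma Pr_pos {p : ℕ → ℝ} {l : ℝ} (hp : ∀ k, 0 < p k) (hl : 0 < l) (L : Multiset (Sym2 V)) :
    0 < Pr p l L := Finset.prod_pos fun e _ => wt_pos hp hl e _

lemma Gm_pos {γ : ℕ → ℝ} (hp : ∀ k, 0 < γ k) (L : Multiset (Sym2 V)) :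
    0 < Gm γ L := Finset.prod_pos fun e _ => hp _

lemma Pr_cons_aux {p : ℕ → ℝ} {l : ℝ} (e : Sym2 V)
    (L : Multiset (Sym2 V)) :
    Pr p l (e ::ₘ L) * wt p l e (L.count e) = wt p l e (L.count e + 1) * Pr p l L := by
  unfold Pr
  rw [← Finset.mul_prod_erase univ (fun e' => wt p l e' ((e ::ₘ L).count e')) (mem_univ e),
    ← Finset.mul_prod_erase univ (fun e' => wt p l e' (L.count e')) (mem_univ e)]
  have : ∏ x ∈ univ.erase e, wt p l x ((e ::ₘ L).count x) =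
      ∏ x ∈ univ.erase e, wt p l x (L.count x) := by
    apply Finset.prod_congr rfl
    intro x hx
    rw [Multiset.count_cons_of_ne (Finset.ne_of_mem_erase hx)]
  rw [this, Multiset.count_cons_self]
  ring

lemma Pr_cons_loop {p : ℕ → ℝ} {l : ℝ} (hl : 0 < l) (v : V)
    (L : Multiset (Sym2 V)) :
    Pr p l (s(v, v) ::ₘ L) = l * Pr p l L := by
  have h := Pr_cons_aux (p := p) (l := l) s(v, v) L
  have e1 : wt p l s(v, v) (L.count s(v, v)) = l ^ (L.count s(v, v)) := by simp [wt]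
  have e2 : wt p l s(v, v) (L.count s(v, v) + 1) = l ^ (L.count s(v, v) + 1) := by simp [wt]
  rw [e1, e2] at h
  have : (0:ℝ) < l ^ (L.count s(v, v)) := by positivity
  have h3 : (Pr p l (s(v, v) ::ₘ L)) * l ^ (L.count s(v, v)) = (l * Pr p l L) * l ^ (L.count s(v, v)) := by
    rw [h]; ring
  exact mul_right_cancel₀ this.ne' h3

lemma Pr_cons_ne {p : ℕ → ℝ} {l : ℝ} (hp : ∀ k, 0 < p k) {a b : V} (hab : a ≠ b)
    (L : Multiset (Sym2 V)) :
    Pr p l (s(a, b) ::ₘ L) = p (L.count s(a, b) + 1) / p (L.count s(a, b)) * Pr p l L := by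
  have h := Pr_cons_aux (p := p) (l := l) s(a, b) L
  have e1 : wt p l s(a, b) (L.count s(a, b)) = p (L.count s(a, b)) := by simp [wt, hab]
  have e2 : wt p l s(a, b) (L.count s(a, b) + 1) = p (L.count s(a, b) + 1) := by simp [wt, hab]
  rw [e1, e2] at h
  have := hp (L.count s(a, b))
  field_simp
  linarith

lemma Pr_cons_ne_le {p : ℕ → ℝ} {l ρ : ℝ} (hp : ∀ k, 0 < p k) (hl : 0 < l)
    (hρ : ∀ k, p (k + 1) ≤ ρ * p k)
    {a b : V} (hab : a ≠ b) (L : Multiset (Sym2 V)) :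
    Pr p l (s(a, b) ::ₘ L) ≤ ρ * Pr p l L := by
  rw [Pr_cons_ne hp hab]
  apply mul_le_mul_of_nonneg_right _ (Pr_pos hp hl L).le
  rw [div_le_iff₀ (hp _)]
  exact hρ _

lemma Gm_drop {γ : ℕ → ℝ} (h0 : γ 0 = 1) {M M' : Multiset (Sym2 V)} (S : Finset V) (m : ℕ)
    (h1 : ∀ w ∈ S, deg w M = m) (h2 : ∀ w ∈ S, deg w M' = 0)
    (h3 : ∀ w, w ∉ S → deg w M' = deg w M) :
    Gm γ M = γ m ^ S.card * Gm γ M' := by
  unfold Gm
  rw [← Finset.prod_mul_prod_compl S (fun v => γ (deg v M)),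
    ← Finset.prod_mul_prod_compl S (fun v => γ (deg v M'))]
  have e1 : ∏ v ∈ S, γ (deg v M) = γ m ^ S.card := by
    rw [Finset.prod_congr rfl (fun w hw => by rw [h1 w hw]), Finset.prod_const]
  have e2 : ∏ v ∈ S, γ (deg v M') = 1 := by
    rw [Finset.prod_congr rfl (fun w hw => by rw [h2 w hw, h0]), Finset.prod_const_one]
  have e3 : ∏ v ∈ Sᶜ, γ (deg v M') = ∏ v ∈ Sᶜ, γ (deg v M) := by
    apply Finset.prod_congr rfl
    intro w hw
    rw [h3 w (by simpa using hw)]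
  rw [e1, e2, e3, one_mul]

lemma count_eq_zero {v : V} {L : Multiset (Sym2 V)} (h : deg v L = 0) (a : V) :
    L.count s(v, a) = 0 := by
  rw [Multiset.count_eq_zero]
  intro hm
  obtain ⟨t, rfl⟩ := Multiset.exists_cons_of_mem hm
  rw [deg_cons] at h
  simp at h

/-- constant `24^{1/5}` -/
noncomputable def g : ℝ := (24 : ℝ) ^ ((1 : ℝ) / 5)

lemma g_pow : g ^ 5 = 24 := by
  unfold g
  rw [← Real.rpow_natCast, ← Real.rpow_mul (by norm_num)]
  norm_num

lemma g_pos : 0 < g := by unfold g; positivity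

lemma g_lb : 1.888 < g := by
  by_contra h
  push Not at h
  have := pow_le_pow_left₀ g_pos.le h 5
  rw [g_pow] at this
  norm_num at this

lemma g_ub : g < 1.8882 := by
  by_contra h
  push Not at h
  have := pow_le_pow_left₀ (by norm_num) h 5
  rw [g_pow] at this
  norm_num at this

noncomputable def p2 : ℕ → ℝ
  | 0 => 1
  | 1 => 1
  | 2 => 1.17
  | 3 => 1.4
  | _ => 6 / g ^ 2

noncomputable def γ2 : ℕ → ℝ := fun k => if k = 4 then g else 1

lemma q_ub : 6 / g ^ 2 < 1.6833 := by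
  rw [div_lt_iff₀ (by have := g_pos; positivity)]
  nlinarith [g_lb]

lemma q_lb : 1.6828 < 6 / g ^ 2 := by
  rw [lt_div_iff₀ (by have := g_pos; positivity)]
  nlinarith [g_ub, g_lb]

lemma p2_pos (k : ℕ) : 0 < p2 k := by
  match k with
  | 0 => norm_num [p2]
  | 1 => norm_num [p2]
  | 2 => norm_num [p2]
  | 3 => norm_num [p2]
  | (k + 4) =>
    have := g_pos
    simp only [p2]; positivity

lemma p2_ratio (k : ℕ) : p2 (k + 1) ≤ 1.2024 * p2 k := by
  match k with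
  | 0 => norm_num [p2]
  | 1 => norm_num [p2]
  | 2 => norm_num [p2]
  | 3 =>
    have := q_ub
    simp only [p2]
    norm_num
    linarith
  | (k + 4) =>
    have := q_lb
    simp only [p2]
    linarith

lemma γ2_pos (k : ℕ) : 0 < γ2 k := by
  unfold γ2; split_ifs
  · exact g_pos
  · norm_num

noncomputable def F (L : Multiset (Sym2 V)) : ℝ := Gm γ2 L * Pr p2 1.5 L

lemma F_pos (L : Multiset (Sym2 V)) : 0 < F L :=
  mul_pos (Gm_pos γ2_pos L) (Pr_pos p2_pos (by norm_num) L)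

end potentials


/-! ### The reduction steps -/

section steps

variable [Fintype V]

lemma γ2_zero : γ2 0 = 1 := by norm_num [γ2]
lemma γ2_four : γ2 4 = g := by simp [γ2]

lemma Pr_cons_one {p : ℕ → ℝ} {l : ℝ} (hp : ∀ k, 0 < p k) (h01 : p 0 = 1) (h11 : p 1 = 1)
    {v a : V} (hva : a ≠ v)
    (L : Multiset (Sym2 V)) (h : L.count s(v, a) = 0) :
    Pr p l (s(v, a) ::ₘ L) = Pr p l L := by
  rw [Pr_cons_ne hp hva.symm, h, h01, zero_add, h11]; simp

lemma count_cons_sym {v a b : V} {L : Multiset (Sym2 V)} :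
    (s(v, b) ::ₘ L).count s(v, a) = L.count s(v, a) + if a = b then 1 else 0 := by
  rw [Multiset.count_cons]
  by_cases h : a = b
  · subst h; simp
  · have : s(v, a) ≠ s(v, b) := fun h' => h (Sym2.congr_right.1 h')
    simp [h, this]

lemma Pr_two {p : ℕ → ℝ} {l : ℝ} (hp : ∀ k, 0 < p k) (h01 : p 0 = 1) (h11 : p 1 = 1)
    {v a b : V} {R : Multiset (Sym2 V)} (ha : a ≠ v) (hb : b ≠ v)
    (h1 : R.count s(v, a) = 0) (h2 : R.count s(v, b) = 0) :
    Pr p l (s(v, a) ::ₘ s(v, b) ::ₘ R) = (if a = b then p 2 else 1) * Pr p l R := by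
  rw [Pr_cons_ne hp ha.symm, Pr_cons_ne hp hb.symm, count_cons_sym, h1, h2, h01]
  by_cases hab : a = b
  · subst hab; simp [h11]
  · simp [hab, h11, h01]

lemma step_R0a {v : V} {R : Multiset (Sym2 V)} (hv : deg v R = 0) (ih : (eo R : ℝ) ≤ F R) :
    (eo (s(v, v) ::ₘ s(v, v) ::ₘ R) : ℝ) ≤ F (s(v, v) ::ₘ s(v, v) ::ₘ R) := by
  have hG : Gm γ2 (s(v, v) ::ₘ s(v, v) ::ₘ R) = g * Gm γ2 R := by
    rw [Gm_drop γ2_zero (M' := R) {v} 4 (by simp [deg_cons, hv]) (by simp [hv])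
      (by intro w hw; simp at hw; simp [deg_cons, hw]), γ2_four]
    simp
  have hG0 := Gm_pos γ2_pos R
  have hP0 := Pr_pos p2_pos (l := 1.5) (by norm_num) R
  rw [F, hG, Pr_cons_loop (by norm_num), Pr_cons_loop (by norm_num), eo_loop, eo_loop]
  unfold F at ih
  push_cast
  have hX := mul_pos hG0 hP0
  have := g_lb
  nlinarith [mul_pos hX g_pos]

lemma step_R0b {v a : V} {R : Multiset (Sym2 V)} (hv : deg v R = 0) (ha : a ≠ v)
    (ih : (eo (s(a, a) ::ₘ R) : ℝ) ≤ F (s(a, a) ::ₘ R)) :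
    (eo (s(v, v) ::ₘ s(v, a) ::ₘ s(v, a) ::ₘ R) : ℝ) ≤
      F (s(v, v) ::ₘ s(v, a) ::ₘ s(v, a) ::ₘ R) := by
  have hG : Gm γ2 (s(v, v) ::ₘ s(v, a) ::ₘ s(v, a) ::ₘ R) = g * Gm γ2 (s(a, a) ::ₘ R) := by
    rw [Gm_drop γ2_zero (M' := s(a, a) ::ₘ R) {v} 4 (by simp [deg_cons, hv, ha.symm])
      (by simp [deg_cons, hv, ha.symm])
      (by intro w hw; simp at hw; simp [deg_cons, hw]; omega), γ2_four]
    simp
  have hG0 := Gm_pos γ2_pos (s(a, a) ::ₘ R)
  have hP0 := Pr_pos p2_pos (l := 1.5) (by norm_num) R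
  have h1 := count_eq_zero hv a
  rw [F, hG, Pr_cons_loop (by norm_num), eo_loop, eo_two hv ha ha,
    Pr_two p2_pos rfl rfl ha ha h1 h1]
  unfold F at ih
  rw [Pr_cons_loop (by norm_num)] at ih
  push_cast
  have hX := mul_pos hG0 hP0
  have h2 : p2 2 = 1.17 := rfl
  have := g_lb
  simp only [if_true, h2]
  nlinarith [mul_pos hX g_pos]

lemma step_R0c {v a b : V} {R : Multiset (Sym2 V)} (hv : deg v R = 0) (ha : a ≠ v) (hb : b ≠ v)
    (hab : a ≠ b)
    (ih : (eo (s(a, b) ::ₘ R) : ℝ) ≤ F (s(a, b) ::ₘ R)) :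
    (eo (s(v, v) ::ₘ s(v, a) ::ₘ s(v, b) ::ₘ R) : ℝ) ≤
      F (s(v, v) ::ₘ s(v, a) ::ₘ s(v, b) ::ₘ R) := by
  have hG : Gm γ2 (s(v, v) ::ₘ s(v, a) ::ₘ s(v, b) ::ₘ R) = g * Gm γ2 (s(a, b) ::ₘ R) := by
    rw [Gm_drop γ2_zero (M' := s(a, b) ::ₘ R) {v} 4 (by simp [deg_cons, hv, ha.symm, hb.symm])
      (by simp [deg_cons, hv, ha.symm, hb.symm])
      (by intro w hw; simp at hw; simp [deg_cons, hw]; omega), γ2_four]
    simp
  have hG0 := Gm_pos γ2_pos (s(a, b) ::ₘ R)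
  have hP0 := Pr_pos p2_pos (l := 1.5) (by norm_num) R
  have h1 := count_eq_zero hv a
  have h2 := count_eq_zero hv b
  rw [F, hG, Pr_cons_loop (by norm_num), eo_loop, eo_two hv ha hb,
    Pr_two p2_pos rfl rfl ha hb h1 h2, if_neg hab]
  unfold F at ih
  have h3 := Pr_cons_ne_le (l := 1.5) p2_pos (by norm_num) p2_ratio hab R
  have h4 := mul_le_mul_of_nonneg_left h3 hG0.le
  push_cast
  have hX := mul_pos hG0 hP0
  have := g_lb
  nlinarith [mul_pos hX g_pos]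

lemma step_R4 {u v : V} {R : Multiset (Sym2 V)} (huv : u ≠ v) (hu : deg u R = 0)
    (hv : deg v R = 0) (ih : (eo R : ℝ) ≤ F R) :
    (eo (s(u, v) ::ₘ s(u, v) ::ₘ s(u, v) ::ₘ s(u, v) ::ₘ R) : ℝ) ≤
      F (s(u, v) ::ₘ s(u, v) ::ₘ s(u, v) ::ₘ s(u, v) ::ₘ R) := by
  have hG : Gm γ2 (s(u, v) ::ₘ s(u, v) ::ₘ s(u, v) ::ₘ s(u, v) ::ₘ R) = g ^ 2 * Gm γ2 R := by
    rw [Gm_drop γ2_zero (M' := R) {u, v} 4
      (by simp [deg_cons, hu, hv, huv, huv.symm])
      (by simp [hu, hv])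
      (by intro w hw; simp at hw; simp [deg_cons, hw]), γ2_four, Finset.card_pair huv]
  have hG0 := Gm_pos γ2_pos R
  have hP0 := Pr_pos p2_pos (l := 1.5) (by norm_num) R
  have h1 := count_eq_zero hu v
  have hP : Pr p2 1.5 (s(u, v) ::ₘ s(u, v) ::ₘ s(u, v) ::ₘ s(u, v) ::ₘ R) =
      6 / g ^ 2 * Pr p2 1.5 R := by
    rw [Pr_cons_ne p2_pos huv, Pr_cons_ne p2_pos huv, Pr_cons_ne p2_pos huv,
      Pr_cons_ne p2_pos huv]
    simp only [Multiset.count_cons_self, h1]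
    simp only [zero_add, p2]
    ring
  rw [F, hG, hP, eo_quad huv hu]
  unfold F at ih
  push_cast
  have := g_pos
  have e : g ^ 2 * Gm γ2 R * (6 / g ^ 2 * Pr p2 1.5 R) = 6 * (Gm γ2 R * Pr p2 1.5 R) := by
    field_simp
  rw [e]
  linarith

lemma step_R3 {u v a b : V} {R : Multiset (Sym2 V)} (huv : u ≠ v) (ha : a ≠ u) (ha' : a ≠ v)
    (hb : b ≠ u) (hb' : b ≠ v) (hu : deg u R = 0)
    (hv : deg v R = 0) (ih : (eo (s(a, b) ::ₘ R) : ℝ) ≤ F (s(a, b) ::ₘ R)) :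
    (eo (s(u, v) ::ₘ s(u, v) ::ₘ s(u, v) ::ₘ s(u, a) ::ₘ s(v, b) ::ₘ R) : ℝ) ≤
      F (s(u, v) ::ₘ s(u, v) ::ₘ s(u, v) ::ₘ s(u, a) ::ₘ s(v, b) ::ₘ R) := by
  have hG : Gm γ2 (s(u, v) ::ₘ s(u, v) ::ₘ s(u, v) ::ₘ s(u, a) ::ₘ s(v, b) ::ₘ R) =
      g ^ 2 * Gm γ2 (s(a, b) ::ₘ R) := by
    rw [Gm_drop γ2_zero (M' := s(a, b) ::ₘ R) {u, v} 4
      (by simp [deg_cons, hu, hv, huv, huv.symm, ha.symm, ha'.symm, hb.symm, hb'.symm])
      (by simp [deg_cons, hu, hv, huv, huv.symm, ha.symm, ha'.symm, hb.symm, hb'.symm])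
      (by intro w hw; simp at hw; simp [deg_cons, hw]; omega), γ2_four, Finset.card_pair huv]
  have hG0 := Gm_pos γ2_pos (s(a, b) ::ₘ R)
  have hP0 := Pr_pos p2_pos (l := 1.5) (by norm_num) R
  have h1 := count_eq_zero hu v
  have h2 := count_eq_zero hu a
  have h3 := count_eq_zero hv b
  have h4 : (s(v, b) ::ₘ R).count s(u, a) = 0 := by
    rw [Multiset.count_cons_of_ne, h2]
    simp [Sym2.eq_iff, huv, hb.symm]
  have h5 : (s(u, a) ::ₘ s(v, b) ::ₘ R).count s(u, v) = 0 := by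
    rw [Multiset.count_cons_of_ne, Multiset.count_cons_of_ne, h1]
    · simp [Sym2.eq_iff, huv, hb.symm]
    · simp [huv, ha'.symm, ha.symm]
  have hP : Pr p2 1.5 (s(u, v) ::ₘ s(u, v) ::ₘ s(u, v) ::ₘ s(u, a) ::ₘ s(v, b) ::ₘ R) =
      1.4 * Pr p2 1.5 R := by
    rw [Pr_cons_ne p2_pos huv, Pr_cons_ne p2_pos huv, Pr_cons_ne p2_pos huv,
      Pr_cons_one p2_pos rfl rfl ha _ h4, Pr_cons_one p2_pos rfl rfl hb' _ h3]
    simp only [Multiset.count_cons_self, h5]
    simp only [zero_add, p2]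
    ring
  have hP' : Pr p2 1.5 (s(a, b) ::ₘ R) ≤ 1.5 * Pr p2 1.5 R := by
    by_cases hab : a = b
    · subst hab; rw [Pr_cons_loop (by norm_num)]
    · have := Pr_cons_ne_le (l := 1.5) p2_pos (by norm_num) p2_ratio hab R
      linarith
  rw [F, hG, hP, eo_triple huv ha hb ha' hb' hu hv]
  unfold F at ih
  push_cast
  have hX := mul_pos hG0 hP0
  have := g_lb
  have h6 := mul_le_mul_of_nonneg_left hP' hG0.le
  have hg2 : 3.56 ≤ g ^ 2 := by nlinarith
  nlinarith [mul_le_mul_of_nonneg_right hg2 hX.le]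

/-- ratio -/
noncomputable def rt (k : ℕ) : ℝ := p2 (k + 1) / p2 k

lemma rt0 : rt 0 = 1 := by norm_num [rt, p2]
lemma rt1 : rt 1 = 1.17 := by norm_num [rt, p2]
lemma rt2 : rt 2 = 1.4 / 1.17 := by norm_num [rt, p2]
lemma rt3 : rt 3 = (6 / g ^ 2) / 1.4 := by norm_num [rt, p2]

/-- the product of weights of a star with possibly coinciding leaves -/
noncomputable def st (a b c d : V) : ℝ :=
  rt ((if a = d then 1 else 0) + (if a = c then 1 else 0) + (if a = b then 1 else 0)) *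
    (rt ((if b = d then 1 else 0) + (if b = c then 1 else 0)) * rt (if c = d then 1 else 0))

lemma Pr_star {v a b c d : V} {R : Multiset (Sym2 V)} (hR : deg v R = 0)
    (ha : a ≠ v) (hb : b ≠ v) (hc : c ≠ v) (hd : d ≠ v) :
    Pr p2 1.5 (s(v, a) ::ₘ s(v, b) ::ₘ s(v, c) ::ₘ s(v, d) ::ₘ R) = st a b c d * Pr p2 1.5 R := by
  have h1 := count_eq_zero hR a
  have h2 := count_eq_zero hR b
  have h3 := count_eq_zero hR c
  have h4 := count_eq_zero hR d
  rw [Pr_cons_ne p2_pos ha.symm, Pr_cons_ne p2_pos hb.symm, Pr_cons_ne p2_pos hc.symm,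
    Pr_cons_one p2_pos rfl rfl hd _ h4]
  simp only [count_cons_sym, h1, h2, h3, zero_add]
  unfold st rt
  ring

lemma st_pos (a b c d : V) : 0 < st a b c d := by
  unfold st rt
  have := p2_pos
  have h : ∀ k, 0 < p2 (k + 1) / p2 k := fun k => div_pos (this _) (this _)
  exact mul_pos (h _) (mul_pos (h _) (h _))

lemma st_num (b c d e : V) :
    g * st b c d e + (if b = c then (1.5 : ℝ) else 1.2024) * (if d = e then (1.5 : ℝ) else 1.2024) ≤
      g ^ 2 * (1.17 * ((if b = c then (1.17 : ℝ) else 1) * (if d = e then (1.17 : ℝ) else 1))) := by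
  have hl := g_lb
  have hu := g_ub
  have h1 := q_ub
  have hg2 : 3.5645 ≤ g ^ 2 := by nlinarith
  have hg := g_pos
  unfold st
  by_cases h12 : b = c
  · subst h12
    by_cases h34 : d = e
    · subst h34
      by_cases h13 : b = d
      · subst h13
        simp only [if_true, rt1, rt2, rt3]
        have : (6 / g ^ 2 / 1.4 * (1.4 / 1.17 * 1.17) : ℝ) = 6 / g ^ 2 := by ring
        norm_num [rt1, rt2, rt3]
        nlinarith
      · norm_num [h13, rt0, rt1, rt2, rt3]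
        nlinarith
    · by_cases h13 : b = d
      · subst h13
        norm_num [h34, rt0, rt1, rt2, rt3]
        nlinarith
      · by_cases h14 : b = e
        · subst h14
          norm_num [h34, h13, rt0, rt1, rt2, rt3]
          nlinarith
        · norm_num [h34, h13, h14, rt0, rt1, rt2, rt3]
          nlinarith
  · by_cases h34 : d = e
    · subst h34
      by_cases h13 : b = d
      · subst h13
        have : ¬ c = b := fun h => h12 h.symm
        norm_num [h12, this, rt0, rt1, rt2, rt3]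
        nlinarith
      · by_cases h23 : c = d
        · subst h23
          norm_num [h12, rt0, rt1, rt2, rt3]
          nlinarith
        · norm_num [h12, h13, h23, rt0, rt1, rt2, rt3]
          nlinarith
    · by_cases h13 : b = d
      · subst h13
        have : ¬ c = b := fun h => h12 h.symm
        by_cases h24 : c = e
        · subst h24
          norm_num [h12, this, rt0, rt1, rt2, rt3]
          nlinarith
        · norm_num [h12, this, h34, h24, rt0, rt1, rt2, rt3]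
          nlinarith
      · by_cases h14 : b = e
        · subst h14
          have : ¬ c = b := fun h => h12 h.symm
          by_cases h23 : c = d
          · norm_num [h12, this, h34, h23, h13, rt0, rt1, rt2, rt3]
            nlinarith
          · norm_num [h12, this, h34, h23, h13, rt0, rt1, rt2, rt3]
            nlinarith
        · by_cases h23 : c = d
          · subst h23
            norm_num [h12, h34, h13, h14, rt0, rt1, rt2, rt3]
            nlinarith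
          · by_cases h24 : c = e
            · subst h24
              norm_num [h12, h34, h13, h14, h23, rt0, rt1, rt2, rt3]
              nlinarith
            · norm_num [h12, h34, h13, h14, h23, h24, rt0, rt1, rt2, rt3]
              nlinarith

lemma step_R2 {u v b c d e : V} {R : Multiset (Sym2 V)} (huv : u ≠ v)
    (hb : b ≠ u) (hc : c ≠ u) (hd : d ≠ u) (he : e ≠ u)
    (hb' : b ≠ v) (hc' : c ≠ v) (hd' : d ≠ v) (he' : e ≠ v)
    (hu : deg u R = 0) (hv : deg v R = 0)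
    (ih1 : (eo (s(v, b) ::ₘ s(v, c) ::ₘ s(v, d) ::ₘ s(v, e) ::ₘ R) : ℝ) ≤
      F (s(v, b) ::ₘ s(v, c) ::ₘ s(v, d) ::ₘ s(v, e) ::ₘ R))
    (ih0 : (eo (s(b, c) ::ₘ s(d, e) ::ₘ R) : ℝ) ≤ F (s(b, c) ::ₘ s(d, e) ::ₘ R)) :
    (eo (s(u, v) ::ₘ s(u, v) ::ₘ s(u, b) ::ₘ s(u, c) ::ₘ s(v, d) ::ₘ s(v, e) ::ₘ R) : ℝ) ≤
      F (s(u, v) ::ₘ s(u, v) ::ₘ s(u, b) ::ₘ s(u, c) ::ₘ s(v, d) ::ₘ s(v, e) ::ₘ R) := by
  have hG : Gm γ2 (s(u, v) ::ₘ s(u, v) ::ₘ s(u, b) ::ₘ s(u, c) ::ₘ s(v, d) ::ₘ s(v, e) ::ₘ R) =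
      g ^ 2 * Gm γ2 (s(b, c) ::ₘ s(d, e) ::ₘ R) := by
    rw [Gm_drop γ2_zero (M' := s(b, c) ::ₘ s(d, e) ::ₘ R) {u, v} 4
      (by simp [deg_cons, hu, hv, huv, huv.symm, hb.symm, hc.symm, hd.symm, he.symm, hb'.symm,
            hc'.symm, hd'.symm, he'.symm])
      (by simp [deg_cons, hu, hv, hb.symm, hc.symm, hd.symm, he.symm, hb'.symm,
            hc'.symm, hd'.symm, he'.symm])
      (by intro w hw; simp at hw; simp [deg_cons, hw]; omega), γ2_four, Finset.card_pair huv]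
  have hG1 : Gm γ2 (s(v, b) ::ₘ s(v, c) ::ₘ s(v, d) ::ₘ s(v, e) ::ₘ R) =
      g * Gm γ2 (s(b, c) ::ₘ s(d, e) ::ₘ R) := by
    rw [Gm_drop γ2_zero (M' := s(b, c) ::ₘ s(d, e) ::ₘ R) {v} 4
      (by simp [deg_cons, hv, hb'.symm,
            hc'.symm, hd'.symm, he'.symm])
      (by simp [deg_cons, hv, hb'.symm,
            hc'.symm, hd'.symm, he'.symm])
      (by intro w hw; simp at hw; simp [deg_cons, hw]; omega), γ2_four]
    simp
  have hG0 := Gm_pos γ2_pos (s(b, c) ::ₘ s(d, e) ::ₘ R)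
  have hP0 := Pr_pos p2_pos (l := 1.5) (by norm_num) R
  have h1 := count_eq_zero hu v
  have c1 : ∀ x, x ≠ u → x ≠ v → (s(v, d) ::ₘ s(v, e) ::ₘ R).count s(u, x) = 0 := by
    intro x hx hx'
    rw [Multiset.count_cons_of_ne, Multiset.count_cons_of_ne, count_eq_zero hu x]
    · simp [huv, he.symm]
    · simp [huv, hd.symm]
  have c2 : (s(u, b) ::ₘ s(u, c) ::ₘ s(v, d) ::ₘ s(v, e) ::ₘ R).count s(u, v) = 0 := by
    rw [Multiset.count_cons_of_ne, Multiset.count_cons_of_ne, Multiset.count_cons_of_ne,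
      Multiset.count_cons_of_ne, h1]
    · simp [huv, he.symm]
    · simp [huv, hd.symm]
    · simp [hc'.symm, hc.symm]
    · simp [hb'.symm, hb.symm]
  have hP : Pr p2 1.5 (s(u, v) ::ₘ s(u, v) ::ₘ s(u, b) ::ₘ s(u, c) ::ₘ s(v, d) ::ₘ s(v, e) ::ₘ R) =
      (1.17 * ((if b = c then (1.17 : ℝ) else 1) * (if d = e then (1.17 : ℝ) else 1))) *
        Pr p2 1.5 R := by
    rw [Pr_cons_ne p2_pos huv, Pr_cons_ne p2_pos huv,
      Pr_two p2_pos rfl rfl hb hc (c1 b hb hb') (c1 c hc hc'),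
      Pr_two p2_pos rfl rfl hd' he' (count_eq_zero hv d) (count_eq_zero hv e)]
    simp only [Multiset.count_cons_self, c2]
    simp only [zero_add, p2]
    ring
  have hP1 := Pr_star hv hb' hc' hd' he'
  have hloop : ∀ (x y : V) (L : Multiset (Sym2 V)), Pr p2 1.5 (s(x, y) ::ₘ L) ≤
      (if x = y then (1.5 : ℝ) else 1.2024) * Pr p2 1.5 L := by
    intro x y L
    split_ifs with h
    · subst h; rw [Pr_cons_loop (by norm_num)]
    · exact Pr_cons_ne_le (l := 1.5) p2_pos (by norm_num) p2_ratio h L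
  have hP0' : Pr p2 1.5 (s(b, c) ::ₘ s(d, e) ::ₘ R) ≤
      (if b = c then (1.5 : ℝ) else 1.2024) * (if d = e then (1.5 : ℝ) else 1.2024) *
        Pr p2 1.5 R := by
    refine (hloop _ _ _).trans ?_
    rw [mul_assoc]
    apply mul_le_mul_of_nonneg_left (hloop _ _ _)
    split_ifs <;> norm_num
  rw [F, hG, hP, eo_double huv hb hc hd he hb' hc' hd' he' hu hv]
  unfold F at ih1 ih0
  rw [hG1, hP1] at ih1
  push_cast
  have hX := mul_pos hG0 hP0
  have h6 := mul_le_mul_of_nonneg_left hP0' hG0.le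
  have h7 := mul_le_mul_of_nonneg_right (st_num b c d e) hX.le
  calc ((eo (s(v, b) ::ₘ s(v, c) ::ₘ s(v, d) ::ₘ s(v, e) ::ₘ R) : ℝ)) +
        (eo (s(b, c) ::ₘ s(d, e) ::ₘ R) : ℝ)
      ≤ g * Gm γ2 (s(b, c) ::ₘ s(d, e) ::ₘ R) * (st b c d e * Pr p2 1.5 R) +
        Gm γ2 (s(b, c) ::ₘ s(d, e) ::ₘ R) * ((if b = c then (1.5 : ℝ) else 1.2024) *
          (if d = e then (1.5 : ℝ) else 1.2024) * Pr p2 1.5 R) := by linarith
    _ = (g * st b c d e + (if b = c then (1.5 : ℝ) else 1.2024) *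
          (if d = e then (1.5 : ℝ) else 1.2024)) *
          (Gm γ2 (s(b, c) ::ₘ s(d, e) ::ₘ R) * Pr p2 1.5 R) := by ring
    _ ≤ _ := h7
    _ = _ := by ring

end steps

end Pool.Agent.MPa3e05cA
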