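import Pool.Agent.Lib.MP_a3e05c_co.FourB
set_option autoImplicit false
set_option linter.unusedSectionVars false
open Finset

namespace Pool.Agent.MPa3e05cA

variable {V : Type*} [DecidableEq V]

/-! ### The main induction for multigraphs with all degrees `0` or `4` -/

section main

lemma extract {v : V} {L : Multiset (Sym2 V)} (h : 0 < deg v L) :
    ∃ a L', L = s(v, a) ::ₘ L' := by
  induction L using Multiset.induction_on with
  | empty => simp [deg_zero] at h
  | cons e L ih =>
    induction e with | _ x y =>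
    by_cases hx : v = x
    · subst hx; exact ⟨y, L, rfl⟩
    · by_cases hy : v = y
      · subst hy; exact ⟨x, L, by rw [Sym2.eq_swap]⟩
      · rw [deg_cons, if_neg hx, if_neg hy] at h
        obtain ⟨a, L', rfl⟩ := ih (by omega)
        exact ⟨a, s(x, y) ::ₘ L', Multiset.cons_swap _ _ _⟩

lemma extract1 {v : V} {L : Multiset (Sym2 V)} {k : ℕ} (h : deg v L = k + 1)
    (hn : s(v, v) ∉ L) :
    ∃ a L', L = s(v, a) ::ₘ L' ∧ a ≠ v ∧ deg v L' = k ∧ s(v, v) ∉ L' := by
  obtain ⟨a, L', rfl⟩ := extract (v := v) (L := L) (by omega)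
  have ha : a ≠ v := by rintro rfl; simp at hn
  refine ⟨a, L', rfl, ha, ?_, fun h' => hn (Multiset.mem_cons_of_mem h')⟩
  rw [deg_cons, if_pos rfl, if_neg ha.symm] at h
  omega

lemma deg_pos_of_mem {v a : V} {L : Multiset (Sym2 V)} (h : s(v, a) ∈ L) : 0 < deg v L := by
  obtain ⟨t, rfl⟩ := Multiset.exists_cons_of_mem h
  rw [deg_cons, if_pos rfl]; omega

lemma deg_le_of_le {v : V} {L L' : Multiset (Sym2 V)} (h : L ≤ L') : deg v L ≤ deg v L' := by
  obtain ⟨t, rfl⟩ := Multiset.le_iff_exists_add.1 h
  simp [deg]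

variable [Fintype V]

lemma Pr_simple {R : Multiset (Sym2 V)} (h1 : ∀ e, R.count e ≤ 1) (h2 : ∀ v, s(v, v) ∉ R) :
    Pr p2 1.5 R = 1 := by
  unfold Pr
  apply Finset.prod_eq_one
  intro e _
  unfold wt
  split_ifs with he
  · induction e with | _ x y =>
    have hxy : x = y := by simpa using he
    subst hxy
    rw [Multiset.count_eq_zero.2 (h2 x), pow_zero]
  · have := h1 e
    interval_cases R.count e <;> rfl

lemma st_le (a b c d : V) : st a b c d ≤ 6 / g ^ 2 := by
  have h1 := q_lb
  have r1 : ∀ k, k ≤ 1 → rt k ≤ rt 1 := by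
    intro k hk
    interval_cases k <;> norm_num [rt0, rt1]
  have r2 : ∀ k, k ≤ 2 → rt k ≤ rt 2 := by
    intro k hk
    interval_cases k <;> norm_num [rt0, rt1, rt2]
  have r3 : ∀ k, k ≤ 3 → rt k ≤ rt 3 := by
    intro k hk
    interval_cases k
    · norm_num [rt0, rt3]; linarith
    · norm_num [rt1, rt3]; linarith
    · norm_num [rt2, rt3]; linarith
    · exact le_refl _
  have hpos : ∀ k, 0 < rt k := fun k => div_pos (p2_pos _) (p2_pos _)
  have e : rt 3 * (rt 2 * rt 1) = 6 / g ^ 2 := by
    rw [rt1, rt2, rt3]; ring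
  rw [← e]
  unfold st
  apply mul_le_mul (r3 _ (by split_ifs <;> omega)) _ (mul_pos (hpos _) (hpos _)).le (hpos _).le
  exact mul_le_mul (r2 _ (by split_ifs <;> omega)) (r1 _ (by split_ifs <;> omega)) (hpos _).le
    (hpos _).le

lemma step_K4 {p q r s a b c d : V} {R : Multiset (Sym2 V)}
    (hpq : p ≠ q) (hpr : p ≠ r) (hps : p ≠ s) (hqr : q ≠ r) (hqs : q ≠ s) (hrs : r ≠ s)
    (hap : a ≠ p) (haq : a ≠ q) (har : a ≠ r) (has : a ≠ s)
    (hbp : b ≠ p) (hbq : b ≠ q) (hbr : b ≠ r) (hbs : b ≠ s)
    (hcp : c ≠ p) (hcq : c ≠ q) (hcr : c ≠ r) (hcs : c ≠ s)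
    (hdp : d ≠ p) (hdq : d ≠ q) (hdr : d ≠ r) (hds : d ≠ s)
    (hp : deg p R = 0) (hq : deg q R = 0) (hr : deg r R = 0) (hs : deg s R = 0)
    (hM : Pr p2 1.5 (s(p, q) ::ₘ s(p, r) ::ₘ s(p, s) ::ₘ s(p, a) ::ₘ s(q, r) ::ₘ s(q, s) ::ₘ
      s(r, s) ::ₘ s(q, b) ::ₘ s(r, c) ::ₘ s(s, d) ::ₘ R) = 1) (hR : Pr p2 1.5 R = 1)
    (ih : (eo (s(s, a) ::ₘ s(s, b) ::ₘ s(s, c) ::ₘ s(s, d) ::ₘ R) : ℝ) ≤
      F (s(s, a) ::ₘ s(s, b) ::ₘ s(s, c) ::ₘ s(s, d) ::ₘ R)) :
    (eo (s(p, q) ::ₘ s(p, r) ::ₘ s(p, s) ::ₘ s(p, a) ::ₘ s(q, r) ::ₘ s(q, s) ::ₘ s(r, s) ::ₘ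
      s(q, b) ::ₘ s(r, c) ::ₘ s(s, d) ::ₘ R) : ℝ) ≤
      F (s(p, q) ::ₘ s(p, r) ::ₘ s(p, s) ::ₘ s(p, a) ::ₘ s(q, r) ::ₘ s(q, s) ::ₘ s(r, s) ::ₘ
      s(q, b) ::ₘ s(r, c) ::ₘ s(s, d) ::ₘ R) := by
  have hG : Gm γ2 (s(p, q) ::ₘ s(p, r) ::ₘ s(p, s) ::ₘ s(p, a) ::ₘ s(q, r) ::ₘ s(q, s) ::ₘ
      s(r, s) ::ₘ s(q, b) ::ₘ s(r, c) ::ₘ s(s, d) ::ₘ R) =
      g ^ 3 * Gm γ2 (s(s, a) ::ₘ s(s, b) ::ₘ s(s, c) ::ₘ s(s, d) ::ₘ R) := by
    rw [Gm_drop γ2_zero (M' := s(s, a) ::ₘ s(s, b) ::ₘ s(s, c) ::ₘ s(s, d) ::ₘ R) {p, q, r} 4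
      (by simp [deg_cons, hp, hq, hr, hpq, hpr, hps, hqr, hqs, hrs, hpq.symm, hpr.symm,
            hqr.symm, hap.symm, haq.symm, har.symm, hbp.symm, hbq.symm, hbr.symm, hcp.symm,
            hcq.symm, hcr.symm, hdp.symm, hdq.symm, hdr.symm])
      (by simp [deg_cons, hp, hq, hr, hps, hqs, hrs,
            hap.symm, haq.symm, har.symm, hbp.symm, hbq.symm, hbr.symm, hcp.symm,
            hcq.symm, hcr.symm, hdp.symm, hdq.symm, hdr.symm])
      (by intro w hw; simp at hw; simp [deg_cons, hw]; omega), γ2_four]
    congr 2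
    rw [Finset.card_eq_three]
    exact ⟨p, q, r, hpq, hpr, hqr, rfl⟩
  have h := eo_K4 hpq hpr hps hqr hqs hrs hap haq har has hbp hbq hbr hbs hcp hcq hcr hcs
    hdp hdq hdr hds hp hq hr hs
  have h' := eo_star hs has hbs hcs hds
  have h'' : eo (s(p, q) ::ₘ s(p, r) ::ₘ s(p, s) ::ₘ s(p, a) ::ₘ s(q, r) ::ₘ s(q, s) ::ₘ
      s(r, s) ::ₘ s(q, b) ::ₘ s(r, c) ::ₘ s(s, d) ::ₘ R) =
      4 * eo (s(s, a) ::ₘ s(s, b) ::ₘ s(s, c) ::ₘ s(s, d) ::ₘ R) := by omega
  have hG0 := Gm_pos γ2_pos (s(s, a) ::ₘ s(s, b) ::ₘ s(s, c) ::ₘ s(s, d) ::ₘ R)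
  rw [F, hG, hM, h'']
  unfold F at ih
  rw [Pr_star hs has hbs hcs hds, hR, mul_one] at ih
  push_cast
  have h1 := st_le a b c d
  have hg := g_pos
  have h5 := g_pow
  have h2 : 4 * (6 / g ^ 2) = g ^ 3 := by
    field_simp
    linarith
  calc 4 * (eo (s(s, a) ::ₘ s(s, b) ::ₘ s(s, c) ::ₘ s(s, d) ::ₘ R) : ℝ)
      ≤ 4 * (Gm γ2 (s(s, a) ::ₘ s(s, b) ::ₘ s(s, c) ::ₘ s(s, d) ::ₘ R) * st a b c d) := by
        linarith
    _ ≤ 4 * (Gm γ2 (s(s, a) ::ₘ s(s, b) ::ₘ s(s, c) ::ₘ s(s, d) ::ₘ R) * (6 / g ^ 2)) := by
        have := mul_le_mul_of_nonneg_left h1 hG0.le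
        linarith
    _ = g ^ 3 * Gm γ2 (s(s, a) ::ₘ s(s, b) ::ₘ s(s, c) ::ₘ s(s, d) ::ₘ R) * 1 := by
        rw [← h2]; ring

lemma tri_num {m12 m13 m14 m23 m24 m34 : ℕ} (h12 : m12 ≤ 1) (h13 : m13 ≤ 1) (h14 : m14 ≤ 1)
    (h23 : m23 ≤ 1) (h24 : m24 ≤ 1) (h34 : m34 ≤ 1)
    (t123 : m12 + m13 + m23 ≤ 2) (t124 : m12 + m14 + m24 ≤ 2) (t134 : m13 + m14 + m34 ≤ 2)
    (t234 : m23 + m24 + m34 ≤ 2) :
    rt m12 * rt m34 + rt m13 * rt m24 + rt m14 * rt m23 ≤ 2 * g := by
  have hg := g_lb
  interval_cases m12 <;> interval_cases m13 <;> interval_cases m14 <;> interval_cases m23 <;>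
    interval_cases m24 <;> interval_cases m34 <;>
    first
      | (exfalso; omega)
      | (norm_num [rt0, rt1]; linarith)

lemma step_R1 {v a b c d : V} {R : Multiset (Sym2 V)} (hv : deg v R = 0)
    (ha : a ≠ v) (hb : b ≠ v) (hc : c ≠ v) (hd : d ≠ v)
    (hab : a ≠ b) (hac : a ≠ c) (had : a ≠ d) (hbc : b ≠ c) (hbd : b ≠ d) (hcd : c ≠ d)
    (hM : Pr p2 1.5 (s(v, a) ::ₘ s(v, b) ::ₘ s(v, c) ::ₘ s(v, d) ::ₘ R) = 1)
    (hR : Pr p2 1.5 R = 1)
    (hcount : ∀ e, R.count e ≤ 1)
    (t1 : R.count s(a, b) + R.count s(a, c) + R.count s(b, c) ≤ 2)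
    (t2 : R.count s(a, b) + R.count s(a, d) + R.count s(b, d) ≤ 2)
    (t3 : R.count s(a, c) + R.count s(a, d) + R.count s(c, d) ≤ 2)
    (t4 : R.count s(b, c) + R.count s(b, d) + R.count s(c, d) ≤ 2)
    (ih1 : (eo (s(a, b) ::ₘ s(c, d) ::ₘ R) : ℝ) ≤ F (s(a, b) ::ₘ s(c, d) ::ₘ R))
    (ih2 : (eo (s(a, c) ::ₘ s(b, d) ::ₘ R) : ℝ) ≤ F (s(a, c) ::ₘ s(b, d) ::ₘ R))
    (ih3 : (eo (s(a, d) ::ₘ s(b, c) ::ₘ R) : ℝ) ≤ F (s(a, d) ::ₘ s(b, c) ::ₘ R)) :
    (eo (s(v, a) ::ₘ s(v, b) ::ₘ s(v, c) ::ₘ s(v, d) ::ₘ R) : ℝ) ≤
      F (s(v, a) ::ₘ s(v, b) ::ₘ s(v, c) ::ₘ s(v, d) ::ₘ R) := by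
  have h := eo_four hv ha hb hc hd
  have hG : Gm γ2 (s(v, a) ::ₘ s(v, b) ::ₘ s(v, c) ::ₘ s(v, d) ::ₘ R) =
      g * Gm γ2 (s(a, b) ::ₘ s(c, d) ::ₘ R) := by
    rw [Gm_drop γ2_zero (M' := s(a, b) ::ₘ s(c, d) ::ₘ R) {v} 4
      (by simp [deg_cons, hv, ha.symm, hb.symm, hc.symm, hd.symm])
      (by simp [deg_cons, hv, ha.symm, hb.symm, hc.symm, hd.symm])
      (by intro w hw; simp at hw; simp [deg_cons, hw]; omega), γ2_four]
    simp
  have hG2 : Gm γ2 (s(a, c) ::ₘ s(b, d) ::ₘ R) = Gm γ2 (s(a, b) ::ₘ s(c, d) ::ₘ R) := by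
    unfold Gm
    apply Finset.prod_congr rfl
    intro w _
    congr 1
    simp only [deg_cons]; omega
  have hG3 : Gm γ2 (s(a, d) ::ₘ s(b, c) ::ₘ R) = Gm γ2 (s(a, b) ::ₘ s(c, d) ::ₘ R) := by
    unfold Gm
    apply Finset.prod_congr rfl
    intro w _
    congr 1
    simp only [deg_cons]; omega
  have hG0 := Gm_pos γ2_pos (s(a, b) ::ₘ s(c, d) ::ₘ R)
  have hpair : ∀ x y z w : V, x ≠ y → z ≠ w → s(x, y) ≠ s(z, w) →
      Pr p2 1.5 (s(x, y) ::ₘ s(z, w) ::ₘ R) = rt (R.count s(x, y)) * rt (R.count s(z, w)) := by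
    intro x y z w hxy hzw hne
    rw [Pr_cons_ne p2_pos hxy, Pr_cons_ne p2_pos hzw, hR, Multiset.count_cons_of_ne hne]
    unfold rt; ring
  unfold F at ih1 ih2 ih3
  rw [hpair a b c d hab hcd (by simp [hac, had])] at ih1
  rw [hG2, hpair a c b d hac hbd (by simp [hab, had])] at ih2
  rw [hG3, hpair a d b c had hbc (by simp [hab, hac])] at ih3
  have hnum := tri_num (hcount s(a, b)) (hcount s(a, c)) (hcount s(a, d)) (hcount s(b, c))
    (hcount s(b, d)) (hcount s(c, d)) t1 t2 t3 t4
  rw [F, hG, hM]
  have h2 : (2 : ℝ) * (eo (s(v, a) ::ₘ s(v, b) ::ₘ s(v, c) ::ₘ s(v, d) ::ₘ R) : ℝ) =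
      (eo (s(a, b) ::ₘ s(c, d) ::ₘ R) : ℝ) + (eo (s(a, c) ::ₘ s(b, d) ::ₘ R) : ℝ) +
        (eo (s(a, d) ::ₘ s(b, c) ::ₘ R) : ℝ) := by exact_mod_cast h
  have h3 := mul_le_mul_of_nonneg_left hnum hG0.le
  nlinarith

end main


section stage2

variable [Fintype V]

theorem stage2 (L : Multiset (Sym2 V)) (hL : ∀ v, deg v L = 0 ∨ deg v L = 4) :
    (eo L : ℝ) ≤ F L := by
  induction hn : Multiset.card L using Nat.strong_induction_on generalizing L with
  | _ n ih =>
  subst hn
  have IH : ∀ M : Multiset (Sym2 V), Multiset.card M < Multiset.card L →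
      (∀ v, deg v M = 0 ∨ deg v M = 4) → (eo M : ℝ) ≤ F M := fun M hM hM' => ih _ hM M hM' rfl
  clear ih
  by_cases hloop : ∃ v, s(v, v) ∈ L
  · obtain ⟨v, hv⟩ := hloop
    obtain ⟨L1, rfl⟩ := Multiset.exists_cons_of_mem hv
    have hd1 : deg v L1 = 2 := by
      have := hL v
      rw [deg_cons, if_pos rfl] at this
      omega
    obtain ⟨a, L2, rfl⟩ := extract (v := v) (L := L1) (by omega)
    by_cases hav : a = v
    · subst hav
      have hd2 : deg a L2 = 0 := by
        rw [deg_cons, if_pos rfl] at hd1; omega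
      apply step_R0a hd2
      apply IH
      · simp
      · intro w
        rcases eq_or_ne w a with rfl | hw
        · left; exact hd2
        · have := hL w
          simp only [deg_cons, if_neg hw] at this
          omega
    · have hd2 : deg v L2 = 1 := by
        rw [deg_cons, if_pos rfl, if_neg (fun h => hav h.symm)] at hd1; omega
      obtain ⟨b, R, rfl⟩ := extract (v := v) (L := L2) (by omega)
      have hbv : b ≠ v := by
        rintro rfl
        rw [deg_cons, if_pos rfl] at hd2; omega
      have hd3 : deg v R = 0 := by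
        rw [deg_cons, if_pos rfl, if_neg hbv.symm] at hd2; omega
      by_cases hab : a = b
      · subst hab
        apply step_R0b hd3 hav
        apply IH
        · simp
        · intro w
          rcases eq_or_ne w v with rfl | hw
          · left; simp [deg_cons, hd3, hbv.symm]
          · have := hL w
            simp only [deg_cons, if_neg hw] at this ⊢
            omega
      · apply step_R0c hd3 hav hbv hab
        apply IH
        · simp
        · intro w
          rcases eq_or_ne w v with rfl | hw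
          · left; simp [deg_cons, hd3, hbv.symm, Ne.symm hav]
          · have := hL w
            simp only [deg_cons, if_neg hw] at this ⊢
            omega
  · push Not at hloop
    by_cases hmult : ∃ e, 2 ≤ L.count e
    · obtain ⟨e, he⟩ := hmult
      induction e with | _ u v =>
      have hmem : s(u, v) ∈ L := Multiset.count_pos.1 (by omega)
      have huv : u ≠ v := by rintro rfl; exact hloop _ hmem
      obtain ⟨L1, rfl⟩ := Multiset.exists_cons_of_mem hmem
      have hmem1 : s(u, v) ∈ L1 := by
        rw [Multiset.count_cons_self] at he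
        exact Multiset.count_pos.1 (by omega)
      obtain ⟨L2, rfl⟩ := Multiset.exists_cons_of_mem hmem1
      have hnu : s(u, u) ∉ L2 := fun h => hloop u (by simp [h])
      have hnv : s(v, v) ∉ L2 := fun h => hloop v (by simp [h])
      have hu2 : deg u L2 = 2 := by
        have := hL u
        simp only [deg_cons, if_true, if_neg huv] at this; omega
      have hv2 : deg v L2 = 2 := by
        have := hL v
        simp only [deg_cons, if_true, if_neg huv.symm] at this; omega
      clear he hmem hmem1
      by_cases h3 : s(u, v) ∈ L2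
      · obtain ⟨L3, rfl⟩ := Multiset.exists_cons_of_mem h3
        have hu3 : deg u L3 = 1 := by
          simp only [deg_cons, if_true, if_neg huv] at hu2; omega
        have hv3 : deg v L3 = 1 := by
          simp only [deg_cons, if_true, if_neg huv.symm] at hv2; omega
        have hnu3 : s(u, u) ∉ L3 := fun h => hnu (by simp [h])
        by_cases h4 : s(u, v) ∈ L3
        · obtain ⟨R, rfl⟩ := Multiset.exists_cons_of_mem h4
          have hu4 : deg u R = 0 := by
            simp only [deg_cons, if_true, if_neg huv] at hu3; omega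
          have hv4 : deg v R = 0 := by
            simp only [deg_cons, if_true, if_neg huv.symm] at hv3; omega
          apply step_R4 huv hu4 hv4
          apply IH
          · simp only [Multiset.card_cons]; omega
          · intro w
            rcases eq_or_ne w u with rfl | hwu
            · left; exact hu4
            · rcases eq_or_ne w v with rfl | hwv
              · left; exact hv4
              · have := hL w
                simp only [deg_cons, if_neg hwu, if_neg hwv] at this ⊢
                omega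
        · obtain ⟨a, L4, rfl, hau, hu4, -⟩ := extract1 hu3 hnu3
          have hav : a ≠ v := by rintro rfl; simp at h4
          have hv4 : deg v L4 = 1 := by
            simp only [deg_cons, if_neg huv.symm, if_neg hav.symm] at hv3; omega
          have hnv4 : s(v, v) ∉ L4 := fun h => hnv (by simp [h])
          obtain ⟨b, R, rfl, hbv, hv5, -⟩ := extract1 hv4 hnv4
          have hbu : b ≠ u := by
            rintro rfl
            rw [Sym2.eq_swap] at h4
            simp at h4
          have hu5 : deg u R = 0 := by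
            simp only [deg_cons, if_neg huv, if_neg hbu.symm] at hu4; omega
          apply step_R3 huv hau hav hbu hbv hu5 hv5
          apply IH
          · simp
          · intro w
            rcases eq_or_ne w u with rfl | hwu
            · left; simp [deg_cons, hu5, hau.symm, hbu.symm]
            · rcases eq_or_ne w v with rfl | hwv
              · left; simp [deg_cons, hv5, hav.symm, hbv.symm]
              · have := hL w
                simp only [deg_cons, if_neg hwu, if_neg hwv] at this ⊢
                omega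
      · obtain ⟨b, L3, rfl, hbu, hu3, hnu3⟩ := extract1 hu2 hnu
        obtain ⟨c, L4, rfl, hcu, hu4, -⟩ := extract1 hu3 hnu3
        have hbv : b ≠ v := by rintro rfl; simp at h3
        have hcv : c ≠ v := by rintro rfl; simp at h3
        have hv4 : deg v L4 = 2 := by
          simp only [deg_cons, if_neg huv.symm, if_neg hbv.symm, if_neg hcv.symm] at hv2; omega
        have hnv4 : s(v, v) ∉ L4 := fun h => hnv (by simp [h])
        obtain ⟨d, L5, rfl, hdv, hv5, hnv5⟩ := extract1 hv4 hnv4
        obtain ⟨e, R, rfl, hev, hv6, -⟩ := extract1 hv5 hnv5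
        have hdu : d ≠ u := by
          rintro rfl
          simp only [deg_cons, if_true] at hu4; omega
        have heu : e ≠ u := by
          rintro rfl
          simp only [deg_cons, if_true] at hu4; omega
        have hu6 : deg u R = 0 := by
          simp only [deg_cons, if_neg huv, if_neg hdu.symm, if_neg heu.symm] at hu4; omega
        apply step_R2 huv hbu hcu hdu heu hbv hcv hdv hev hu6 hv6
        · apply IH
          · simp
          · intro w
            rcases eq_or_ne w u with rfl | hwu
            · left; simp [deg_cons, hu6, hbu.symm, hcu.symm, hdu.symm, heu.symm, huv]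
            · rcases eq_or_ne w v with rfl | hwv
              · right; simp [deg_cons, hv6, hbv.symm, hcv.symm, hdv.symm, hev.symm]
              · have := hL w
                simp only [deg_cons, if_neg hwu, if_neg hwv] at this ⊢
                omega
        · apply IH
          · simp
          · intro w
            rcases eq_or_ne w u with rfl | hwu
            · left; simp [deg_cons, hu6, hbu.symm, hcu.symm, hdu.symm, heu.symm]
            · rcases eq_or_ne w v with rfl | hwv
              · left; simp [deg_cons, hv6, hbv.symm, hcv.symm, hdv.symm, hev.symm]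
              · have := hL w
                simp only [deg_cons, if_neg hwu, if_neg hwv] at this ⊢
                omega
    · push Not at hmult
      have hsimple : ∀ e, L.count e ≤ 1 := fun e => by have := hmult e; omega
      clear hmult
      have hPr : ∀ R, R ≤ L → Pr p2 1.5 R = 1 := fun R hR =>
        Pr_simple (fun e => (Multiset.count_le_of_le e hR).trans (hsimple e))
          (fun v hv => hloop v (Multiset.mem_of_le hR hv))
      have hne : ∀ x y, s(x, y) ∈ L → x ≠ y := by
        rintro x y h rfl; exact hloop _ h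
      -- removing the first element of a simple multiset
      have hcc : ∀ (e : Sym2 V) (M : Multiset (Sym2 V)), e ::ₘ M ≤ L → e ∉ M := by
        intro e M hM he
        have h1 := Multiset.count_le_of_le e hM
        rw [Multiset.count_cons_self] at h1
        have h2 := Multiset.count_pos.2 he
        have h3 := hsimple e
        omega
      by_cases hK : ∃ p q r s, s(p, q) ∈ L ∧ s(p, r) ∈ L ∧ s(p, s) ∈ L ∧ s(q, r) ∈ L ∧
          s(q, s) ∈ L ∧ s(r, s) ∈ L
      · obtain ⟨p, q, r, s, h1, h2, h3, h4, h5, h6⟩ := hK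
        have hpq := hne _ _ h1
        have hpr := hne _ _ h2
        have hps := hne _ _ h3
        have hqr := hne _ _ h4
        have hqs := hne _ _ h5
        have hrs := hne _ _ h6
        have hdp : deg p L = 4 := by
          rcases hL p with h | h
          · have := deg_pos_of_mem h1; omega
          · exact h
        have hdq : deg q L = 4 := by
          rcases hL q with h | h
          · have := deg_pos_of_mem h4; omega
          · exact h
        have hdr : deg r L = 4 := by
          rcases hL r with h | h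
          · have := deg_pos_of_mem h6; omega
          · exact h
        have hds : deg s L = 4 := by
          rcases hL s with h | h
          · rw [Sym2.eq_swap] at h6
            have := deg_pos_of_mem h6; omega
          · exact h
        obtain ⟨L1, rfl⟩ := Multiset.exists_cons_of_mem h1
        have h2' : s(p, r) ∈ L1 := (Multiset.mem_cons.1 h2).resolve_left (by simp [hqr.symm, hpr.symm])
        obtain ⟨L2, rfl⟩ := Multiset.exists_cons_of_mem h2'
        have h3' : s(p, s) ∈ L2 :=
          (Multiset.mem_cons.1 ((Multiset.mem_cons.1 h3).resolve_left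
            (by simp [hqs.symm, hps.symm]))).resolve_left (by simp [hrs.symm, hps.symm])
        obtain ⟨L3, rfl⟩ := Multiset.exists_cons_of_mem h3'
        have h4' : s(q, r) ∈ L3 := by
          simp only [Multiset.mem_cons, Sym2.eq_iff] at h4
          simpa [hpq.symm, hpr.symm, hpq, hpr, hqr, hqs, hrs, hqr.symm, hqs.symm, hrs.symm,
            hps, hps.symm] using h4
        obtain ⟨L4, rfl⟩ := Multiset.exists_cons_of_mem h4'
        have h5' : s(q, s) ∈ L4 := by
          simp only [Multiset.mem_cons, Sym2.eq_iff] at h5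
          simpa [hpq.symm, hpr.symm, hpq, hpr, hqr, hqs, hrs, hqr.symm, hqs.symm, hrs.symm,
            hps, hps.symm] using h5
        obtain ⟨L5, rfl⟩ := Multiset.exists_cons_of_mem h5'
        have h6' : s(r, s) ∈ L5 := by
          simp only [Multiset.mem_cons, Sym2.eq_iff] at h6
          simpa [hpq.symm, hpr.symm, hpq, hpr, hqr, hqs, hrs, hqr.symm, hqs.symm, hrs.symm,
            hps, hps.symm] using h6
        obtain ⟨L6, rfl⟩ := Multiset.exists_cons_of_mem h6'
        clear h2' h3' h4' h5' h6' h1 h2 h3 h4 h5 h6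
        have hdup : ∀ e : Sym2 V, e ∈ ({s(p, q), s(p, r), s(p, s), s(q, r), s(q, s), s(r, s)} :
            Multiset (Sym2 V)) → e ∉ L6 := by
          intro e he he'
          have := hsimple e
          have e1 : s(p, q) ::ₘ s(p, r) ::ₘ s(p, s) ::ₘ s(q, r) ::ₘ s(q, s) ::ₘ s(r, s) ::ₘ L6 =
            ({s(p, q), s(p, r), s(p, s), s(q, r), s(q, s), s(r, s)} : Multiset (Sym2 V)) + L6 := by
            simp
          rw [e1, Multiset.count_add] at this
          have c1 := Multiset.count_pos.2 he
          have c2 := Multiset.count_pos.2 he'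
          omega
        simp only [deg_cons, if_pos, if_neg hpq, if_neg hpr, if_neg hps, if_neg hqr, if_neg hqs,
          if_neg hrs, if_neg hpq.symm, if_neg hpr.symm, if_neg hps.symm, if_neg hqr.symm,
          if_neg hqs.symm, if_neg hrs.symm] at hdp hdq hdr hds
        have dp : deg p L6 = 1 := by omega
        have dq : deg q L6 = 1 := by omega
        have dr : deg r L6 = 1 := by omega
        have ds : deg s L6 = 1 := by omega
        obtain ⟨a, L7, rfl, hap, dp7, -⟩ := extract1 dp (fun h => hloop p (by simp [h]))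
        have haq : a ≠ q := by rintro rfl; exact hdup s(p, a) (by simp) (by simp)
        have har : a ≠ r := by rintro rfl; exact hdup s(p, a) (by simp) (by simp)
        have has : a ≠ s := by rintro rfl; exact hdup s(p, a) (by simp) (by simp)
        have dq7 : deg q L7 = 1 := by
          simp only [deg_cons, if_neg hpq.symm, if_neg haq.symm] at dq; omega
        have dr7 : deg r L7 = 1 := by
          simp only [deg_cons, if_neg hpr.symm, if_neg har.symm] at dr; omega
        have ds7 : deg s L7 = 1 := by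
          simp only [deg_cons, if_neg hps.symm, if_neg has.symm] at ds; omega
        obtain ⟨b, L8, rfl, hbq, dq8, -⟩ := extract1 dq7 (fun h => hloop q (by simp [h]))
        have hbp : b ≠ p := by
          rintro rfl; simp only [deg_cons, if_true] at dp7; omega
        have hbr : b ≠ r := by rintro rfl; exact hdup s(q, b) (by simp) (by simp)
        have hbs : b ≠ s := by rintro rfl; exact hdup s(q, b) (by simp) (by simp)
        have dp8 : deg p L8 = 0 := by
          simp only [deg_cons, if_neg hpq, if_neg hbp.symm] at dp7; omega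
        have dr8 : deg r L8 = 1 := by
          simp only [deg_cons, if_neg hqr.symm, if_neg hbr.symm] at dr7; omega
        have ds8 : deg s L8 = 1 := by
          simp only [deg_cons, if_neg hqs.symm, if_neg hbs.symm] at ds7; omega
        obtain ⟨c, L9, rfl, hcr, dr9, -⟩ := extract1 dr8 (fun h => hloop r (by simp [h]))
        have hcp : c ≠ p := by
          rintro rfl; simp only [deg_cons, if_true] at dp8; omega
        have hcq : c ≠ q := by
          rintro rfl; simp only [deg_cons, if_true] at dq8; omega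
        have hcs : c ≠ s := by rintro rfl; exact hdup s(r, c) (by simp) (by simp)
        have dp9 : deg p L9 = 0 := by
          simp only [deg_cons, if_neg hpr, if_neg hcp.symm] at dp8; omega
        have dq9 : deg q L9 = 0 := by
          simp only [deg_cons, if_neg hqr, if_neg hcq.symm] at dq8; omega
        have ds9 : deg s L9 = 1 := by
          simp only [deg_cons, if_neg hrs.symm, if_neg hcs.symm] at ds8; omega
        obtain ⟨d, R, rfl, hds', ds10, -⟩ := extract1 ds9 (fun h => hloop s (by simp [h]))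
        have hdp' : d ≠ p := by
          rintro rfl; simp only [deg_cons, if_true] at dp9; omega
        have hdq' : d ≠ q := by
          rintro rfl; simp only [deg_cons, if_true] at dq9; omega
        have hdr' : d ≠ r := by
          rintro rfl; simp only [deg_cons, if_true] at dr9; omega
        have dp10 : deg p R = 0 := by
          simp only [deg_cons, if_neg hps, if_neg hdp'.symm] at dp9; omega
        have dq10 : deg q R = 0 := by
          simp only [deg_cons, if_neg hqs, if_neg hdq'.symm] at dq9; omega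
        have dr10 : deg r R = 0 := by
          simp only [deg_cons, if_neg hrs, if_neg hdr'.symm] at dr9; omega
        have hperm : s(p, q) ::ₘ s(p, r) ::ₘ s(p, s) ::ₘ s(q, r) ::ₘ s(q, s) ::ₘ s(r, s) ::ₘ
            s(p, a) ::ₘ s(q, b) ::ₘ s(r, c) ::ₘ s(s, d) ::ₘ R =
            s(p, q) ::ₘ s(p, r) ::ₘ s(p, s) ::ₘ s(p, a) ::ₘ s(q, r) ::ₘ s(q, s) ::ₘ s(r, s) ::ₘ
            s(q, b) ::ₘ s(r, c) ::ₘ s(s, d) ::ₘ R := by
          simp only [← Multiset.singleton_add]; abel
        have hRle : R ≤ s(p, q) ::ₘ s(p, r) ::ₘ s(p, s) ::ₘ s(q, r) ::ₘ s(q, s) ::ₘ s(r, s) ::ₘ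
            s(p, a) ::ₘ s(q, b) ::ₘ s(r, c) ::ₘ s(s, d) ::ₘ R := by
          iterate 10 refine le_trans ?_ (Multiset.le_cons_self _ _)
          exact le_rfl
        have hPR := hPr R hRle
        have hPM := hPr _ le_rfl
        rw [hperm] at hPM ⊢
        apply step_K4 hpq hpr hps hqr hqs hrs hap haq har has hbp hbq hbr hbs hcp hcq hcr hcs
          hdp' hdq' hdr' hds' dp10 dq10 dr10 ds10 hPM hPR
        apply IH
        · simp only [Multiset.card_cons]; omega
        · intro w
          have hw := hL w
          rcases eq_or_ne w s with rfl | hws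
          · right
            simp [deg_cons, has.symm, hbs.symm, hcs.symm, hds'.symm, ds10]
          · rcases eq_or_ne w p with rfl | hwp
            · left; simp [deg_cons, hps, hap.symm, hbp.symm, hcp.symm, hdp'.symm, dp10]
            · rcases eq_or_ne w q with rfl | hwq
              · left; simp [deg_cons, hqs, haq.symm, hbq.symm, hcq.symm, hdq'.symm, dq10]
              · rcases eq_or_ne w r with rfl | hwr
                · left; simp [deg_cons, hrs, har.symm, hbr.symm, hcr.symm, hdr'.symm, dr10]
                · simp only [deg_cons, if_neg hws, if_neg hwp, if_neg hwq, if_neg hwr] at hw ⊢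
                  omega
      · by_cases h0 : L = 0
        · subst h0
          have e1 : (eo (0 : Multiset (Sym2 V)) : ℝ) = 1 := by
            simp [eo, coef_zero]
          have e2 : F (0 : Multiset (Sym2 V)) = 1 := by
            rw [F, hPr 0 le_rfl, mul_one]
            unfold Gm
            apply Finset.prod_eq_one
            intro v _
            rw [deg_zero, γ2_zero]
          rw [e1, e2]
        · obtain ⟨e, he⟩ := Multiset.exists_mem_of_ne_zero h0
          induction e with | _ v w =>
          have hdv : deg v L = 4 := by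
            rcases hL v with h | h
            · have := deg_pos_of_mem he; omega
            · exact h
          clear he h0
          obtain ⟨a, L1, rfl, hav, hd1, hn1⟩ := extract1 hdv (hloop v)
          obtain ⟨b, L2, rfl, hbv, hd2, hn2⟩ := extract1 hd1 hn1
          obtain ⟨c, L3, rfl, hcv, hd3, hn3⟩ := extract1 hd2 hn2
          obtain ⟨d, R, rfl, hdv', hd4, hn4⟩ := extract1 hd3 hn3
          have hR : R ≤ s(v, a) ::ₘ s(v, b) ::ₘ s(v, c) ::ₘ s(v, d) ::ₘ R :=
            ((Multiset.le_cons_self _ _).trans (Multiset.le_cons_self _ _)).trans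
              ((Multiset.le_cons_self _ _).trans (Multiset.le_cons_self _ _))
          have hab : a ≠ b := by
            rintro rfl
            exact hcc _ _ le_rfl (by simp)
          have hac : a ≠ c := by
            rintro rfl
            exact hcc _ _ le_rfl (by simp)
          have had : a ≠ d := by
            rintro rfl
            exact hcc _ _ le_rfl (by simp)
          have hbc : b ≠ c := by
            rintro rfl
            exact hcc _ _ (Multiset.le_cons_self _ _) (by simp)
          have hbd : b ≠ d := by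
            rintro rfl
            exact hcc _ _ (Multiset.le_cons_self _ _) (by simp)
          have hcd : c ≠ d := by
            rintro rfl
            exact hcc _ _ ((Multiset.le_cons_self _ _).trans (Multiset.le_cons_self _ _)) (by simp)
          have hcount : ∀ e, R.count e ≤ 1 := fun e =>
            (Multiset.count_le_of_le e hR).trans (hsimple e)
          have htri : ∀ x y z : V, s(v, x) ∈ s(v, a) ::ₘ s(v, b) ::ₘ s(v, c) ::ₘ s(v, d) ::ₘ R →
              s(v, y) ∈ s(v, a) ::ₘ s(v, b) ::ₘ s(v, c) ::ₘ s(v, d) ::ₘ R →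
              s(v, z) ∈ s(v, a) ::ₘ s(v, b) ::ₘ s(v, c) ::ₘ s(v, d) ::ₘ R →
              R.count s(x, y) + R.count s(x, z) + R.count s(y, z) ≤ 2 := by
            intro x y z hx hy hz
            by_contra hcon
            have c1 := hcount s(x, y)
            have c2 := hcount s(x, z)
            have c3 := hcount s(y, z)
            have m1 : s(x, y) ∈ R := Multiset.count_pos.1 (by omega)
            have m2 : s(x, z) ∈ R := Multiset.count_pos.1 (by omega)
            have m3 : s(y, z) ∈ R := Multiset.count_pos.1 (by omega)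
            exact hK ⟨v, x, y, z, hx, hy, hz, Multiset.mem_of_le hR m1, Multiset.mem_of_le hR m2,
              Multiset.mem_of_le hR m3⟩
          apply step_R1 hd4 hav hbv hcv hdv' hab hac had hbc hbd hcd (hPr _ le_rfl) (hPr _ hR)
            hcount
          · exact htri a b c (by simp) (by simp) (by simp)
          · exact htri a b d (by simp) (by simp) (by simp)
          · exact htri a c d (by simp) (by simp) (by simp)
          · exact htri b c d (by simp) (by simp) (by simp)
          all_goals
            apply IH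
            · simp
            · intro w
              rcases eq_or_ne w v with rfl | hw
              · left; simp [deg_cons, hd4, hav.symm, hbv.symm, hcv.symm, hdv'.symm]
              · have := hL w
                simp only [deg_cons, if_neg hw] at this ⊢
                omega

end stage2

end Pool.Agent.MPa3e05cA
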