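import Pool.Agent.Lib.MP_a3e05c_co.FourC
set_option autoImplicit false
set_option linter.unusedSectionVars false
open Finset

namespace Pool.Agent.MPa3e05cA

variable {V : Type*} [DecidableEq V]

/-! ### Stage 1: vertices of degree two -/

section stage1

variable [Fintype V]

/-- constant `2^{1/3}` -/
noncomputable def xc : ℝ := (2 : ℝ) ^ ((1 : ℝ) / 3)

lemma xc_pow : xc ^ 3 = 2 := by
  unfold xc
  rw [← Real.rpow_natCast, ← Real.rpow_mul (by norm_num)]
  norm_num

lemma xc_pos : 0 < xc := by unfold xc; positivity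

lemma xc_lb : 1.2599 < xc := by
  by_contra h
  push Not at h
  have := pow_le_pow_left₀ xc_pos.le h 3
  rw [xc_pow] at this
  norm_num at this

noncomputable def p1 : ℕ → ℝ := fun k => xc ^ (k - 1)

noncomputable def γ1 : ℕ → ℝ := fun k => if k = 4 then g else if k = 2 then xc else 1

lemma p1_pos (k : ℕ) : 0 < p1 k := by have := xc_pos; unfold p1; positivity

lemma p1_ratio (k : ℕ) : p1 (k + 1) ≤ xc * p1 k := by
  have h1 := xc_lb
  unfold p1
  rcases Nat.eq_zero_or_pos k with h | h
  · subst h; norm_num; linarith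
  · obtain ⟨l, rfl⟩ : ∃ l, k = l + 1 := ⟨k - 1, by omega⟩
    simp only [Nat.add_sub_cancel]
    rw [pow_succ]; linarith

lemma γ1_zero : γ1 0 = 1 := by norm_num [γ1]
lemma γ1_two : γ1 2 = xc := by norm_num [γ1]
lemma γ1_four : γ1 4 = g := by norm_num [γ1]

lemma γ1_pos (k : ℕ) : 0 < γ1 k := by
  unfold γ1; split_ifs
  · exact g_pos
  · exact xc_pos
  · norm_num

noncomputable def F1 (L : Multiset (Sym2 V)) : ℝ := Gm γ1 L * Pr p1 (xc ^ 2) L

lemma p2_le_p1 (k : ℕ) : p2 k ≤ p1 k := by
  have h1 := xc_lb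
  have h2 := q_ub
  unfold p1
  match k with
  | 0 => norm_num [p2]
  | 1 => norm_num [p2]
  | 2 => norm_num [p2]; linarith
  | 3 => norm_num [p2]; nlinarith
  | (k + 4) =>
    simp only [p2]
    have h3 : xc ^ 3 ≤ xc ^ (k + 4 - 1) := pow_le_pow_right₀ (by linarith) (by omega)
    rw [xc_pow] at h3
    linarith

lemma F_le_F1 {L : Multiset (Sym2 V)} (hL : ∀ v, deg v L = 0 ∨ deg v L = 4) : F L ≤ F1 L := by
  have hx := xc_pos
  unfold F F1
  have e : Gm γ2 L = Gm γ1 L := by
    unfold Gm
    apply Finset.prod_congr rfl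
    intro v _
    rcases hL v with h | h <;> rw [h] <;> norm_num [γ1, γ2]
  rw [e]
  apply mul_le_mul_of_nonneg_left _ (Gm_pos γ1_pos L).le
  unfold Pr
  apply Finset.prod_le_prod
  · intro e _; exact (wt_pos p2_pos (by norm_num) _ _).le
  · intro e _
    unfold wt
    split_ifs
    · apply pow_le_pow_left₀ (by norm_num)
      nlinarith [xc_lb]
    · exact p2_le_p1 _

theorem stage1 (L : Multiset (Sym2 V)) (hL : ∀ v, deg v L = 0 ∨ deg v L = 2 ∨ deg v L = 4) :
    (eo L : ℝ) ≤ F1 L := by
  induction hn : Multiset.card L using Nat.strong_induction_on generalizing L with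
  | _ n ih =>
  subst hn
  have IH : ∀ M : Multiset (Sym2 V), Multiset.card M < Multiset.card L →
      (∀ v, deg v M = 0 ∨ deg v M = 2 ∨ deg v M = 4) → (eo M : ℝ) ≤ F1 M :=
    fun M hM hM' => ih _ hM M hM' rfl
  clear ih
  have hx := xc_pos
  have hx3 := xc_pow
  have hx2 : (0:ℝ) < xc ^ 2 := by positivity
  by_cases h2 : ∃ v, deg v L = 2
  · obtain ⟨v, hv⟩ := h2
    obtain ⟨a, L1, rfl⟩ := extract (v := v) (L := L) (by omega)
    by_cases hav : a = v
    · subst hav
      have hd : deg a L1 = 0 := by
        rw [deg_cons, if_pos rfl] at hv; omega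
      have ih := IH L1 (by simp) (by
        intro w
        rcases eq_or_ne w a with rfl | hw
        · left; exact hd
        · have := hL w
          simp only [deg_cons, if_neg hw] at this
          omega)
      have hG : Gm γ1 (s(a, a) ::ₘ L1) = xc * Gm γ1 L1 := by
        rw [Gm_drop γ1_zero (M' := L1) {a} 2 (by simp [deg_cons, hd]) (by simp [hd])
          (by intro w hw; simp at hw; simp [deg_cons, hw]), γ1_two]
        simp
      rw [F1, hG, Pr_cons_loop hx2, eo_loop]
      push_cast
      unfold F1 at ih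
      have e : xc * Gm γ1 L1 * (xc ^ 2 * Pr p1 (xc ^ 2) L1) =
          xc ^ 3 * (Gm γ1 L1 * Pr p1 (xc ^ 2) L1) := by ring
      rw [e, hx3]; linarith
    · have hd1 : deg v L1 = 1 := by
        rw [deg_cons, if_pos rfl, if_neg (fun h => hav h.symm)] at hv; omega
      obtain ⟨b, R, rfl⟩ := extract (v := v) (L := L1) (by omega)
      have hbv : b ≠ v := by
        rintro rfl
        rw [deg_cons, if_pos rfl] at hd1; omega
      have hd : deg v R = 0 := by
        rw [deg_cons, if_pos rfl, if_neg hbv.symm] at hd1; omega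
      have ih := IH (s(a, b) ::ₘ R) (by simp) (by
        intro w
        rcases eq_or_ne w v with rfl | hw
        · left; simp [deg_cons, hd, hbv.symm, Ne.symm hav]
        · have := hL w
          simp only [deg_cons, if_neg hw] at this ⊢
          omega)
      have hG : Gm γ1 (s(v, a) ::ₘ s(v, b) ::ₘ R) = xc * Gm γ1 (s(a, b) ::ₘ R) := by
        rw [Gm_drop γ1_zero (M' := s(a, b) ::ₘ R) {v} 2
          (by simp [deg_cons, hd, hbv.symm, Ne.symm hav])
          (by simp [deg_cons, hd, hbv.symm, Ne.symm hav])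
          (by intro w hw; simp at hw; simp [deg_cons, hw]; omega), γ1_two]
        simp
      have hG0 := Gm_pos γ1_pos (s(a, b) ::ₘ R)
      have hP0 := Pr_pos p1_pos hx2 R
      have h01 : p1 0 = 1 := by norm_num [p1]
      have h11 : p1 1 = 1 := by norm_num [p1]
      have h21 : p1 2 = xc := by norm_num [p1]
      rw [F1, hG, eo_two hd hav hbv,
        Pr_two p1_pos h01 h11 hav hbv (count_eq_zero hd a) (count_eq_zero hd b)]
      unfold F1 at ih
      by_cases hab : a = b
      · subst hab
        rw [if_pos rfl, h21]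
        rw [Pr_cons_loop hx2] at ih
        calc (eo (s(a, a) ::ₘ R) : ℝ) ≤ _ := ih
          _ = _ := by ring
      · rw [if_neg hab]
        have h3 := Pr_cons_ne_le (l := xc ^ 2) p1_pos hx2 p1_ratio hab R
        have h4 := mul_le_mul_of_nonneg_left h3 hG0.le
        linarith
  · push Not at h2
    have hL' : ∀ v, deg v L = 0 ∨ deg v L = 4 := fun v => by
      have := hL v; have := h2 v; tauto
    exact (stage2 L hL').trans (F_le_F1 hL')

end stage1

end Pool.Agent.MPa3e05cA
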