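import Pool.Agent.Lib.MP_a3e05c_co.FourD
import Pool.Agent.Lib.MP_a3e05c_co.Expand
set_option autoImplicit false
set_option linter.unusedSectionVars false
open Finset

/-! ### Link with Eulerian orientations of simple graphs -/

namespace Pool.Agent.MPa3e05cA

open Pool.Agent.MP_a3e05c_co

variable {V : Type*} [DecidableEq V]

/-- the multiset of edges from a finite set of ordered pairs -/
def edgesOf (E : Finset (V × V)) : Multiset (Sym2 V) := E.val.map (fun p => s(p.1, p.2))

/-- total divergence of the orientation `t` of `E` -/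
def dv (E t : Finset (V × V)) : V → ℤ := ∑ p ∈ t, dl p.1 p.2 + ∑ p ∈ E \ t, dl p.2 p.1

open scoped Classical in
lemma coef_edgesOf (E : Finset (V × V)) (x : V → ℤ) :
    coef (edgesOf E) x = (E.powerset.filter (fun t => x + dv E t = 0)).card := by
  rw [Finset.card_filter]
  induction E using Finset.induction_on generalizing x with
  | empty =>
    have : edgesOf (∅ : Finset (V × V)) = 0 := by simp [edgesOf]
    rw [this, coef_zero]
    simp only [Finset.powerset_empty, Finset.sum_singleton]
    have h2 : dv (∅ : Finset (V × V)) ∅ = 0 := by simp [dv]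
    rw [h2, add_zero]
  | insert p E hp ih =>
    have h1 : edgesOf (insert p E) = s(p.1, p.2) ::ₘ edgesOf E := by
      unfold edgesOf
      rw [Finset.insert_val_of_notMem hp, Multiset.map_cons]
    rw [h1, coef_cons, ih, ih, Finset.sum_powerset_insert hp, add_comm]
    congr 1
    · apply Finset.sum_congr rfl
      intro t ht
      have ht' := Finset.mem_powerset.1 ht
      have hpt : p ∉ t := fun h => hp (ht' h)
      have e1 : insert p E \ t = insert p (E \ t) := by
        rw [Finset.insert_sdiff_of_notMem _ hpt]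
      have e2 : x + dl p.2 p.1 + dv E t = x + dv (insert p E) t := by
        unfold dv
        rw [e1, Finset.sum_insert (by simp [hp])]
        abel
      rw [e2]
    · apply Finset.sum_congr rfl
      intro t ht
      have ht' := Finset.mem_powerset.1 ht
      have hpt : p ∉ t := fun h => hp (ht' h)
      have e1 : insert p E \ insert p t = E \ t := by
        rw [Finset.insert_sdiff_insert, Finset.sdiff_insert_of_notMem hp]
      have e2 : x + dl p.1 p.2 + dv E t = x + dv (insert p E) (insert p t) := by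
        unfold dv
        rw [e1, Finset.sum_insert hpt]
        abel
      rw [e2]

lemma coef_edgesOf' (E : Finset (V × V)) (x : V → ℤ)
    [DecidablePred fun t : Finset (V × V) => x + dv E t = 0] :
    coef (edgesOf E) x = (E.powerset.filter (fun t => x + dv E t = 0)).card := by
  rw [coef_edgesOf]; congr!

variable [Fintype V] [LinearOrder V]

lemma dv_apply (G : SimpleGraph V) [DecidableRel G.Adj] {t : Finset (V × V)} (ht : t ⊆ Edg G)
    (x : V) : dv (Edg G) t x = (((Finset.univ.filter (fun w => orOf G t x w = true)).card : ℤ) -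
      ((Finset.univ.filter (fun w => orOf G t w x = true)).card : ℤ)) := by
  classical
  -- the set of darts
  have hD : ∀ f : V → V → ℤ, ∑ p ∈ t, f p.1 p.2 + ∑ p ∈ Edg G \ t, f p.2 p.1 =
      ∑ u, ∑ w, if orOf G t u w = true then f u w else 0 := by
    intro f
    have h1 : ∑ u, ∑ w, (if orOf G t u w = true then f u w else 0) =
        ∑ p ∈ (Finset.univ : Finset (V × V)).filter (fun p => orOf G t p.1 p.2 = true),
          f p.1 p.2 := by
      rw [Finset.sum_filter, ← Finset.univ_product_univ, Finset.sum_product]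
    have h2 : (Finset.univ : Finset (V × V)).filter (fun p => orOf G t p.1 p.2 = true) =
        t ∪ (Edg G \ t).image Prod.swap := by
      ext ⟨u, w⟩
      simp only [Finset.mem_filter, Finset.mem_univ, true_and, orOf_true, Finset.mem_union,
        Finset.mem_image, Finset.mem_sdiff, Prod.exists, Prod.swap_prod_mk, Prod.mk.injEq]
      constructor
      · rintro (h | ⟨h, h'⟩)
        · exact Or.inl h
        · exact Or.inr ⟨w, u, ⟨h, h'⟩, rfl, rfl⟩
      · rintro (h | ⟨a, b, ⟨h, h'⟩, rfl, rfl⟩)
        · exact Or.inl h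
        · exact Or.inr ⟨h, h'⟩
    have h3 : Disjoint t ((Edg G \ t).image Prod.swap) := by
      rw [Finset.disjoint_left]
      rintro ⟨u, w⟩ hu hw
      simp only [Finset.mem_image, Finset.mem_sdiff, Prod.exists, Prod.swap_prod_mk,
        Prod.mk.injEq] at hw
      obtain ⟨a, b, ⟨h, -⟩, rfl, rfl⟩ := hw
      exact lt_asymm (mem_Edg.mp (ht hu)).1 (mem_Edg.mp h).1
    rw [h1, h2, Finset.sum_union h3, Finset.sum_image (by
      rintro ⟨a, b⟩ _ ⟨c, d⟩ _ h
      simpa [Prod.ext_iff, and_comm] using h)]
    rfl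
  have h0 : dv (Edg G) t x = ∑ p ∈ t, dl p.1 p.2 x + ∑ p ∈ Edg G \ t, dl p.2 p.1 x := by
    unfold dv
    rw [Pi.add_apply, Finset.sum_apply, Finset.sum_apply]
  rw [h0, hD (fun u w => dl u w x)]
  have h4 : ∀ u w : V, (if orOf G t u w = true then dl u w x else 0) =
      (if orOf G t u w = true then (if u = x then 1 else 0) else 0) -
      (if orOf G t u w = true then (if w = x then 1 else 0) else 0) := by
    intro u w
    split_ifs with h h1 h2 h2 <;> simp_all [dl, Pi.single_apply]
  simp only [h4, Finset.sum_sub_distrib]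
  congr 1
  · rw [Finset.sum_eq_single x]
    · rw [Finset.card_filter]; push_cast
      apply Finset.sum_congr rfl; intro w _
      simp
    · intro u _ hu
      apply Finset.sum_eq_zero
      intro w _
      simp [hu]
    · intro h; exact absurd (Finset.mem_univ _) h
  · rw [Finset.sum_comm, Finset.sum_eq_single x]
    · rw [Finset.card_filter]; push_cast
      apply Finset.sum_congr rfl; intro w _
      simp
    · intro u _ hu
      apply Finset.sum_eq_zero
      intro w _
      simp [hu]
    · intro h; exact absurd (Finset.mem_univ _) h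

lemma dv_eq_zero (G : SimpleGraph V) [DecidableRel G.Adj] {t : Finset (V × V)} (ht : t ⊆ Edg G) :
    (0 : V → ℤ) + dv (Edg G) t = 0 ↔
      ∀ x, (Finset.univ.filter (fun w => orOf G t x w = true)).card =
        (Finset.univ.filter (fun w => orOf G t w x = true)).card := by
  rw [zero_add, funext_iff]
  apply forall_congr'
  intro x
  rw [dv_apply G ht, Pi.zero_apply]
  omega

lemma eo_edgesOf (G : SimpleGraph V) [DecidableRel G.Adj] :
    eo (edgesOf (Edg G)) = EO V G := by
  classical
  have hc : coef (edgesOf (Edg G)) 0 = ((Edg G).powerset.filter (fun t =>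
      ∀ x, (Finset.univ.filter (fun w => orOf G t x w = true)).card =
        (Finset.univ.filter (fun w => orOf G t w x = true)).card)).card := by
    rw [coef_edgesOf']
    congr 1
    ext t
    constructor
    · intro h
      obtain ⟨h1, h2⟩ := Finset.mem_filter.1 h
      exact Finset.mem_filter.2 ⟨h1, (dv_eq_zero G (Finset.mem_powerset.1 h1)).1 h2⟩
    · intro h
      obtain ⟨h1, h2⟩ := Finset.mem_filter.1 h
      exact Finset.mem_filter.2 ⟨h1, (dv_eq_zero G (Finset.mem_powerset.1 h1)).2 h2⟩
  rw [EO_eq, eo, hc]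
  apply Finset.card_nbij' (fun t => orOf G t) (fun o => (Edg G).filter (fun p => o p.1 p.2 = true))
  · intro t ht
    obtain ⟨ht, hb⟩ := Finset.mem_filter.1 (Finset.mem_coe.1 ht)
    rw [Finset.mem_powerset] at ht
    exact Finset.mem_coe.2 (Finset.mem_filter.2 ⟨orOf_mem ht, hb⟩)
  · intro o ho
    obtain ⟨ho, hb⟩ := Finset.mem_filter.1 (Finset.mem_coe.1 ho)
    refine Finset.mem_coe.2 (Finset.mem_filter.2
      ⟨Finset.mem_powerset.2 (Finset.filter_subset _ _), ?_⟩)
    rw [orOf_filter ho]
    exact hb
  · intro t ht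
    obtain ⟨ht, -⟩ := Finset.mem_filter.1 (Finset.mem_coe.1 ht)
    exact filter_orOf (Finset.mem_powerset.1 ht)
  · intro o ho
    obtain ⟨ho, -⟩ := Finset.mem_filter.1 (Finset.mem_coe.1 ho)
    exact orOf_filter ho

lemma nodup_edgesOf (G : SimpleGraph V) [DecidableRel G.Adj] : (edgesOf (Edg G)).Nodup := by
  unfold edgesOf
  refine Multiset.Nodup.map_on ?_ (Edg G).nodup
  rintro ⟨a, b⟩ h1 ⟨c, d⟩ h2 h
  have h1' := (mem_Edg.mp h1).1
  have h2' := (mem_Edg.mp h2).1
  simp only [Sym2.eq_iff] at h h1' h2'
  rcases h with ⟨rfl, rfl⟩ | ⟨rfl, rfl⟩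
  · rfl
  · exact absurd h1' (lt_asymm h2')

lemma loop_edgesOf (G : SimpleGraph V) [DecidableRel G.Adj] (v : V) :
    s(v, v) ∉ edgesOf (Edg G) := by
  unfold edgesOf
  intro h
  obtain ⟨⟨a, b⟩, h1, h2⟩ := Multiset.mem_map.1 h
  have h1' := (mem_Edg.mp h1).1
  simp only [Sym2.eq_iff] at h2 h1'
  rcases h2 with ⟨rfl, rfl⟩ | ⟨rfl, rfl⟩ <;> exact lt_irrefl _ h1'

lemma deg_edgesOf (G : SimpleGraph V) [DecidableRel G.Adj] (v : V) :
    deg v (edgesOf (Edg G)) = G.degree v := by
  have h1 : deg v (edgesOf (Edg G)) =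
      ∑ p ∈ Edg G, ((if v = p.1 then 1 else 0) + (if v = p.2 then 1 else 0)) := by
    unfold deg edgesOf
    rw [Multiset.map_map]
    rfl
  have h2 : G.degree v = ∑ w, if G.Adj v w then 1 else 0 := by
    rw [← G.card_neighborFinset_eq_degree, SimpleGraph.neighborFinset_eq_filter,
      Finset.card_filter]
  rw [h1, h2]
  unfold Edg
  rw [Finset.sum_filter, ← Finset.univ_product_univ, Finset.sum_product]
  have h3 : ∀ x y : V, (if x < y ∧ G.Adj x y then
      ((if v = x then 1 else 0) + (if v = y then 1 else 0)) else 0) =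
      (if v = x then (if x < y ∧ G.Adj x y then 1 else 0) else 0) +
      (if v = y then (if x < y ∧ G.Adj x y then 1 else 0) else 0) := by
    intro x y; split_ifs <;> rfl
  simp only [h3, Finset.sum_add_distrib]
  have h4 : ∑ x, ∑ y, (if v = x then (if x < y ∧ G.Adj x y then 1 else 0) else 0) =
      ∑ y, (if v < y ∧ G.Adj v y then 1 else 0) := by
    rw [Finset.sum_eq_single v]
    · simp
    · intro u _ hu
      apply Finset.sum_eq_zero
      intro w _
      simp [Ne.symm hu]
    · intro h; exact absurd (Finset.mem_univ _) h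
  have h5 : ∑ x, ∑ y, (if v = y then (if x < y ∧ G.Adj x y then 1 else 0) else 0) =
      ∑ y, (if y < v ∧ G.Adj v y then 1 else 0) := by
    rw [Finset.sum_comm, Finset.sum_eq_single v]
    · simp [G.adj_comm]
    · intro u _ hu
      apply Finset.sum_eq_zero
      intro w _
      simp [Ne.symm hu]
    · intro h; exact absurd (Finset.mem_univ _) h
  rw [h4, h5, ← Finset.sum_add_distrib]
  apply Finset.sum_congr rfl
  intro w _
  by_cases hw : G.Adj v w
  · rcases lt_or_gt_of_ne hw.ne with h | h
    · simp [hw, h, lt_asymm h]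
    · simp [hw, h, lt_asymm h]
  · simp [hw]

lemma EO_K1 : (1 : ℝ) ≤ (EO (Fin 1) (⊤ : SimpleGraph (Fin 1)) : ℝ) := by
  have h : eo (edgesOf (Edg (⊤ : SimpleGraph (Fin 1)))) = 1 := by
    have : edgesOf (Edg (⊤ : SimpleGraph (Fin 1))) = 0 := by decide
    rw [this]; simp [eo, coef_zero]
  rw [← eo_edgesOf, h]; norm_num

lemma EO_K3 : (EO (Fin 3) (⊤ : SimpleGraph (Fin 3)) : ℝ) = 2 := by
  have h : eo (edgesOf (Edg (⊤ : SimpleGraph (Fin 3)))) = 2 := by
    have : edgesOf (Edg (⊤ : SimpleGraph (Fin 3))) =
      s(0, 1) ::ₘ s(0, 2) ::ₘ s(1, 2) ::ₘ 0 := by decide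
    rw [this, eo_two (by decide) (by decide) (by decide), eo_two (by decide) (by decide) (by decide),
      eo_loop]
    simp [eo, coef_zero]
  rw [← eo_edgesOf, h]; norm_num

lemma EO_K5 : (EO (Fin 5) (⊤ : SimpleGraph (Fin 5)) : ℝ) = 24 := by
  have h : eo (edgesOf (Edg (⊤ : SimpleGraph (Fin 5)))) = 24 := by
    have : edgesOf (Edg (⊤ : SimpleGraph (Fin 5))) =
      s(0, 1) ::ₘ s(0, 2) ::ₘ s(0, 3) ::ₘ s(0, 4) ::ₘ s(1, 2) ::ₘ s(1, 3) ::ₘ s(2, 3) ::ₘ
      s(1, 4) ::ₘ s(2, 4) ::ₘ s(3, 4) ::ₘ 0 := by decide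
    rw [this, eo_K4 (by decide) (by decide) (by decide) (by decide) (by decide) (by decide)
      (by decide) (by decide) (by decide) (by decide) (by decide) (by decide) (by decide)
      (by decide) (by decide) (by decide) (by decide) (by decide) (by decide) (by decide)
      (by decide) (by decide) (by decide) (by decide) (by decide) (by decide)]
    unfold T3
    rw [eo_loop, eo_loop]
    simp [eo, coef_zero]
  rw [← eo_edgesOf, h]; norm_num

end Pool.Agent.MPa3e05cA
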