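import Pool.Agent.Lib.MP_a3e05c_co.Clique

set_option autoImplicit false

/-! The clique theorem: weighted homomorphism averages of a graph are bounded by clique
functionals. -/

namespace Pool.Agent.MP_a3e05c_co

open scoped NNReal
open Finset

variable {X : Type*} [Fintype X]
variable {V : Type*} [Fintype V] [DecidableEq V]

/-- Resampling one coordinate does not change the average. -/
lemma av_update [Nonempty X] (w : V) (Φ : (V → X) → ℝ≥0) :
    av Φ = av fun t : X => av fun x : V → X => Φ (Function.update x w t) := by
  classical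
  have hinv : Function.Involutive (fun p : (V → X) × X => (Function.update p.1 w p.2, p.1 w)) := by
    intro p
    simp
  have h1 : ∑ p : (V → X) × X, Φ (Function.update p.1 w p.2) = ∑ p : (V → X) × X, Φ p.1 := by
    have := Equiv.sum_comp hinv.toPerm (fun p : (V → X) × X => Φ p.1)
    simpa using this
  rw [Fintype.sum_prod_type, Fintype.sum_prod_type_right] at h1
  simp only [Finset.sum_const, Finset.card_univ, nsmul_eq_mul] at h1
  have hX : (Fintype.card X : ℝ≥0) ≠ 0 := by exact_mod_cast Fintype.card_ne_zero
  rw [av_comm (fun t x => Φ (Function.update x w t))]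
  unfold av
  rw [← Finset.mul_sum, h1, ← mul_assoc, ← mul_assoc]
  congr 1
  field_simp

variable [LinearOrder V] (G : SimpleGraph V) [DecidableRel G.Adj] (W : X → X → ℝ≥0)

/-- The product of the kernel over the edges of `G` inside `S`. -/
noncomputable def ham (S : Finset V) (x : V → X) : ℝ≥0 :=
  ∏ u ∈ S, ∏ v ∈ S, if u < v ∧ G.Adj u v then W (x u) (x v) else 1

/-- The weighted homomorphism average. -/
noncomputable def hom (S : Finset V) (f : V → X → ℝ≥0) : ℝ≥0 :=
  av fun x : V → X => (∏ v ∈ S, f v (x v)) * ham G W S x

/-- The degree inside `S`. -/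
def degIn (S : Finset V) (v : V) : ℕ := (S.filter fun u => G.Adj v u).card

variable {W}

lemma ham_insert (hW : IsPos W) {S : Finset V} {w : V} (hw : w ∉ S) (x : V → X) :
    ham G W (insert w S) x =
      (∏ v ∈ S, if G.Adj w v then W (x w) (x v) else 1) * ham G W S x := by
  unfold ham
  rw [Finset.prod_insert hw]
  have h1 : ∀ u, ∏ v ∈ insert w S, (if u < v ∧ G.Adj u v then W (x u) (x v) else 1) =
      (if u < w ∧ G.Adj u w then W (x u) (x w) else 1) *
        ∏ v ∈ S, (if u < v ∧ G.Adj u v then W (x u) (x v) else 1) := by
    intro u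
    rw [Finset.prod_insert hw]
  simp_rw [h1]
  rw [Finset.prod_mul_distrib, ← mul_assoc]
  congr 1
  have h2 : (if w < w ∧ G.Adj w w then W (x w) (x w) else 1) = 1 := by
    rw [if_neg]
    intro h
    exact lt_irrefl _ h.1
  rw [h2, one_mul, ← Finset.prod_mul_distrib]
  apply Finset.prod_congr rfl
  intro v hv
  have hne : v ≠ w := fun h => hw (h ▸ hv)
  by_cases hadj : G.Adj w v
  · have hadj' : G.Adj v w := hadj.symm
    rcases lt_or_gt_of_ne hne with h | h
    · rw [if_neg (fun h' => lt_asymm h h'.1), if_pos ⟨h, hadj'⟩, if_pos hadj, one_mul, hW.symm]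
    · rw [if_pos ⟨h, hadj⟩, if_neg (fun h' => lt_asymm h h'.1), if_pos hadj, mul_one]
  · have hadj' : ¬ G.Adj v w := fun h => hadj h.symm
    rw [if_neg (fun h' => hadj h'.2), if_neg (fun h' => hadj' h'.2), if_neg hadj, one_mul]

lemma ham_update {S : Finset V} {w : V} (hw : w ∉ S) (x : V → X) (t : X) :
    ham G W S (Function.update x w t) = ham G W S x := by
  unfold ham
  apply Finset.prod_congr rfl
  intro u hu
  apply Finset.prod_congr rfl
  intro v hv
  have hu' : u ≠ w := fun h => hw (h ▸ hu)
  have hv' : v ≠ w := fun h => hw (h ▸ hv)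
  rw [Function.update_of_ne hu', Function.update_of_ne hv']

lemma hom_insert [Nonempty X] (hW : IsPos W) {S : Finset V} {w : V} (hw : w ∉ S)
    (f : V → X → ℝ≥0) :
    hom G W (insert w S) f = av fun t => f w t *
      hom G W S (fun v y => if G.Adj w v then f v y * W t y else f v y) := by
  unfold hom
  rw [av_update w]
  apply av_congr
  intro t
  rw [← av_mul_left]
  apply av_congr
  intro x
  rw [ham_insert G hW hw, ham_update G hw, Finset.prod_insert hw, Function.update_self]
  have h1 : ∏ v ∈ S, f v (Function.update x w t v) = ∏ v ∈ S, f v (x v) := by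
    apply Finset.prod_congr rfl
    intro v hv
    have hv' : v ≠ w := fun h => hw (h ▸ hv)
    rw [Function.update_of_ne hv']
  have h2 : (∏ v ∈ S, if G.Adj w v then W t (Function.update x w t v) else 1) =
      ∏ v ∈ S, if G.Adj w v then W t (x v) else 1 := by
    apply Finset.prod_congr rfl
    intro v hv
    have hv' : v ≠ w := fun h => hw (h ▸ hv)
    rw [Function.update_of_ne hv']
  have h3 : (∏ v ∈ S, if G.Adj w v then f v (x v) * W t (x v) else f v (x v)) =
      (∏ v ∈ S, f v (x v)) * ∏ v ∈ S, if G.Adj w v then W t (x v) else 1 := by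
    rw [← Finset.prod_mul_distrib]
    apply Finset.prod_congr rfl
    intro v _
    by_cases h : G.Adj w v
    · rw [if_pos h, if_pos h]
    · rw [if_neg h, if_neg h, mul_one]
  rw [h1, h2, h3]
  ring

lemma hom_empty [Nonempty X] (f : V → X → ℝ≥0) : hom G W ∅ f = 1 := by
  unfold hom ham
  simp only [Finset.prod_empty, mul_one]
  exact av_const 1

lemma degIn_insert {S : Finset V} {w : V} (hw : w ∉ S) (v : V) :
    degIn G (insert w S) v = degIn G S v + if G.Adj v w then 1 else 0 := by
  unfold degIn
  rw [Finset.filter_insert]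
  by_cases h : G.Adj v w
  · rw [if_pos h, if_pos h, Finset.card_insert_of_notMem]
    intro h'
    exact hw (Finset.mem_filter.mp h').1
  · rw [if_neg h, if_neg h, add_zero]

/-- **Clique theorem** (Sah, Sawhney, Stoner, Zhao). -/
theorem clique_theorem [Nonempty X] (hW : IsPos W) (n : ℕ) : ∀ (S : Finset V), S.card = n →
    ∀ f : V → X → ℝ≥0,
    hom G W S f ≤ ∏ v ∈ S, N W (degIn G S v + 1) (f v) ^ (1 / ((degIn G S v : ℝ) + 1)) := by
  induction n with
  | zero =>
    intro S hS f
    rw [Finset.card_eq_zero] at hS
    subst hS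
    rw [hom_empty, Finset.prod_empty]
  | succ n ih =>
    intro S hS f
    have hne : S.Nonempty := by
      rw [← Finset.card_pos]; omega
    obtain ⟨w, hwS, hmax⟩ := Finset.exists_max_image S (degIn G S) hne
    obtain ⟨S', hwS', rfl⟩ : ∃ S', w ∉ S' ∧ S = insert w S' :=
      ⟨S.erase w, Finset.notMem_erase w S, (Finset.insert_erase hwS).symm⟩
    have hcard : S'.card = n := by
      rw [Finset.card_insert_of_notMem hwS'] at hS
      omega
    set S := insert w S' with hSdef
    set a := degIn G S w with ha
    have hdeg : ∀ v, degIn G S v = degIn G S' v + if G.Adj v w then 1 else 0 :=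
      fun v => degIn_insert G hwS' v
    set T := S'.filter (fun v => G.Adj w v) with hT
    set R := S'.filter (fun v => ¬ G.Adj w v) with hR
    have haT : T.card = a := by
      rw [ha, hdeg w, if_neg (G.loopless.irrefl w), add_zero]
      rfl
    have hsplit : ∀ F : V → ℝ≥0, ∏ v ∈ S', F v = (∏ v ∈ T, F v) * ∏ v ∈ R, F v := by
      intro F
      rw [hT, hR, Finset.prod_filter_mul_prod_filter_not]
    set c : ℝ≥0 := ∏ v ∈ R, N W (degIn G S v + 1) (f v) ^ (1 / ((degIn G S v : ℝ) + 1)) with hc
    have h1 : hom G W S f ≤ av (fun t => f w t *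
        ∏ v ∈ T, (N W (degIn G S v) (fun y => f v y * W t y)) ^ (1 / (degIn G S v : ℝ))) * c := by
      rw [hSdef, hom_insert G hW hwS']
      rw [← av_mul_right]
      apply av_mono
      intro t
      rw [mul_assoc]
      apply mul_le_mul_right
      refine le_trans (ih S' hcard _) (le_of_eq ?_)
      rw [hsplit, hc]
      congr 1
      · apply Finset.prod_congr rfl
        intro v hv
        have hadj : G.Adj w v := (Finset.mem_filter.mp hv).2
        have hd : degIn G S v = degIn G S' v + 1 := by
          rw [hdeg v, if_pos hadj.symm]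
        simp only [if_pos hadj]
        rw [hd]
        push_cast
        rfl
      · apply Finset.prod_congr rfl
        intro v hv
        have hadj : ¬ G.Adj w v := (Finset.mem_filter.mp hv).2
        have hd : degIn G S v = degIn G S' v := by
          rw [hdeg v, if_neg (fun h => hadj h.symm), add_zero]
        simp only [if_neg hadj]
        rw [hd]
    have h2 : av (fun t => f w t *
        ∏ v ∈ T, (N W (degIn G S v) (fun y => f v y * W t y)) ^ (1 / (degIn G S v : ℝ))) ≤
        N W (a + 1) (f w) ^ (1 / ((a : ℝ) + 1)) *
          ∏ v ∈ T, N W (degIn G S v + 1) (f v) ^ (1 / ((degIn G S v : ℝ) + 1)) := by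
      by_cases hTe : T.Nonempty
      · have ha1 : 1 ≤ a := by
          rw [← haT]; exact hTe.card_pos
        have haR : (0 : ℝ) < a := by exact_mod_cast ha1
        refine le_trans (holder_prod T hTe _ _) ?_
        rw [haT]
        have h3 : ∀ v ∈ T, av (fun t => f w t *
            ((N W (degIn G S v) (fun y => f v y * W t y)) ^ (1 / (degIn G S v : ℝ))) ^ (a : ℝ)) ^
              (1 / (a : ℝ)) ≤
            N W (a + 1) (f w) ^ (1 / ((a : ℝ) * ((a : ℝ) + 1))) *
              N W (degIn G S v + 1) (f v) ^ (1 / ((degIn G S v : ℝ) + 1)) := by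
          intro v hv
          have hvS' : v ∈ S' := (Finset.mem_filter.mp hv).1
          have hadj : G.Adj w v := (Finset.mem_filter.mp hv).2
          have hb1 : 1 ≤ degIn G S v := by
            rw [hdeg v, if_pos hadj.symm]; omega
          have hba : degIn G S v ≤ a := hmax v (Finset.mem_insert_of_mem hvS')
          have hloc := local_ineq hW (degIn G S v) a hb1 hba (f w) (f v)
          have hbR : (0 : ℝ) < degIn G S v := by exact_mod_cast hb1
          have h4 := NNReal.rpow_le_rpow hloc (show (0 : ℝ) ≤ 1 / (a : ℝ) by positivity)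
          have e0 : ∀ t, ((N W (degIn G S v) (fun y => f v y * W t y)) ^
              (1 / (degIn G S v : ℝ))) ^ (a : ℝ) =
              N W (degIn G S v) (fun y => f v y * W t y) ^ ((a : ℝ) / (degIn G S v : ℝ)) := by
            intro t
            rw [← NNReal.rpow_mul]
            congr 1
            field_simp
          simp_rw [e0]
          refine le_trans h4 (le_of_eq ?_)
          rw [NNReal.mul_rpow, ← NNReal.rpow_mul, ← NNReal.rpow_mul]
          congr 2
          · field_simp
          · field_simp
        refine le_trans (Finset.prod_le_prod' h3) (le_of_eq ?_)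
        rw [Finset.prod_mul_distrib, Finset.prod_const, haT, ← NNReal.rpow_natCast,
          ← NNReal.rpow_mul]
        congr 2
        field_simp
      · rw [Finset.not_nonempty_iff_eq_empty] at hTe
        have ha0 : a = 0 := by rw [← haT, hTe, Finset.card_empty]
        rw [hTe, ha0]
        simp only [Finset.prod_empty, mul_one, Nat.cast_zero, zero_add, div_one, NNReal.rpow_one]
        rw [N_one]
    calc hom G W S f ≤ _ := h1
      _ ≤ (N W (a + 1) (f w) ^ (1 / ((a : ℝ) + 1)) *
          ∏ v ∈ T, N W (degIn G S v + 1) (f v) ^ (1 / ((degIn G S v : ℝ) + 1))) * c :=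
        mul_le_mul_left h2 _
      _ = _ := by
        rw [hSdef, Finset.prod_insert hwS', ← hSdef, hsplit, hc, mul_assoc]

/-- For the complete graph the homomorphism average is the clique functional. -/
lemma hom_top [Nonempty X] (hW : IsPos W) (S : Finset V) : ∀ f : X → ℝ≥0,
    hom (⊤ : SimpleGraph V) W S (fun _ => f) = N W S.card f := by
  induction S using Finset.induction_on with
  | empty => intro f; rw [hom_empty, Finset.card_empty, N_zero]
  | insert w S hw ih =>
    intro f
    rw [hom_insert (⊤ : SimpleGraph V) hW hw, Finset.card_insert_of_notMem hw, N_succ]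
    apply av_congr
    intro t
    congr 1
    rw [← ih]
    unfold hom
    apply av_congr
    intro x
    congr 1
    apply Finset.prod_congr rfl
    intro v hv
    have hv' : w ≠ v := fun h => hw (h ▸ hv)
    simp only [SimpleGraph.top_adj]
    rw [if_pos hv']

end Pool.Agent.MP_a3e05c_co
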