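import Pool.Agent.Lib.MP_a3e05c_co.Hom

set_option autoImplicit false

/-! The cosine kernel on `ZMod m` and its nonnegative positive semidefinite majorant. -/

namespace Pool.Agent.MP_a3e05c_co

open scoped NNReal
open Finset

variable {m : ℕ} [NeZero m]

/-- The character `exp (2 π i t / m)`. -/
noncomputable def ch (t : ZMod m) : ℂ := ZMod.stdAddChar t

lemma ch_zero : ch (0 : ZMod m) = 1 := by
  unfold ch
  exact AddChar.map_zero_eq_one _

lemma ch_add (a b : ZMod m) : ch (a + b) = ch a * ch b := by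
  unfold ch
  exact AddChar.map_add_eq_mul _ a b

lemma normSq_ch (a : ZMod m) : (ch a).re ^ 2 + (ch a).im ^ 2 = 1 := by
  have h : Complex.normSq (ch a) = 1 := by
    unfold ch
    rw [ZMod.stdAddChar_apply]
    exact Circle.normSq_coe _
  rw [Complex.normSq_apply] at h
  nlinarith

lemma ch_neg (a : ZMod m) : ch (-a) = (starRingEnd ℂ) (ch a) := by
  have h1 : ch a * ch (-a) = 1 := by
    rw [← ch_add, add_neg_cancel, ch_zero]
  have h2 : ch a * (starRingEnd ℂ) (ch a) = 1 := by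
    rw [Complex.mul_conj]
    rw [Complex.normSq_apply]
    have := normSq_ch a
    norm_cast
    nlinarith
  have h3 : ch a ≠ 0 := by
    intro h0
    rw [h0, zero_mul] at h2
    exact zero_ne_one h2
  exact mul_left_cancel₀ h3 (h1.trans h2.symm)

/-- The cosine kernel. -/
noncomputable def kc (x y : ZMod m) : ℝ := (ch (x - y)).re

/-- The sine kernel. -/
noncomputable def ks (x y : ZMod m) : ℝ := (ch (x - y)).im

lemma ch_sub (a b : ZMod m) : ch (a - b) = ch a * (starRingEnd ℂ) (ch b) := by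
  rw [sub_eq_add_neg, ch_add, ch_neg]

lemma kc_eq (x y : ZMod m) :
    kc x y = (ch x).re * (ch y).re + (ch x).im * (ch y).im := by
  unfold kc
  rw [ch_sub, Complex.mul_re, Complex.conj_re, Complex.conj_im]
  ring

lemma ks_eq (x y : ZMod m) :
    ks x y = (ch x).im * (ch y).re - (ch x).re * (ch y).im := by
  unfold ks
  rw [ch_sub, Complex.mul_im, Complex.conj_re, Complex.conj_im]
  ring

lemma kc_sq_add_ks_sq (x y : ZMod m) : kc x y ^ 2 + ks x y ^ 2 = 1 := normSq_ch _

lemma kc_comm (x y : ZMod m) : kc x y = kc y x := by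
  rw [kc_eq, kc_eq]; ring

lemma abs_kc_le (x y : ZMod m) : |kc x y| ≤ 1 := by
  have := kc_sq_add_ks_sq x y
  rw [abs_le]
  constructor <;> nlinarith [sq_nonneg (ks x y), sq_nonneg (kc x y - 1), sq_nonneg (kc x y + 1)]

/-- The majorant `(1 + cos²)/2`. -/
noncomputable def WQ (x y : ZMod m) : ℝ≥0 := ⟨(1 + kc x y ^ 2) / 2, by positivity⟩

lemma WQ_coe (x y : ZMod m) : ((WQ x y : ℝ≥0) : ℝ) = (1 + kc x y ^ 2) / 2 := rfl

lemma abs_kc_le_WQ (x y : ZMod m) : |kc x y| ≤ (WQ x y : ℝ) := by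
  rw [WQ_coe, ← sq_abs]
  nlinarith [sq_nonneg (|kc x y| - 1)]

/-- The average of a real function. -/
noncomputable def avR {X : Type*} [Fintype X] (f : X → ℝ) : ℝ :=
  (Fintype.card X : ℝ)⁻¹ * ∑ x, f x

lemma av_coe {X : Type*} [Fintype X] (f : X → ℝ≥0) : ((av f : ℝ≥0) : ℝ) = avR fun x => (f x : ℝ) := by
  unfold av avR
  push_cast
  rfl

lemma avR_mul_left {X : Type*} [Fintype X] (c : ℝ) (f : X → ℝ) :
    avR (fun x => c * f x) = c * avR f := by
  unfold avR
  rw [← Finset.mul_sum]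
  ring

lemma avR_add {X : Type*} [Fintype X] (f g : X → ℝ) :
    avR (fun x => f x + g x) = avR f + avR g := by
  unfold avR
  rw [Finset.sum_add_distrib]
  ring

lemma avR_congr {X : Type*} [Fintype X] {f g : X → ℝ} (h : ∀ x, f x = g x) : avR f = avR g := by
  have : f = g := funext h
  rw [this]

lemma avR_mono {X : Type*} [Fintype X] {f g : X → ℝ} (h : ∀ x, f x ≤ g x) : avR f ≤ avR g := by
  unfold avR
  exact mul_le_mul_of_nonneg_left (Finset.sum_le_sum fun x _ => h x) (by positivity)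

lemma WQ_form (F G : ZMod m → ℝ≥0) :
    ((av fun x => av fun y => F x * G y * WQ x y : ℝ≥0) : ℝ) =
      1 / 2 * (avR (fun x => (F x : ℝ)) * avR (fun y => (G y : ℝ)) +
        avR (fun x => (F x : ℝ) * (ch x).re ^ 2) * avR (fun y => (G y : ℝ) * (ch y).re ^ 2) +
        2 * (avR (fun x => (F x : ℝ) * ((ch x).re * (ch x).im)) *
          avR (fun y => (G y : ℝ) * ((ch y).re * (ch y).im))) +
        avR (fun x => (F x : ℝ) * (ch x).im ^ 2) * avR (fun y => (G y : ℝ) * (ch y).im ^ 2)) := by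
  rw [av_coe]
  have h1 : ∀ x : ZMod m, ((av fun y => F x * G y * WQ x y : ℝ≥0) : ℝ) =
      1 / 2 * ((F x : ℝ) * avR (fun y => (G y : ℝ)) +
        ((F x : ℝ) * (ch x).re ^ 2) * avR (fun y => (G y : ℝ) * (ch y).re ^ 2) +
        2 * (((F x : ℝ) * ((ch x).re * (ch x).im)) *
          avR (fun y => (G y : ℝ) * ((ch y).re * (ch y).im))) +
        ((F x : ℝ) * (ch x).im ^ 2) * avR (fun y => (G y : ℝ) * (ch y).im ^ 2)) := by
    intro x
    rw [av_coe, ← avR_mul_left (F x : ℝ), ← avR_mul_left ((F x : ℝ) * (ch x).re ^ 2),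
      ← avR_mul_left ((F x : ℝ) * ((ch x).re * (ch x).im)),
      ← avR_mul_left ((F x : ℝ) * (ch x).im ^ 2), ← avR_mul_left 2, ← avR_add, ← avR_add,
      ← avR_add, ← avR_mul_left]
    apply avR_congr
    intro y
    push_cast
    rw [WQ_coe, kc_eq]
    ring
  simp_rw [h1]
  rw [avR_mul_left, avR_add, avR_add, avR_add, avR_mul_left]
  have h2 : ∀ (f : ZMod m → ℝ) (c : ℝ), avR (fun x => f x * c) = avR f * c := by
    intro f c
    have : (fun x => f x * c) = fun x => c * f x := by funext x; ring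
    rw [this, avR_mul_left]; ring
  rw [h2, h2, h2, h2]

lemma isPos_WQ : IsPos (WQ : ZMod m → ZMod m → ℝ≥0) where
  symm x y := by
    apply NNReal.eq
    rw [WQ_coe, WQ_coe, kc_comm]
  cs F G := by
    rw [← NNReal.coe_le_coe]
    push_cast
    rw [WQ_form, WQ_form, WQ_form]
    set a0 := avR (fun x => (F x : ℝ))
    set a1 := avR (fun x => (F x : ℝ) * (ch x).re ^ 2)
    set a2 := avR (fun x => (F x : ℝ) * ((ch x).re * (ch x).im))
    set a3 := avR (fun x => (F x : ℝ) * (ch x).im ^ 2)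
    set b0 := avR (fun x => (G x : ℝ))
    set b1 := avR (fun x => (G x : ℝ) * (ch x).re ^ 2)
    set b2 := avR (fun x => (G x : ℝ) * ((ch x).re * (ch x).im))
    set b3 := avR (fun x => (G x : ℝ) * (ch x).im ^ 2)
    nlinarith [sq_nonneg (a0 * b1 - a1 * b0), sq_nonneg (a0 * b2 - a2 * b0),
      sq_nonneg (a0 * b3 - a3 * b0), sq_nonneg (a1 * b2 - a2 * b1),
      sq_nonneg (a1 * b3 - a3 * b1), sq_nonneg (a2 * b3 - a3 * b2)]

end Pool.Agent.MP_a3e05c_co
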