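import Pool.Agent.Lib.MP_a3e05c_co.Energy

set_option autoImplicit false

/-! The pointwise comparison of the product of cosines with the Gaussian type weight. -/

namespace Pool.Agent.MP_a3e05c_co

open scoped NNReal Real
open Finset

variable {m : ℕ} [NeZero m] {n : ℕ}

/-- The local deviation. -/
noncomputable def qd (i : Fin n) (x : Fin n → ZMod m) : ℝ := Q (Ug i x) (x i)

lemma qd_nonneg (i : Fin n) (x : Fin n → ZMod m) : 0 ≤ qd i x := Q_nonneg _ _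

lemma re_self (t : ZMod m) : (sq t * (starRingEnd ℂ) (sq t)).re = 1 := by
  rw [← norm_sq_eq_re, norm_sqc, one_pow]

lemma qd_ge (i : Fin n) (x : Fin n → ZMod m) :
    ‖Sg x‖ - (sq (x i) * (starRingEnd ℂ) (Sg x)).re ≤ qd i x := by
  have h1 : (sq (x i) * (starRingEnd ℂ) (Sg x)).re =
      1 + (sq (x i) * (starRingEnd ℂ) (Ug i x)).re := by
    rw [Sg_eq i x, map_add, mul_add, Complex.add_re, re_self]
  have h2 : ‖Sg x‖ ≤ 1 + ‖Ug i x‖ := by
    rw [Sg_eq i x]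
    refine (norm_add_le _ _).trans ?_
    rw [norm_sqc]
  unfold qd Q
  rw [h1]
  linarith

lemma norm_sub_sq' (z w : ℂ) :
    ‖z - w‖ ^ 2 = ‖z‖ ^ 2 + ‖w‖ ^ 2 - 2 * (z * (starRingEnd ℂ) w).re := by
  rw [← Complex.normSq_eq_norm_sq, ← Complex.normSq_eq_norm_sq, ← Complex.normSq_eq_norm_sq,
    Complex.normSq_sub]

lemma pair_bound (i j : Fin n) (x : Fin n → ZMod m) :
    ‖Sg x‖ * ks (x i) (x j) ^ 2 ≤ qd i x + qd j x := by
  by_cases h0 : ‖Sg x‖ = 0
  · rw [h0, zero_mul]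
    exact add_nonneg (qd_nonneg _ _) (qd_nonneg _ _)
  · set r := ‖Sg x‖ with hr
    have hr0 : 0 < r := lt_of_le_of_ne (norm_nonneg _) (Ne.symm h0)
    have h1 : ∀ k, ‖(r : ℂ) * sq (x k) - Sg x‖ ^ 2 =
        2 * r * (r - (sq (x k) * (starRingEnd ℂ) (Sg x)).re) := by
      intro k
      rw [norm_sub_sq', norm_mul, norm_sqc, Complex.norm_real, Real.norm_of_nonneg hr0.le,
        mul_assoc (r : ℂ), Complex.re_ofReal_mul, ← hr]
      ring
    have h2 : ‖(r : ℂ) * sq (x i) - (r : ℂ) * sq (x j)‖ ^ 2 = 4 * r ^ 2 * ks (x i) (x j) ^ 2 := by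
      rw [← mul_sub, norm_mul, mul_pow, norm_sub_sq', norm_sqc, norm_sqc, re_sq_mul,
        Complex.norm_real, Real.norm_of_nonneg hr0.le]
      ring
    have h3 : ‖(r : ℂ) * sq (x i) - (r : ℂ) * sq (x j)‖ ≤
        ‖(r : ℂ) * sq (x i) - Sg x‖ + ‖(r : ℂ) * sq (x j) - Sg x‖ := by
      have : (r : ℂ) * sq (x i) - (r : ℂ) * sq (x j) =
        ((r : ℂ) * sq (x i) - Sg x) - ((r : ℂ) * sq (x j) - Sg x) := by ring
      rw [this]
      exact norm_sub_le _ _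
    have h4 : ‖(r : ℂ) * sq (x i) - (r : ℂ) * sq (x j)‖ ^ 2 ≤
        2 * (‖(r : ℂ) * sq (x i) - Sg x‖ ^ 2 + ‖(r : ℂ) * sq (x j) - Sg x‖ ^ 2) := by
      have a1 := norm_nonneg ((r : ℂ) * sq (x i) - (r : ℂ) * sq (x j))
      nlinarith [sq_nonneg (‖(r : ℂ) * sq (x i) - Sg x‖ - ‖(r : ℂ) * sq (x j) - Sg x‖)]
    rw [h1, h1, h2] at h4
    have h5 := qd_ge i x
    have h6 := qd_ge j x
    rw [← hr] at h5 h6
    have h7 : r * (r * ks (x i) (x j) ^ 2) ≤ r * ((r - (sq (x i) * (starRingEnd ℂ) (Sg x)).re) +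
        (r - (sq (x j) * (starRingEnd ℂ) (Sg x)).re)) := by nlinarith
    have h8 := le_of_mul_le_mul_left h7 hr0
    linarith

lemma abs_kc_le_exp (a b : ZMod m) : |kc a b| ≤ Real.exp (-(ks a b ^ 2 / 2)) := by
  have h1 := kc_sq_add_ks_sq a b
  apply abs_le_of_sq_le_sq _ (Real.exp_pos _).le
  rw [← Real.exp_nat_mul]
  have h2 := Real.add_one_le_exp (-(ks a b ^ 2))
  have h3 : ((2:ℕ):ℝ) * -(ks a b ^ 2 / 2) = -(ks a b ^ 2) := by push_cast; ring
  rw [h3]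
  linarith

lemma exp_aux {u : ℝ} (h0 : 0 ≤ u) (h1 : u ≤ 1 / 2) : Real.exp (-(u + u ^ 2)) ≤ 1 - u := by
  have h2 := Real.quadratic_le_exp_of_nonneg (by positivity : 0 ≤ u + u ^ 2)
  rw [Real.exp_neg, inv_le_comm₀ (Real.exp_pos _) (by linarith)]
  refine le_trans ?_ h2
  rw [inv_le_iff_one_le_mul₀ (by linarith)]
  nlinarith [mul_nonneg h0 (sub_nonneg.mpr h1), mul_nonneg (mul_nonneg h0 h0) (sub_nonneg.mpr h1),
    mul_nonneg (mul_nonneg h0 h0) h0, mul_nonneg (mul_nonneg (mul_nonneg h0 h0) h0)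
      (sub_nonneg.mpr h1), mul_nonneg (mul_nonneg (mul_nonneg (mul_nonneg h0 h0) h0) h0)
      (sub_nonneg.mpr h1)]

lemma exp_le_abs_kc {a b : ZMod m} (h : ks a b ^ 2 ≤ 1 / 2) :
    Real.exp (-((ks a b ^ 2 + (ks a b ^ 2) ^ 2) / 2)) ≤ |kc a b| := by
  have h1 := kc_sq_add_ks_sq a b
  apply le_of_sq_le_sq _ (abs_nonneg _)
  rw [← Real.exp_nat_mul, sq_abs]
  have h2 := exp_aux (sq_nonneg (ks a b)) h
  have h3 : ((2:ℕ):ℝ) * -((ks a b ^ 2 + (ks a b ^ 2) ^ 2) / 2) =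
      -(ks a b ^ 2 + (ks a b ^ 2) ^ 2) := by push_cast; ring
  rw [h3]
  linarith

lemma WQ_le_exp (a b : ZMod m) : (WQ a b : ℝ) ≤ Real.exp (-(ks a b ^ 2 / 2)) := by
  have h1 := kc_sq_add_ks_sq a b
  have h2 := Real.add_one_le_exp (-(ks a b ^ 2 / 2))
  rw [WQ_coe]
  linarith

lemma prod_exp_eq (x : Fin n → ZMod m) :
    ∏ p ∈ Edg (⊤ : SimpleGraph (Fin n)), Real.exp (-(ks (x p.1) (x p.2) ^ 2 / 2)) = wt x := by
  rw [← Real.exp_sum]
  unfold wt Tq
  rw [Finset.sum_neg_distrib, Finset.sum_div]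

lemma kc_tri (a b c : ZMod m) : kc a b = kc c a * kc c b + ks c a * ks c b := by
  unfold kc ks
  have h : a - b = (c - b) + -(c - a) := by ring
  rw [h, ch_add, ch_neg, Complex.mul_re, Complex.conj_re, Complex.conj_im]
  ring

lemma sign_lemma (hn : Odd n) (x : Fin n → ZMod m)
    (hx : ∀ i j, ks (x i) (x j) ^ 2 ≤ 1 / 8) :
    ∏ p ∈ Edg (⊤ : SimpleGraph (Fin n)), |kc (x p.1) (x p.2)| =
      ∏ p ∈ Edg (⊤ : SimpleGraph (Fin n)), kc (x p.1) (x p.2) := by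
  set z : Fin n := ⟨0, hn.pos⟩ with hz
  set ε : Fin n → ℝ := fun i => if 0 ≤ kc (x z) (x i) then 1 else -1 with hε
  have hε1 : ∀ i, ε i = 1 ∨ ε i = -1 := by
    intro i
    rw [hε]
    dsimp only
    split_ifs
    · exact Or.inl rfl
    · exact Or.inr rfl
  have hε2 : ∀ i, ε i * kc (x z) (x i) = |kc (x z) (x i)| := by
    intro i
    rw [hε]
    dsimp only
    split_ifs with h
    · rw [abs_of_nonneg h, one_mul]
    · rw [abs_of_neg (not_le.mp h)]; ring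
  have hε3 : ∀ i j, |kc (x i) (x j)| = (ε i * ε j) * kc (x i) (x j) := by
    intro i j
    have h1 : (ε i * ε j) * kc (x i) (x j) = |kc (x z) (x i)| * |kc (x z) (x j)| +
        (ε i * ε j) * (ks (x z) (x i) * ks (x z) (x j)) := by
      rw [kc_tri (x i) (x j) (x z), ← hε2 i, ← hε2 j]
      ring
    have h2 : |ε i * ε j| = 1 := by
      rcases hε1 i with h | h <;> rcases hε1 j with h' | h' <;> rw [h, h'] <;> norm_num
    have h3 : |(ε i * ε j) * (ks (x z) (x i) * ks (x z) (x j))| ≤ 1 / 8 := by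
      rw [abs_mul, h2, one_mul, abs_mul]
      have a1 := hx z i
      have a2 := hx z j
      rw [← sq_abs] at a1 a2
      nlinarith [sq_nonneg (|ks (x z) (x i)| - |ks (x z) (x j)|)]
    have h4 : 7 / 8 ≤ |kc (x z) (x i)| * |kc (x z) (x j)| := by
      have a1 := hx z i
      have a2 := hx z j
      have b1 := kc_sq_add_ks_sq (x z) (x i)
      have b2 := kc_sq_add_ks_sq (x z) (x j)
      apply le_of_sq_le_sq _ (mul_nonneg (abs_nonneg _) (abs_nonneg _))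
      rw [mul_pow, sq_abs, sq_abs]
      nlinarith
    have h5 : 0 ≤ (ε i * ε j) * kc (x i) (x j) := by
      rw [h1]
      rw [abs_le] at h3
      linarith [h3.1]
    rw [← abs_of_nonneg h5, abs_mul, h2, one_mul]
  have h6 : ∏ p ∈ Edg (⊤ : SimpleGraph (Fin n)), (ε p.1 * ε p.2) = 1 := by
    rw [← prod_pairs (fun i _ => ε i)]
    apply Finset.prod_eq_one
    intro i _
    obtain ⟨k, hk⟩ := hn
    have h7 : ∏ j, (if i = j then (1:ℝ) else ε i) = ε i ^ (2 * k) := by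
      rw [Finset.prod_ite, Finset.prod_const_one, one_mul, Finset.prod_const]
      congr 1
      have h8 : (Finset.univ.filter (fun j => ¬ i = j)) = Finset.univ.erase i := by
        ext j
        simp [eq_comm]
      rw [h8, Finset.card_erase_of_mem (Finset.mem_univ _), Finset.card_univ, Fintype.card_fin]
      omega
    rw [h7, pow_mul]
    have : ε i ^ 2 = 1 := by
      rcases hε1 i with h | h <;> rw [h] <;> norm_num
    rw [this, one_pow]
  calc ∏ p ∈ Edg (⊤ : SimpleGraph (Fin n)), |kc (x p.1) (x p.2)|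
      = ∏ p ∈ Edg (⊤ : SimpleGraph (Fin n)), ((ε p.1 * ε p.2) * kc (x p.1) (x p.2)) :=
        Finset.prod_congr rfl fun p _ => hε3 p.1 p.2
    _ = _ := by rw [Finset.prod_mul_distrib, h6, one_mul]

lemma sum_pairs_qd (g : Fin n → ℝ) :
    ∑ p ∈ Edg (⊤ : SimpleGraph (Fin n)), (g p.1 + g p.2) = ((n:ℝ) - 1) * ∑ i, g i := by
  rw [← sum_pairs (fun i _ => g i), Finset.mul_sum]
  apply Finset.sum_congr rfl
  intro i _
  rw [Finset.sum_ite, Finset.sum_const_zero, zero_add, Finset.sum_const, nsmul_eq_mul]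
  congr 1
  have h8 : (Finset.univ.filter (fun j => ¬ i = j)) = Finset.univ.erase i := by
    ext j
    simp [eq_comm]
  rw [h8, Finset.card_erase_of_mem (Finset.mem_univ _), Finset.card_univ, Fintype.card_fin,
    Nat.cast_sub (by have := i.pos; omega)]
  simp

/-- The product of cosines. -/
noncomputable def Pc (x : Fin n → ZMod m) : ℝ :=
  ∏ p ∈ Edg (⊤ : SimpleGraph (Fin n)), kc (x p.1) (x p.2)

lemma abs_Pc_le (x : Fin n → ZMod m) : |Pc x| ≤ wt x := by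
  unfold Pc
  rw [Finset.abs_prod, ← prod_exp_eq]
  exact Finset.prod_le_prod (fun _ _ => abs_nonneg _) (fun p _ => abs_kc_le_exp _ _)

/-- The sum of the squares of the local deviations. -/
noncomputable def Dev (x : Fin n → ZMod m) : ℝ := ∑ i, qd i x ^ 2

lemma Dev_nonneg (x : Fin n → ZMod m) : 0 ≤ Dev x := Finset.sum_nonneg fun _ _ => sq_nonneg _

lemma good_case (hn : Odd n) (x : Fin n → ZMod m) (h1 : (n:ℝ) / 2 ≤ ‖Sg x‖)
    (h2 : ∀ i, qd i x < n / 32) : wt x * Real.exp (-(4 / n * Dev x)) ≤ Pc x := by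
  have hn0 : (0:ℝ) < n := by exact_mod_cast hn.pos
  have h3 : ∀ i j, ks (x i) (x j) ^ 2 ≤ 2 / n * (qd i x + qd j x) := by
    intro i j
    have a1 := pair_bound i j x
    have a2 : (n:ℝ) / 2 * ks (x i) (x j) ^ 2 ≤ qd i x + qd j x :=
      (mul_le_mul_of_nonneg_right h1 (sq_nonneg _)).trans a1
    rw [div_mul_eq_mul_div, le_div_iff₀ hn0]
    linarith
  have h4 : ∀ i j, ks (x i) (x j) ^ 2 ≤ 1 / 8 := by
    intro i j
    refine (h3 i j).trans ?_
    rw [div_mul_eq_mul_div, div_le_iff₀ hn0]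
    have := h2 i
    have := h2 j
    linarith
  have h5 : Pc x = ∏ p ∈ Edg (⊤ : SimpleGraph (Fin n)), |kc (x p.1) (x p.2)| :=
    (sign_lemma hn x h4).symm
  rw [h5]
  have h6 : ∏ p ∈ Edg (⊤ : SimpleGraph (Fin n)),
      Real.exp (-((ks (x p.1) (x p.2) ^ 2 + (ks (x p.1) (x p.2) ^ 2) ^ 2) / 2)) ≤
      ∏ p ∈ Edg (⊤ : SimpleGraph (Fin n)), |kc (x p.1) (x p.2)| := by
    apply Finset.prod_le_prod (fun _ _ => (Real.exp_pos _).le)
    intro p _
    exact exp_le_abs_kc ((h4 _ _).trans (by norm_num))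
  refine le_trans ?_ h6
  rw [← Real.exp_sum]
  unfold wt
  rw [← Real.exp_add]
  apply Real.exp_le_exp.mpr
  have h7 : ∑ p ∈ Edg (⊤ : SimpleGraph (Fin n)), (ks (x p.1) (x p.2) ^ 2) ^ 2 ≤
      ∑ p ∈ Edg (⊤ : SimpleGraph (Fin n)), 8 / n ^ 2 * (qd p.1 x ^ 2 + qd p.2 x ^ 2) := by
    apply Finset.sum_le_sum
    intro p _
    have a1 := h3 p.1 p.2
    have a2 : (ks (x p.1) (x p.2) ^ 2) ^ 2 ≤ (2 / n * (qd p.1 x + qd p.2 x)) ^ 2 :=
      pow_le_pow_left₀ (sq_nonneg _) a1 2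
    refine a2.trans ?_
    have e : 8 / (n:ℝ) ^ 2 = (2 / n) ^ 2 * 2 := by field_simp; norm_num
    rw [e, mul_pow, mul_assoc]
    apply mul_le_mul_of_nonneg_left _ (sq_nonneg _)
    nlinarith [sq_nonneg (qd p.1 x - qd p.2 x)]
  rw [← Finset.mul_sum, sum_pairs_qd (fun i => qd i x ^ 2)] at h7
  have h8 : 8 / (n:ℝ) ^ 2 * (((n:ℝ) - 1) * ∑ i, qd i x ^ 2) ≤ 8 / n * Dev x := by
    have e : 8 / (n:ℝ) * Dev x = 8 / (n:ℝ) ^ 2 * (n * ∑ i, qd i x ^ 2) := by
      unfold Dev; field_simp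
    rw [e]
    apply mul_le_mul_of_nonneg_left _ (by positivity)
    have := Dev_nonneg x
    unfold Dev at this
    linarith
  have h9 : ∑ p ∈ Edg (⊤ : SimpleGraph (Fin n)),
      -((ks (x p.1) (x p.2) ^ 2 + (ks (x p.1) (x p.2) ^ 2) ^ 2) / 2) =
      -(Tq x / 2) - (∑ p ∈ Edg (⊤ : SimpleGraph (Fin n)), (ks (x p.1) (x p.2) ^ 2) ^ 2) / 2 := by
    rw [Finset.sum_neg_distrib, ← Finset.sum_div, Finset.sum_add_distrib]
    unfold Tq
    ring
  rw [h9]
  have e2 : 8 / (n:ℝ) * Dev x = 2 * (4 / n * Dev x) := by ring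
  linarith

/-- The pointwise lower bound. -/
theorem pointwise (hn : Odd n) (A : ℝ) (hA : 0 ≤ A) (x : Fin n → ZMod m) :
    wt x * (Real.exp (-A) * (1 + A - 4 / n * Dev x) - 2048 / n ^ 2 * Dev x) -
      2 * (Real.exp (-(3 * (n:ℝ) ^ 2 / 64)) * Real.exp (-(Tq x / 4))) ≤ Pc x := by
  have hn0 : (0:ℝ) < n := by exact_mod_cast hn.pos
  have hw := wt_pos x
  have hD := Dev_nonneg x
  have h0 : Real.exp (-A) * (1 + A - 4 / n * Dev x) ≤ Real.exp (-(4 / n * Dev x)) := by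
    have a1 := Real.add_one_le_exp (A - 4 / n * Dev x)
    have a2 : Real.exp (-(4 / n * Dev x)) = Real.exp (-A) * Real.exp (A - 4 / n * Dev x) := by
      rw [← Real.exp_add]; congr 1; ring
    rw [a2]
    exact mul_le_mul_of_nonneg_left (by linarith) (Real.exp_pos _).le
  have h1 : Real.exp (-(4 / n * Dev x)) ≤ 1 := by
    rw [Real.exp_le_one_iff]
    have : 0 ≤ 4 / n * Dev x := by positivity
    linarith
  have hbad := neg_le_of_abs_le (abs_Pc_le x)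
  have hpos : 0 ≤ 2048 / (n:ℝ) ^ 2 * Dev x := by positivity
  have hpos2 : 0 < Real.exp (-(3 * (n:ℝ) ^ 2 / 64)) * Real.exp (-(Tq x / 4)) := by positivity
  by_cases hS : (n:ℝ) / 2 ≤ ‖Sg x‖
  · by_cases hq : ∀ i, qd i x < n / 32
    · have h2 := good_case hn x hS hq
      have h3 : wt x * (Real.exp (-A) * (1 + A - 4 / n * Dev x) - 2048 / n ^ 2 * Dev x) ≤
          wt x * Real.exp (-(4 / n * Dev x)) :=
        mul_le_mul_of_nonneg_left (by linarith) hw.le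
      linarith
    · push Not at hq
      obtain ⟨i, hi⟩ := hq
      have h2 : 2 ≤ 2048 / (n:ℝ) ^ 2 * Dev x := by
        have a1 : (n / 32 : ℝ) ^ 2 ≤ qd i x ^ 2 := pow_le_pow_left₀ (by positivity) hi 2
        have a2 : qd i x ^ 2 ≤ Dev x :=
          Finset.single_le_sum (f := fun i => qd i x ^ 2) (fun _ _ => sq_nonneg _)
            (Finset.mem_univ i)
        rw [div_mul_eq_mul_div, le_div_iff₀ (by positivity)]
        nlinarith
      have h3 : wt x * (Real.exp (-A) * (1 + A - 4 / n * Dev x) - 2048 / n ^ 2 * Dev x) ≤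
          wt x * (-1) := mul_le_mul_of_nonneg_left (by linarith) hw.le
      linarith
  · push Not at hS
    have h2 : wt x ≤ Real.exp (-(3 * (n:ℝ) ^ 2 / 64)) * Real.exp (-(Tq x / 4)) := by
      unfold wt
      rw [← Real.exp_add]
      apply Real.exp_le_exp.mpr
      have a1 := four_Tq x
      have a2 : ‖Sg x‖ ^ 2 ≤ ((n:ℝ) / 2) ^ 2 := pow_le_pow_left₀ (norm_nonneg _) hS.le 2
      nlinarith
    have h3 : wt x * (Real.exp (-A) * (1 + A - 4 / n * Dev x) - 2048 / n ^ 2 * Dev x) ≤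
        wt x * 1 := mul_le_mul_of_nonneg_left (by linarith) hw.le
    linarith

end Pool.Agent.MP_a3e05c_co
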